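import Pool.Agent.Lib.MP_6f5d36_co.Level9Cert
import Pool.Agent.Lib.MP_6f5d36_co.D9.C00
import Pool.Agent.Lib.MP_6f5d36_co.D9.C01
import Pool.Agent.Lib.MP_6f5d36_co.D9.C02
import Pool.Agent.Lib.MP_6f5d36_co.D9.C03
import Pool.Agent.Lib.MP_6f5d36_co.D9.C04
import Pool.Agent.Lib.MP_6f5d36_co.D9.C05

/-!
# MP_6f5d36_co : levels 8 and 9, search trees (generated)
-/

set_option autoImplicit false
set_option linter.all false

namespace CR

namespace D9

open L9

/-- certificates with 7 different labels -/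
noncomputable def g7_0 : List (List (ℕ × ℕ)) := [e0, e1, e2, e3, e4, e5, e6, e7, e8, e9, e10, e11, e12]

theorem g7_0_ok : AllC 7 g7_0 :=
  ⟨e0_ok, e1_ok, e2_ok, e3_ok, e4_ok, e5_ok, e6_ok, e7_ok, e8_ok, e9_ok, e10_ok, e11_ok, e12_ok, trivial⟩

/-- certificates with 8 different labels -/
noncomputable def g8_0 : List (List (ℕ × ℕ)) := [e13, e14, e15, e16, e17, e18, e19, e20]

theorem g8_0_ok : AllC 8 g8_0 :=
  ⟨e13_ok, e14_ok, e15_ok, e16_ok, e17_ok, e18_ok, e19_ok, e20_ok, trivial⟩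

theorem c4439 : chk (okd g8_0) (okd g7_0) 0xa0508651040 (wl [[20550], [], [], [], [58178], [211537]]) [
  [],
  [],
  [],
  [],
  [],
  [],
  [.siz 9],
  [],
  [],
  [],
  [.c7 0],
  [],
  [],
  [],
  [.c7 1]] = true := by
  decide +kernel

theorem c4440 : chk (okd g8_0) (okd g7_0) 0x1088e30d1040 (wl [[39622], [], [22956], [40133], [], []]) [
  [],
  [.c7 2],
  [],
  [.deg 1 0 4 6 7],
  [],
  [.c7 3],
  [],
  [],
  [],
  [],
  [],
  [],
  [],
  [],
  []] = true := by
  decide +kernel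

theorem c4441 : chk (okd g8_0) (okd g7_0) 0x108859451040 (wl [[], [84595], [119178], [], [], [217922]]) [
  [],
  [],
  [.c7 4],
  [],
  [],
  [],
  [],
  [],
  [],
  [],
  [],
  [.c7 5],
  [.c7 6],
  [],
  []] = true := by
  decide +kernel

theorem c4442 : chk (okd g8_0) (okd g7_0) 0x1174425a040 (wl [[98838], [4723], [], [15370], [], []]) [
  [.siz 8],
  [],
  [],
  [.siz 9],
  [.siz 8],
  [],
  [],
  [],
  [],
  [],
  [],
  [],
  [],
  [],
  []] = true := by
  decide +kernel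

theorem c4444 : chk (okd g8_0) (okd g7_0) 0x15171a45a040 (wl [[70174], [8819], [], [23562], [], []]) [
  [.c7 7],
  [],
  [],
  [.c7 8],
  [.c7 9],
  [],
  [],
  [],
  [],
  [],
  [],
  [],
  [],
  [],
  []] = true := by
  decide +kernel

theorem c4452 : chk (okd g8_0) (okd g7_0) 0x10c25a049000 (wl [[], [118898], [14252], [142603], [], []]) [
  [],
  [],
  [.c7 10],
  [],
  [.c7 11],
  [.c7 12],
  [],
  [],
  [],
  [],
  [],
  [],
  [],
  [],
  []] = true := by
  decide +kernel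

theorem c4454 : chk (okd g8_0) (okd g7_0) 0x1084e3091040 (wl [[], [165425], [], [], [24773], [218629]]) [
  [],
  [],
  [],
  [],
  [],
  [],
  [],
  [.siz 9],
  [],
  [],
  [],
  [.siz 9],
  [],
  [],
  [.siz 9]] = true := by
  decide +kernel

theorem c4456 : chk (okd g8_0) (okd g7_0) 0x10c4c8691040 (wl [[22286], [], [], [], [24773], [202281]]) [
  [],
  [],
  [],
  [],
  [],
  [],
  [.c7 13],
  [],
  [],
  [],
  [.c7 14],
  [],
  [],
  [],
  [.c7 15]] = true := by
  decide +kernel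

theorem c4462 : chk (okd g8_0) (okd g7_0) 0xea9194d1040 (wl [[], [], [], [36133], [59586], [214786]]) [
  [],
  [],
  [],
  [],
  [],
  [],
  [],
  [],
  [],
  [.c7 16],
  [],
  [],
  [],
  [.c7 17],
  [.c7 18]] = true := by
  decide +kernel

theorem c4464 : chk (okd g8_0) (okd g7_0) 0x10ab0245a040 (wl [[8230], [5300], [], [], [91170], []]) [
  [.apx 2 3 0 6 7],
  [],
  [],
  [],
  [],
  [],
  [.siz 8],
  [.siz 9],
  [],
  [],
  [],
  [],
  [],
  [],
  []] = true := by
  decide +kernel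

theorem c4466 : chk (okd g8_0) (okd g7_0) 0x12028a45a040 (wl [[], [100913], [], [], [59715], [217417]]) [
  [],
  [],
  [],
  [],
  [],
  [],
  [],
  [.c7 19],
  [],
  [],
  [],
  [.c7 20],
  [],
  [],
  [.c7 21]] = true := by
  decide +kernel

theorem c4467 : chk (okd g8_0) (okd g7_0) 0x8970445a040 (wl [[], [170355], [8619], [], [], [211474]]) [
  [],
  [],
  [.c7 22],
  [],
  [],
  [],
  [],
  [],
  [],
  [],
  [],
  [.c7 23],
  [.c7 24],
  [],
  []] = true := by
  decide +kernel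

theorem c4468 : chk (okd g8_0) (okd g7_0) 0xe8b22650240 (wl [[], [35701], [], [], [57571], [209604]]) [
  [],
  [],
  [],
  [],
  [],
  [],
  [],
  [.c7 25],
  [],
  [],
  [],
  [.spl,
   .c8 0,
   .apx 5 7 0 4 6,
   .c8 1,
   .c8 2,
   .c8 3,
   .deg 6 0 2 3 7],
  [],
  [],
  [.c7 26]] = true := by
  decide +kernel

theorem c4471 : chk (okd g8_0) (okd g7_0) 0xe1520651040 (wl [[], [109364], [180642], [], [], [215810]]) [
  [],
  [],
  [.c7 27],
  [],
  [],
  [],
  [],
  [],
  [],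
  [],
  [],
  [.c7 28],
  [.c7 29],
  [],
  []] = true := by
  decide +kernel

theorem c4473 : chk (okd g8_0) (okd g7_0) 0x11b0225a040 (wl [[], [4725], [], [15370], [], [217929]]) [
  [],
  [],
  [],
  [],
  [.siz 8],
  [],
  [],
  [],
  [],
  [],
  [],
  [.siz 9],
  [],
  [.deg 1 2 4 6 7],
  []] = true := by
  decide +kernel

theorem c4476 : chk (okd g8_0) (okd g7_0) 0x108119091040 (wl [[54558], [], [], [], [27217], [209745]]) [
  [],
  [],
  [],
  [],
  [],
  [],
  [.c7 30],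
  [],
  [],
  [],
  [.c7 31],
  [],
  [],
  [],
  [.c7 32]] = true := by
  decide +kernel

theorem c4478 : chk (okd g8_0) (okd g7_0) 0x16454d31a040 (wl [[17518], [], [46508], [76834], [], []]) [
  [],
  [.c7 33],
  [],
  [.c7 34],
  [],
  [.c7 35],
  [],
  [],
  [],
  [],
  [],
  [],
  [],
  [],
  []] = true := by
  decide +kernel

theorem c4479 : chk (okd g8_0) (okd g7_0) 0x149b188d0240 (wl [[39054], [], [], [113933], [189029], []]) [
  [],
  [],
  [],
  [.c7 36],
  [],
  [],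
  [.siz 9],
  [],
  [],
  [.c7 37],
  [],
  [],
  [],
  [],
  []] = true := by
  decide +kernel

theorem c4480 : chk (okd g8_0) (okd g7_0) 0x8b70445a040 (wl [[], [80243], [], [], [191235], [211474]]) [
  [],
  [],
  [],
  [],
  [],
  [],
  [],
  [.c7 38],
  [],
  [],
  [],
  [.c7 39],
  [],
  [],
  [.c7 40]] = true := by
  decide +kernel

theorem c4484 : chk (okd g8_0) (okd g7_0) 0x15214445a040 (wl [[53510], [], [140188], [], [], [209426]]) [
  [],
  [.c7 41],
  [],
  [],
  [],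
  [],
  [],
  [],
  [],
  [],
  [.c7 42],
  [],
  [.c7 43],
  [],
  []] = true := by
  decide +kernel

theorem c4486 : chk (okd g8_0) (okd g7_0) 0x6c920651000 (wl [[2190], [21681], [67970], [], [], []]) [
  [.spl,
   .siz 9,
   .c8 4,
   .apx 3 6 1 2 7,
   .c8 5,
   .c8 6,
   .c8 7],
  [.siz 9],
  [.c7 44],
  [],
  [],
  [],
  [],
  [],
  [],
  [],
  [],
  [],
  [],
  [],
  []] = true := by
  decide +kernel

theorem c4488 : chk (okd g8_0) (okd g7_0) 0x1044d80d1240 (wl [[], [119025], [18333], [], [25386], []]) [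
  [],
  [],
  [.c7 45],
  [],
  [],
  [],
  [],
  [.c7 46],
  [.c7 47],
  [],
  [],
  [],
  [],
  [],
  []] = true := by
  decide +kernel

theorem c4489 : chk (okd g8_0) (okd g7_0) 0x9c744691200 (wl [[145710], [131313], [], [], [], [215715]]) [
  [.c7 48],
  [],
  [],
  [],
  [],
  [],
  [],
  [],
  [],
  [],
  [.c7 49],
  [.c7 50],
  [],
  [],
  []] = true := by
  decide +kernel

theorem c4493 : chk (okd g8_0) (okd g7_0) 0x14d92211a040 (wl [[], [], [103827], [175265], [], [202466]]) [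
  [],
  [],
  [],
  [],
  [],
  [.c7 51],
  [],
  [],
  [],
  [],
  [],
  [],
  [.c7 52],
  [.c7 53],
  []] = true := by
  decide +kernel

theorem c4498 : chk (okd g8_0) (okd g7_0) 0x8374c690240 (wl [[101006], [50928], [], [], [], [210708]]) [
  [.c7 54],
  [],
  [],
  [],
  [],
  [],
  [],
  [],
  [],
  [],
  [.c7 55],
  [.c7 56],
  [],
  [],
  []] = true := by
  decide +kernel

theorem c4499 : chk (okd g8_0) (okd g7_0) 0x556e3091040 (wl [[2262], [], [], [72868], [], [211028]]) [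
  [],
  [],
  [],
  [.c7 57],
  [],
  [],
  [],
  [],
  [],
  [],
  [.c7 58],
  [],
  [],
  [.c7 59],
  []] = true := by
  decide +kernel

theorem c4501 : chk (okd g8_0) (okd g7_0) 0xdc50c690240 (wl [[172254], [], [103844], [], [60138], []]) [
  [],
  [.c7 60],
  [],
  [],
  [],
  [],
  [.c7 61],
  [],
  [.c7 62],
  [],
  [],
  [],
  [],
  [],
  []] = true := by
  decide +kernel

theorem c4505 : chk (okd g8_0) (okd g7_0) 0x10b4e3091040 (wl [[], [177713], [], [], [24773], [218629]]) [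
  [],
  [],
  [],
  [],
  [],
  [],
  [],
  [.c7 63],
  [],
  [],
  [],
  [.c7 64],
  [],
  [],
  [.siz 9]] = true := by
  decide +kernel

theorem c4507 : chk (okd g8_0) (okd g7_0) 0x1502e3450240 (wl [[], [152757], [168856], [], [], [205123]]) [
  [],
  [],
  [.c7 65],
  [],
  [],
  [],
  [],
  [],
  [],
  [],
  [],
  [.spl,
   .c8 8,
   .thr,
   .spl,
   .cs 8 0x86543210 9,
   .cs 8 0x86543210 10,
   .siz 7,
   .siz 5,
   .cs 8 0x86543210 11,
   .siz 6,
   .c8 12,
   .c8 13,
   .c8 14,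
   .c8 15],
  [.c7 66],
  [],
  []] = true := by
  decide +kernel

theorem c4509 : chk (okd g8_0) (okd g7_0) 0x16275c651000 (wl [[172390], [79732], [], [134378], [], []]) [
  [.c7 67],
  [],
  [],
  [.c7 68],
  [.c7 69],
  [],
  [],
  [],
  [],
  [],
  [],
  [],
  [],
  [],
  []] = true := by
  decide +kernel

theorem c4512 : chk (okd g8_0) (okd g7_0) 0x45684651200 (wl [[], [55092], [], [], [124044], [213770]]) [
  [],
  [],
  [],
  [],
  [],
  [],
  [],
  [.c7 70],
  [],
  [],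
  [],
  [.c7 71],
  [],
  [],
  [.c7 72]] = true := by
  decide +kernel

theorem c4516 : chk (okd g8_0) (okd g7_0) 0xb96211a040 (wl [[120086], [], [5523], [11425], [], []]) [
  [],
  [.apx 1 3 0 6 7],
  [],
  [.c7 73],
  [],
  [.c7 74],
  [],
  [],
  [],
  [],
  [],
  [],
  [],
  [],
  []] = true := by
  decide +kernel

theorem c4518 : chk (okd g8_0) (okd g7_0) 0xaaaec690240 (wl [[], [], [42900], [72941], [58457], []]) [
  [],
  [],
  [],
  [],
  [],
  [.c7 75],
  [],
  [],
  [.c7 76],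
  [.c7 77],
  [],
  [],
  [],
  [],
  []] = true := by
  decide +kernel

theorem c4519 : chk (okd g8_0) (okd g7_0) 0x1458ec650240 (wl [[], [], [], [48474], [125259], [211484]]) [
  [],
  [],
  [],
  [],
  [],
  [],
  [],
  [],
  [],
  [.c7 78],
  [],
  [],
  [],
  [.c7 79],
  [.c7 80]] = true := by
  decide +kernel

theorem c4521 : chk (okd g8_0) (okd g7_0) 0x2a954651200 (wl [[2382], [152753], [], [73044], [], []]) [
  [.c7 81],
  [],
  [],
  [.c7 82],
  [.c7 83],
  [],
  [],
  [],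
  [],
  [],
  [],
  [],
  [],
  [],
  []] = true := by
  decide +kernel

theorem c4522 : chk (okd g8_0) (okd g7_0) 0x2296c651200 (wl [[1358], [88756], [], [73002], [], []]) [
  [.c7 84],
  [],
  [],
  [.c7 85],
  [.spl,
   .c8 16,
   .c8 17,
   .c8 18,
   .c8 19,
   .c8 20,
   .c8 21],
  [],
  [],
  [],
  [],
  [],
  [],
  [],
  [],
  [],
  []] = true := by
  decide +kernel

theorem c4524 : chk (okd g8_0) (okd g7_0) 0x2a954651000 (wl [[2382], [152753], [], [73044], [], []]) [
  [.c7 86],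
  [],
  [],
  [.c7 87],
  [.c7 88],
  [],
  [],
  [],
  [],
  [],
  [],
  [],
  [],
  [],
  []] = true := by
  decide +kernel

theorem c4525 : chk (okd g8_0) (okd g7_0) 0xd58cc8d1000 (wl [[165214], [], [], [], [157201], [214594]]) [
  [],
  [],
  [],
  [],
  [],
  [],
  [.c7 89],
  [],
  [],
  [],
  [.c7 90],
  [],
  [],
  [],
  [.c7 91]] = true := by
  decide +kernel

theorem c4527 : chk (okd g8_0) (okd g7_0) 0x22adc651200 (wl [[], [137457], [916], [40035], [], []]) [
  [],
  [],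
  [.c7 92],
  [],
  [.spl,
   .c8 22,
   .siz 9,
   .c8 23,
   .c8 24,
   .c8 25,
   .c8 26],
  [.c7 93],
  [],
  [],
  [],
  [],
  [],
  [],
  [],
  [],
  []] = true := by
  decide +kernel

theorem c4529 : chk (okd g8_0) (okd g7_0) 0x6aae3448000 (wl [[], [], [], [44116], [191066], [217946]]) [
  [],
  [],
  [],
  [],
  [],
  [],
  [],
  [],
  [],
  [.c7 94],
  [],
  [],
  [],
  [.c7 95],
  [.c7 96]] = true := by
  decide +kernel

theorem c4531 : chk (okd g8_0) (okd g7_0) 0xa9763448000 (wl [[], [], [], [40097], [191115], [218443]]) [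
  [],
  [],
  [],
  [],
  [],
  [],
  [],
  [],
  [],
  [.c7 97],
  [],
  [],
  [],
  [.c7 98],
  [.c7 99]] = true := by
  decide +kernel

theorem c4533 : chk (okd g8_0) (okd g7_0) 0x25312651200 (wl [[43790], [181617], [], [], [189130], []]) [
  [.c7 100],
  [],
  [],
  [],
  [],
  [],
  [.deg 1 3 5 6 7],
  [.c7 101],
  [],
  [],
  [],
  [],
  [],
  [],
  []] = true := by
  decide +kernel

theorem c4536 : chk (okd g8_0) (okd g7_0) 0x14476069a240 (wl [[34470], [], [], [], [57472], [201744]]) [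
  [],
  [],
  [],
  [],
  [],
  [],
  [.spl,
   .siz 9,
   .c8 27,
   .apx 2 6 3 4 7,
   .c8 28,
   .c8 29,
   .c8 30],
  [],
  [],
  [],
  [.spl,
   .apx 2 6 3 4 7,
   .c8 31,
   .c8 32,
   .thr,
   .siz 9,
   .apx 1 7 0 3 6,
   .c8 33],
  [],
  [],
  [],
  [.siz 9]] = true := by
  decide +kernel

theorem c4537 : chk (okd g8_0) (okd g7_0) 0x14270489a240 (wl [[], [], [], [146465], [57472], [209665]]) [
  [],
  [],
  [],
  [],
  [],
  [],
  [],
  [],
  [],
  [.c7 102],
  [],
  [],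
  [],
  [.c7 103],
  [.c7 104]] = true := by
  decide +kernel

theorem c4539 : chk (okd g8_0) (okd g7_0) 0x5d50c690240 (wl [[172390], [], [38309], [40075], [], []]) [
  [],
  [.c7 105],
  [],
  [.c7 106],
  [],
  [.siz 9],
  [],
  [],
  [],
  [],
  [],
  [],
  [],
  [],
  []] = true := by
  decide +kernel

theorem c4540 : chk (okd g8_0) (okd g7_0) 0x15969c45a200 (wl [[], [], [22924], [117858], [], [215692]]) [
  [],
  [],
  [],
  [],
  [],
  [.c7 107],
  [],
  [],
  [],
  [],
  [],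
  [],
  [.c7 108],
  [.spl,
   .c8 34,
   .c8 35,
   .c8 36,
   .c8 37,
   .thr,
   .spl,
   .siz 5,
   .cs 8 0x86543210 38,
   .cs 8 0x86543210 39,
   .cs 8 0x86543210 40,
   .siz 9,
   .siz 4,
   .c8 41],
  []] = true := by
  decide +kernel

theorem c4543 : chk (okd g8_0) (okd g7_0) 0x161b12651200 (wl [[], [4337], [176538], [], [90826], []]) [
  [],
  [],
  [.c7 109],
  [],
  [],
  [],
  [],
  [.spl,
   .c8 42,
   .siz 9,
   .c8 43,
   .thr,
   .siz 6,
   .c8 44,
   .c8 45],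
  [.c7 110],
  [],
  [],
  [],
  [],
  [],
  []] = true := by
  decide +kernel

theorem c4544 : chk (okd g8_0) (okd g7_0) 0x25312651000 (wl [[43790], [181617], [], [], [189130], []]) [
  [.c7 111],
  [],
  [],
  [],
  [],
  [],
  [.deg 1 3 5 6 7],
  [.c7 112],
  [],
  [],
  [],
  [],
  [],
  [],
  []] = true := by
  decide +kernel

theorem c4545 : chk (okd g8_0) (okd g7_0) 0x162b12651000 (wl [[11022], [17777], [176538], [], [], []]) [
  [.c7 113],
  [.c7 114],
  [.c7 115],
  [],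
  [],
  [],
  [],
  [],
  [],
  [],
  [],
  [],
  [],
  [],
  []] = true := by
  decide +kernel

theorem c4547 : chk (okd g8_0) (okd g7_0) 0x14ae3448000 (wl [[], [], [71065], [179434], [125530], []]) [
  [],
  [],
  [],
  [],
  [],
  [.c7 116],
  [],
  [],
  [.c7 117],
  [.c7 118],
  [],
  [],
  [],
  [],
  []] = true := by
  decide +kernel

theorem c4548 : chk (okd g8_0) (okd g7_0) 0xe1754651200 (wl [[111758], [], [4513], [48156], [], []]) [
  [],
  [.c7 119],
  [],
  [.deg 4 1 5 6 7],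
  [],
  [.c7 120],
  [],
  [],
  [],
  [],
  [],
  [],
  [],
  [],
  []] = true := by
  decide +kernel

theorem c4550 : chk (okd g8_0) (okd g7_0) 0x10474c4d1000 (wl [[108758], [], [164261], [113820], [], []]) [
  [],
  [.spl,
   .c8 46,
   .thr,
   .apx 1 4 3 6 8,
   .c8 47,
   .apx 5 7 0 3 6,
   .apx 1 6 4 5 7,
   .c8 48],
  [],
  [.apx 1 4 3 6 7],
  [],
  [.c7 121],
  [],
  [],
  [],
  [],
  [],
  [],
  [],
  [],
  []] = true := by
  decide +kernel

theorem c4552 : chk (okd g8_0) (okd g7_0) 0xe1754651000 (wl [[111750], [], [4513], [15388], [], []]) [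
  [],
  [.c7 122],
  [],
  [.deg 4 1 5 6 7],
  [],
  [.c7 123],
  [],
  [],
  [],
  [],
  [],
  [],
  [],
  [],
  []] = true := by
  decide +kernel

theorem c4554 : chk (okd g8_0) (okd g7_0) 0x11c54c691200 (wl [[135470], [8434], [], [52483], [], []]) [
  [.c7 124],
  [],
  [],
  [.deg 2 4 5 6 7],
  [.c7 125],
  [],
  [],
  [],
  [],
  [],
  [],
  [],
  [],
  [],
  []] = true := by
  decide +kernel

theorem c4555 : chk (okd g8_0) (okd g7_0) 0x1044ec651000 (wl [[8390], [], [], [68948], [157482], []]) [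
  [],
  [],
  [],
  [.siz 9],
  [],
  [],
  [.c7 126],
  [],
  [],
  [.c7 127],
  [],
  [],
  [],
  [],
  []] = true := by
  decide +kernel

theorem c4556 : chk (okd g8_0) (okd g7_0) 0xa332c651000 (wl [[], [], [], [76899], [191042], [215569]]) [
  [],
  [],
  [],
  [],
  [],
  [],
  [],
  [],
  [],
  [.spl,
   .c8 49,
   .c8 50,
   .c8 51,
   .c8 52,
   .thr,
   .siz 6,
   .c8 53],
  [],
  [],
  [],
  [.spl,
   .c8 54,
   .c8 55,
   .apx 4 7 0 3 6,
   .c8 56,
   .c8 57,
   .thr,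
   .siz 5],
  [.spl,
   .c8 58,
   .c8 59,
   .c8 60,
   .c8 61,
   .c8 62,
   .thr,
   .siz 5]] = true := by
  decide +kernel

theorem c4558 : chk (okd g8_0) (okd g7_0) 0x10a44425a040 (wl [[], [], [140202, 72101], [76908], [], [207619]]) [
  [],
  [],
  [],
  [],
  [],
  [.c7 128,
   .deg 5 1 2 6 7],
  [],
  [],
  [],
  [],
  [],
  [],
  [.c7 129,
   .c7 130],
  [.c7 131],
  []] = true := by
  decide +kernel

theorem c4561 : chk (okd g8_0) (okd g7_0) 0xcd70345a040 (wl [[103622], [], [12683], [], [], [205507]]) [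
  [],
  [.c7 132],
  [],
  [],
  [],
  [],
  [],
  [],
  [],
  [],
  [.deg 2 3 4 6 7],
  [],
  [.c7 133],
  [],
  []] = true := by
  decide +kernel

theorem c4563 : chk (okd g8_0) (okd g7_0) 0x44519091040 (wl [[174694], [], [], [7300], [], [209745]]) [
  [],
  [],
  [],
  [.spl,
   .c8 63,
   .c8 64,
   .c8 65,
   .c8 66,
   .thr,
   .spl,
   .siz 8,
   .siz 9,
   .siz 7,
   .cs 8 0x86543210 67,
   .siz 6,
   .cs 8 0x86543210 68,
   .apx 3 7 2 5 6],
  [],
  [],
  [],
  [],
  [],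
  [],
  [.c7 134],
  [],
  [],
  [.c7 135],
  []] = true := by
  decide +kernel

theorem c4567 : chk (okd g8_0) (okd g7_0) 0x10c099451040 (wl [[170022], [118897], [52107], [], [], []]) [
  [.c7 136],
  [.c7 137],
  [.siz 9],
  [],
  [],
  [],
  [],
  [],
  [],
  [],
  [],
  [],
  [],
  [],
  []] = true := by
  decide +kernel

theorem c4569 : chk (okd g8_0) (okd g7_0) 0x158163091040 (wl [[], [], [], [11347], [26707, 91165], [213779]]) [
  [],
  [],
  [],
  [],
  [],
  [],
  [],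
  [],
  [],
  [.deg 5 1 2 6 7,
   .c7 138],
  [],
  [],
  [],
  [.c7 139],
  [.c7 140,
   .c7 141]] = true := by
  decide +kernel

theorem c4570 : chk (okd g8_0) (okd g7_0) 0x10311a091040 (wl [[], [], [86428], [], [25427], [207443]]) [
  [],
  [],
  [],
  [],
  [],
  [],
  [],
  [],
  [.c7 142],
  [],
  [],
  [],
  [.c7 143],
  [],
  [.c7 144]] = true := by
  decide +kernel

theorem c4572 : chk (okd g8_0) (okd g7_0) 0x10c4e3091040 (wl [[], [181809], [], [138588], [188649], []]) [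
  [],
  [],
  [],
  [],
  [.c7 145],
  [],
  [],
  [.c7 146],
  [],
  [.c7 147],
  [],
  [],
  [],
  [],
  []] = true := by
  decide +kernel

theorem c4573 : chk (okd g8_0) (okd g7_0) 0x618e0691040 (wl [[70470], [153201], [], [], [], [206987, 218629]]) [
  [.c7 148],
  [],
  [],
  [],
  [],
  [],
  [],
  [],
  [],
  [],
  [.c7 149,
   .c7 150],
  [.c7 151,
   .c7 152],
  [],
  [],
  []] = true := by
  decide +kernel

theorem c4574 : chk (okd g8_0) (okd g7_0) 0xa22e0691040 (wl [[], [136753], [51074], [], [], [214242]]) [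
  [],
  [],
  [.c7 153],
  [],
  [],
  [],
  [],
  [],
  [],
  [],
  [],
  [.c7 154],
  [.c7 155],
  [],
  []] = true := by
  decide +kernel

theorem c4575 : chk (okd g8_0) (okd g7_0) 0x5c71211a240 (wl [[], [146035], [], [], [156000], [218898]]) [
  [],
  [],
  [],
  [],
  [],
  [],
  [],
  [.deg 5 0 2 6 7],
  [],
  [],
  [],
  [.c7 156],
  [],
  [],
  [.c7 157]] = true := by
  decide +kernel

theorem c4576 : chk (okd g8_0) (okd g7_0) 0x1138a0691040 (wl [[], [], [182146], [154898], [], [218629]]) [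
  [],
  [],
  [],
  [],
  [],
  [.deg 0 4 5 6 7],
  [],
  [],
  [],
  [],
  [],
  [],
  [.c7 158],
  [.c7 159],
  []] = true := by
  decide +kernel

theorem c4579 : chk (okd g8_0) (okd g7_0) 0x93aec6d0240 (wl [[], [], [42908], [72917], [57997], []]) [
  [],
  [],
  [],
  [],
  [],
  [.c7 160],
  [],
  [],
  [.c7 161],
  [.c7 162],
  [],
  [],
  [],
  [],
  []] = true := by
  decide +kernel

theorem c4580 : chk (okd g8_0) (okd g7_0) 0x1455200d1240 (wl [[41166], [141940], [], [], [57864, 25434], []]) [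
  [.c7 163],
  [],
  [],
  [],
  [],
  [],
  [.siz 8,
   .c7 164],
  [.c7 165,
   .c7 166],
  [],
  [],
  [],
  [],
  [],
  [],
  []] = true := by
  decide +kernel

theorem c4582 : chk (okd g8_0) (okd g7_0) 0x9cb046d1240 (wl [[32982], [4850, 131378], [], [], [], [205505]]) [
  [.c7 167,
   .spl,
   .apx 4 7 2 3 6,
   .c8 69,
   .c8 70,
   .c8 71,
   .c8 72,
   .c8 73],
  [],
  [],
  [],
  [],
  [],
  [],
  [],
  [],
  [],
  [.c7 168],
  [.deg 3 0 1 6 7,
   .c7 169],
  [],
  [],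
  []] = true := by
  decide +kernel

theorem c4583 : chk (okd g8_0) (okd g7_0) 0x6a96531a040 (wl [[170766, 108334], [38193], [37802], [], [], []]) [
  [.deg 4 1 5 6 7,
   .c7 170],
  [.deg 4 1 5 6 7,
   .c7 171],
  [.siz 9],
  [],
  [],
  [],
  [],
  [],
  [],
  [],
  [],
  [],
  [],
  [],
  []] = true := by
  decide +kernel

theorem c4584 : chk (okd g8_0) (okd g7_0) 0x1622e3451000 (wl [[], [], [], [187482], [157250], [214545]]) [
  [],
  [],
  [],
  [],
  [],
  [],
  [],
  [],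
  [],
  [.spl,
   .c8 74,
   .c8 75,
   .c8 76,
   .c8 77,
   .thr,
   .siz 5,
   .c8 78],
  [],
  [],
  [],
  [.spl,
   .c8 79,
   .c8 80,
   .c8 81,
   .c8 82,
   .thr,
   .siz 5,
   .apx 4 7 0 1 6],
  [.spl,
   .c8 83,
   .c8 84,
   .c8 85,
   .thr,
   .siz 6,
   .c8 86,
   .c8 87]] = true := by
  decide +kernel

theorem c4586 : chk (okd g8_0) (okd g7_0) 0x2572069a240 (wl [[], [], [84363], [], [58643], [201744, 202915]]) [
  [],
  [],
  [],
  [],
  [],
  [],
  [],
  [],
  [.c7 172],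
  [],
  [],
  [],
  [.c7 173,
   .deg 3 4 5 6 7],
  [],
  [.spl,
   .c8 88,
   .c8 89,
   .apx 1 7 0 3 6,
   .c8 90,
   .c8 91,
   .c8 92,
   .c7 174]] = true := by
  decide +kernel

theorem c4587 : chk (okd g8_0) (okd g7_0) 0x8d36c65a040 (wl [[116910], [119089, 74547], [], [150787], [], []]) [
  [.spl,
   .c8 93,
   .c8 94,
   .siz 4,
   .thr,
   .siz 5,
   .apx 4 7 0 2 6,
   .c8 95,
   .c7 175],
  [],
  [],
  [.c7 176],
  [.c7 177,
   .c7 178],
  [],
  [],
  [],
  [],
  [],
  [],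
  [],
  [],
  [],
  []] = true := by
  decide +kernel

theorem c4588 : chk (okd g8_0) (okd g7_0) 0x1458dc650240 (wl [[], [], [], [48474, 171371], [125131], [211484]]) [
  [],
  [],
  [],
  [],
  [],
  [],
  [],
  [],
  [],
  [.c7 179,
   .c7 180],
  [],
  [],
  [],
  [.deg 4 1 3 6 7,
   .c7 181],
  [.c7 182]] = true := by
  decide +kernel

theorem c4590 : chk (okd g8_0) (okd g7_0) 0x1ab23250240 (wl [[1310], [84147, 69939], [], [], [], [210149]]) [
  [.spl,
   .c8 96,
   .c8 97,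
   .apx 3 7 2 4 6,
   .c8 98,
   .c8 99,
   .c8 100,
   .c7 183],
  [],
  [],
  [],
  [],
  [],
  [],
  [],
  [],
  [],
  [.c7 184],
  [.c7 185,
   .c7 186],
  [],
  [],
  []] = true := by
  decide +kernel

theorem c4593 : chk (okd g8_0) (okd g7_0) 0x12869c45a240 (wl [[], [], [34688], [], [58384, 60075], [209024]]) [
  [],
  [],
  [],
  [],
  [],
  [],
  [],
  [],
  [.deg 0 1 2 6 7,
   .c7 187],
  [],
  [],
  [],
  [.siz 9],
  [],
  [.deg 0 1 2 6 7,
   .c7 188]] = true := by
  decide +kernel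

theorem c4594 : chk (okd g8_0) (okd g7_0) 0x15a2e3451000 (wl [[], [], [], [187482], [157250], [210449]]) [
  [],
  [],
  [],
  [],
  [],
  [],
  [],
  [],
  [],
  [.spl,
   .c8 101,
   .c8 102,
   .c8 103,
   .thr,
   .siz 6,
   .c8 104,
   .c8 105],
  [],
  [],
  [],
  [.spl,
   .c8 106,
   .c8 107,
   .c8 108,
   .c8 109,
   .thr,
   .siz 6,
   .apx 4 7 0 1 6],
  [.spl,
   .c8 110,
   .c8 111,
   .c8 112,
   .thr,
   .siz 6,
   .c8 113,
   .c8 114]] = true := by
  decide +kernel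

theorem c4596 : chk (okd g8_0) (okd g7_0) 0x44698451000 (wl [[], [2931], [], [], [191185], [214149, 213093]]) [
  [],
  [],
  [],
  [],
  [],
  [],
  [],
  [.c7 189],
  [],
  [],
  [],
  [.siz 9,
   .siz 9],
  [],
  [],
  [.c7 190,
   .c7 191]] = true := by
  decide +kernel

theorem c4598 : chk (okd g8_0) (okd g7_0) 0x2275c2d1000 (wl [[107654, 137422], [], [930], [7260], [], []]) [
  [],
  [.c7 192,
   .c7 193],
  [],
  [.c7 194,
   .spl,
   .c8 115,
   .c8 116,
   .c8 117,
   .c8 118,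
   .c8 119,
   .c8 120],
  [],
  [.c7 195],
  [],
  [],
  [],
  [],
  [],
  [],
  [],
  [],
  []] = true := by
  decide +kernel

end D9

end CR
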