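import Pool.Agent.Lib.MP_6f5d36_co.Level9Cert
import Pool.Agent.Lib.MP_6f5d36_co.D9.C05
import Pool.Agent.Lib.MP_6f5d36_co.D9.C06
import Pool.Agent.Lib.MP_6f5d36_co.D9.C07
import Pool.Agent.Lib.MP_6f5d36_co.D9.C08
import Pool.Agent.Lib.MP_6f5d36_co.D9.C09
import Pool.Agent.Lib.MP_6f5d36_co.D9.C10

/-!
# MP_6f5d36_co : levels 8 and 9, search trees (generated)
-/

set_option autoImplicit false
set_option linter.all false

namespace CR

namespace D9

open L9

/-- certificates with 7 different labels -/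
noncomputable def g7_1 : List (List (ℕ × ℕ)) := [e21, e22, e23, e24, e25, e26, e27, e28, e29, e30]

theorem g7_1_ok : AllC 7 g7_1 :=
  ⟨e21_ok, e22_ok, e23_ok, e24_ok, e25_ok, e26_ok, e27_ok, e28_ok, e29_ok, e30_ok, trivial⟩

/-- certificates with 8 different labels -/
noncomputable def g8_1 : List (List (ℕ × ℕ)) := [e31, e32, e33, e34, e35, e36, e37, e38, e39, e40, e41]

theorem g8_1_ok : AllC 8 g8_1 :=
  ⟨e31_ok, e32_ok, e33_ok, e34_ok, e35_ok, e36_ok, e37_ok, e38_ok, e39_ok, e40_ok, e41_ok, trivial⟩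

theorem c4600 : chk (okd g8_1) (okd g7_1) 0x6cae2690240 (wl [[38038, 68262], [11124], [], [3305], [], []]) [
  [.c7 0,
   .c7 1],
  [],
  [],
  [.c7 2,
   .c7 3],
  [.c7 4],
  [],
  [],
  [],
  [],
  [],
  [],
  [],
  [],
  [],
  []] = true := by
  decide +kernel

theorem c4601 : chk (okd g8_1) (okd g7_1) 0x125ae2688000 (wl [[], [], [], [11490, 167148], [124259], [211612]]) [
  [],
  [],
  [],
  [],
  [],
  [],
  [],
  [],
  [],
  [.spl,
   .apx 5 7 0 2 6,
   .c8 0,
   .c8 1,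
   .c8 2,
   .thr,
   .siz 6,
   .c8 3,
   .spl,
   .c8 4,
   .c8 5,
   .c8 6,
   .c8 7,
   .c8 8,
   .apx 5 7 0 2 6],
  [],
  [],
  [],
  [.spl,
   .c8 9,
   .c8 10,
   .apx 4 7 1 2 6,
   .c8 11,
   .c8 12,
   .c8 13,
   .spl,
   .apx 4 7 1 2 6,
   .c8 14,
   .c8 15,
   .c8 16,
   .thr,
   .siz 6,
   .c8 17],
  [.c7 5]] = true := by
  decide +kernel

theorem c4602 : chk (okd g8_1) (okd g7_1) 0x65684652240 (wl [[], [5297, 11124], [], [], [25353], [205409]]) [
  [],
  [],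
  [],
  [],
  [],
  [],
  [],
  [.siz 9,
   .c7 6],
  [],
  [],
  [],
  [.siz 9,
   .c7 7],
  [],
  [],
  [.siz 9]] = true := by
  decide +kernel

theorem c4603 : chk (okd g8_1) (okd g7_1) 0x1422e3451000 (wl [[], [], [], [187482], [157250], [198161]]) [
  [],
  [],
  [],
  [],
  [],
  [],
  [],
  [],
  [],
  [.spl,
   .thr,
   .siz 9,
   .c8 18,
   .c8 19,
   .c8 20,
   .c8 21,
   .c8 22],
  [],
  [],
  [],
  [.spl,
   .c8 23,
   .c8 24,
   .c8 25,
   .c8 26,
   .thr,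
   .spl,
   .siz 9,
   .cs 8 0x86543210 27,
   .cs 8 0x86543210 28,
   .siz 6,
   .cs 8 0x86543210 29,
   .cs 8 0x86543210 30,
   .apx 4 7 0 1 6],
  [.spl,
   .siz 9,
   .c8 31,
   .c8 32,
   .thr,
   .siz 6,
   .c8 33,
   .c8 34]] = true := by
  decide +kernel

theorem c4605 : chk (okd g8_1) (okd g7_1) 0x16572069a240 (wl [[], [], [84363], [], [58643], [201744, 202915]]) [
  [],
  [],
  [],
  [],
  [],
  [],
  [],
  [],
  [.c7 8],
  [],
  [],
  [],
  [.c7 9,
   .deg 3 4 5 6 7],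
  [],
  [.spl,
   .c8 35,
   .c8 36,
   .apx 1 7 0 3 6,
   .c8 37,
   .c8 38,
   .c8 39,
   .c7 10]] = true := by
  decide +kernel

theorem c4607 : chk (okd g8_1) (okd g7_1) 0x998d4651200 (wl [[76118], [], [], [80924], [25165], []]) [
  [],
  [],
  [],
  [.spl,
   .c8 40,
   .c8 41,
   .deg 6 1 4 5 7,
   .c8 42,
   .c8 43,
   .c8 44],
  [],
  [],
  [.c7 11],
  [],
  [],
  [.spl,
   .c8 45,
   .deg 7 1 2 3 6,
   .c8 46,
   .c8 47,
   .c8 48,
   .c8 49],
  [],
  [],
  [],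
  [],
  []] = true := by
  decide +kernel

theorem c4608 : chk (okd g8_1) (okd g7_1) 0x6350c691200 (wl [[38510], [], [], [52483], [25741], []]) [
  [],
  [],
  [],
  [.spl,
   .c8 50,
   .siz 9,
   .c8 51,
   .c8 52,
   .c8 53,
   .c8 54],
  [],
  [],
  [.c7 12],
  [],
  [],
  [.spl,
   .c8 55,
   .c8 56,
   .apx 2 6 1 4 7,
   .c8 57,
   .c8 58,
   .c8 59],
  [],
  [],
  [],
  [],
  []] = true := by
  decide +kernel

theorem c4609 : chk (okd g8_1) (okd g7_1) 0x998d4651000 (wl [[76118], [], [], [80924], [25101], []]) [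
  [],
  [],
  [],
  [.spl,
   .c8 60,
   .c8 61,
   .deg 6 1 4 5 7,
   .c8 62,
   .c8 63,
   .c8 64],
  [],
  [],
  [.c7 13],
  [],
  [],
  [.deg 2 0 1 6 7],
  [],
  [],
  [],
  [],
  []] = true := by
  decide +kernel

theorem c4610 : chk (okd g8_1) (okd g7_1) 0xdd319448000 (wl [[], [], [], [11347, 134236], [58635], [202905]]) [
  [],
  [],
  [],
  [],
  [],
  [],
  [],
  [],
  [],
  [.c7 14,
   .c7 15],
  [],
  [],
  [],
  [.c7 16,
   .c7 17],
  [.c7 18]] = true := by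
  decide +kernel

theorem c4611 : chk (okd g8_1) (okd g7_1) 0x123ae1688000 (wl [[], [], [], [11490, 167148], [124259], [211612]]) [
  [],
  [],
  [],
  [],
  [],
  [],
  [],
  [],
  [],
  [.c7 19,
   .c7 20],
  [],
  [],
  [],
  [.c7 21,
   .c7 22],
  [.c7 23]] = true := by
  decide +kernel

theorem c4612 : chk (okd g8_1) (okd g7_1) 0x25898451000 (wl [[], [], [104833, 105345], [], [58501], [207443]]) [
  [],
  [],
  [],
  [],
  [],
  [],
  [],
  [],
  [.deg 1 0 2 6 7,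
   .deg 1 0 2 6 7],
  [],
  [],
  [],
  [.c7 24,
   .c7 25],
  [],
  [.c7 26]] = true := by
  decide +kernel

theorem c4614 : chk (okd g8_1) (okd g7_1) 0x14c912651000 (wl [[], [69873], [111002], [], [58946, 189130], []]) [
  [],
  [],
  [.c7 27],
  [],
  [],
  [],
  [],
  [.c7 28,
   .c7 29],
  [.c7 30,
   .c7 31],
  [],
  [],
  [],
  [],
  [],
  []] = true := by
  decide +kernel

theorem c4615 : chk (okd g8_1) (okd g7_1) 0x2c8e1691200 (wl [[], [38448], [], [146713, 105571], [], [217292]]) [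
  [],
  [],
  [],
  [],
  [.c7 32,
   .spl,
   .c8 65,
   .apx 2 6 0 4 7,
   .thr,
   .spl,
   .siz 8,
   .siz 9,
   .cs 8 0x86543210 66,
   .siz 7,
   .siz 6,
   .cs 8 0x86543210 67,
   .c8 68,
   .apx 1 6 0 2 7,
   .c8 69],
  [],
  [],
  [],
  [],
  [],
  [],
  [.c7 33],
  [],
  [.c7 34,
   .c7 35],
  []] = true := by
  decide +kernel

theorem c4617 : chk (okd g8_1) (okd g7_1) 0x1446d8451000 (wl [[185478], [142131], [], [], [], [210498]]) [
  [.c7 36],
  [],
  [],
  [],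
  [],
  [],
  [],
  [],
  [],
  [],
  [.deg 1 0 2 6 7],
  [.c7 37],
  [],
  [],
  []] = true := by
  decide +kernel

theorem c4618 : chk (okd g8_1) (okd g7_1) 0x12cacc6d1000 (wl [[], [], [165292], [], [59409, 191060], [209756]]) [
  [],
  [],
  [],
  [],
  [],
  [],
  [],
  [],
  [.c7 38,
   .deg 5 1 3 6 7],
  [],
  [],
  [],
  [.c7 39],
  [],
  [.c7 40,
   .c7 41]] = true := by
  decide +kernel

theorem c4619 : chk (okd g8_1) (okd g7_1) 0x154912651000 (wl [[51870], [], [45466], [], [91714], []]) [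
  [],
  [.spl,
   .c8 70,
   .c8 71,
   .c8 72,
   .apx 4 6 1 2 7,
   .c8 73,
   .c8 74],
  [],
  [],
  [],
  [],
  [.c7 42],
  [],
  [.c7 43],
  [],
  [],
  [],
  [],
  [],
  []] = true := by
  decide +kernel

theorem c4620 : chk (okd g8_1) (okd g7_1) 0x14d898451000 (wl [[], [], [], [187716], [90394], [213706, 206931]]) [
  [],
  [],
  [],
  [],
  [],
  [],
  [],
  [],
  [],
  [.c7 44],
  [],
  [],
  [],
  [.c7 45,
   .c7 46],
  [.c7 47,
   .c7 48]] = true := by
  decide +kernel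

theorem c4621 : chk (okd g8_1) (okd g7_1) 0x144718451000 (wl [[185478], [142131], [], [], [], [210498]]) [
  [.c7 49],
  [],
  [],
  [],
  [],
  [],
  [],
  [],
  [],
  [],
  [.deg 1 0 2 6 7],
  [.c7 50],
  [],
  [],
  []] = true := by
  decide +kernel

theorem c4622 : chk (okd g8_1) (okd g7_1) 0x1416a3448000 (wl [[], [], [103833], [187531, 44116], [91914], []]) [
  [],
  [],
  [],
  [],
  [],
  [.spl,
   .c8 75,
   .c8 76,
   .c8 77,
   .c8 78,
   .c8 79,
   .c8 80,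
   .c7 51],
  [],
  [],
  [.c7 52],
  [.c7 53,
   .c7 54],
  [],
  [],
  [],
  [],
  []] = true := by
  decide +kernel

theorem c4623 : chk (okd g8_1) (okd g7_1) 0x69511688000 (wl [[], [], [13721, 132492], [], [92369], [206602]]) [
  [],
  [],
  [],
  [],
  [],
  [],
  [],
  [],
  [.c7 55,
   .c7 56],
  [],
  [],
  [],
  [.c7 57,
   .c7 58],
  [],
  [.c7 59]] = true := by
  decide +kernel

theorem c4624 : chk (okd g8_1) (okd g7_1) 0x12bb0d8d1000 (wl [[], [], [], [150813], [58897], [218690]]) [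
  [],
  [],
  [],
  [],
  [],
  [],
  [],
  [],
  [],
  [.spl,
   .c8 81,
   .c8 82,
   .c8 83,
   .c8 84,
   .deg 6 2 4 5 7,
   .thr,
   .siz 5],
  [],
  [],
  [],
  [.spl,
   .c8 85,
   .thr,
   .siz 5,
   .c8 86,
   .c8 87,
   .deg 6 2 4 5 7,
   .c8 88],
  [.spl,
   .apx 2 7 1 4 6,
   .c8 89,
   .c8 90,
   .thr,
   .siz 5,
   .c8 91,
   .c8 92]] = true := by
  decide +kernel

theorem c4625 : chk (okd g8_1) (okd g7_1) 0x12b112651000 (wl [[14430, 104678], [41139], [], [], [], [205859]]) [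
  [.c7 60,
   .c7 61],
  [],
  [],
  [],
  [],
  [],
  [],
  [],
  [],
  [],
  [.c7 62,
   .spl,
   .c8 93,
   .c8 94,
   .c8 95,
   .apx 2 7 3 4 6,
   .thr,
   .siz 6,
   .c8 96],
  [.deg 4 2 3 6 7],
  [],
  [],
  []] = true := by
  decide +kernel

theorem c4630 : chk (okd g8_1) (okd g7_1) 0xeb503289000 (wl [[32902], [], [], [7499], [], [219777, 210153]]) [
  [],
  [],
  [],
  [.siz 9],
  [],
  [],
  [],
  [],
  [],
  [],
  [.siz 9,
   .c7 63],
  [],
  [],
  [.c7 64,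
   .c7 65],
  []] = true := by
  decide +kernel

theorem c4631 : chk (okd g8_1) (okd g7_1) 0xc429a049000 (wl [[], [], [], [101716], [156953, 190625], [213514]]) [
  [],
  [],
  [],
  [],
  [],
  [],
  [],
  [],
  [],
  [.c7 66,
   .c7 67],
  [],
  [],
  [],
  [.c7 68],
  [.c7 69,
   .apx 1 3 0 6 7]] = true := by
  decide +kernel

theorem c4633 : chk (okd g8_1) (okd g7_1) 0x11475c4d1000 (wl [[119110], [14003, 184565], [147861], [], [], []]) [
  [.c7 70,
   .c7 71],
  [.c7 72],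
  [.c7 73,
   .apx 4 5 2 6 7],
  [],
  [],
  [],
  [],
  [],
  [],
  [],
  [],
  [],
  [],
  [],
  []] = true := by
  decide +kernel

theorem c4636 : chk (okd g8_1) (okd g7_1) 0x16b304651200 (wl [[], [], [], [187491, 146652], [157268], [201889]]) [
  [],
  [],
  [],
  [],
  [],
  [],
  [],
  [],
  [],
  [.c7 74,
   .spl,
   .c8 97,
   .c8 98,
   .c8 99,
   .deg 6 1 2 4 7,
   .apx 5 6 0 2 7,
   .c8 100],
  [],
  [],
  [],
  [.c7 75,
   .spl,
   .c8 101,
   .c8 102,
   .c8 103,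
   .deg 6 1 2 4 7,
   .c8 104,
   .thr,
   .spl,
   .cs 8 0x86543210 105,
   .cs 8 0x86543210 106,
   .cs 8 0x86543210 107,
   .siz 7,
   .apx 5 6 0 2 8,
   .siz 4],
  [.spl,
   .c8 108,
   .c8 109,
   .c8 110,
   .apx 3 7 0 2 6,
   .c8 111,
   .c8 112]] = true := by
  decide +kernel

theorem c4637 : chk (okd g8_1) (okd g7_1) 0xe16ac651200 (wl [[148998], [], [], [19747], [], [201425]]) [
  [],
  [],
  [],
  [.apx 1 2 0 6 7],
  [],
  [],
  [],
  [],
  [],
  [],
  [.spl,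
   .c8 113,
   .deg 7 0 3 4 6,
   .thr,
   .siz 6,
   .apx 2 6 1 4 7,
   .c8 114,
   .c8 115],
  [],
  [],
  [.c7 76],
  []] = true := by
  decide +kernel

theorem c4638 : chk (okd g8_1) (okd g7_1) 0xe2761691200 (wl [[], [169520], [], [], [91275, 190293], [214890]]) [
  [],
  [],
  [],
  [],
  [],
  [],
  [],
  [.c7 77,
   .apx 0 2 1 6 7],
  [],
  [],
  [],
  [.c7 78],
  [],
  [],
  [.c7 79,
   .c7 80]] = true := by
  decide +kernel

theorem c4642 : chk (okd g8_1) (okd g7_1) 0x558e0688000 (wl [[], [], [117163, 38804], [142562], [], [211612]]) [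
  [],
  [],
  [],
  [],
  [],
  [.c7 81,
   .spl,
   .c8 116,
   .c8 117,
   .c8 118,
   .c8 119,
   .c8 120,
   .c8 121],
  [],
  [],
  [],
  [],
  [],
  [],
  [.c7 82,
   .c7 83],
  [.c7 84],
  []] = true := by
  decide +kernel

theorem c4643 : chk (okd g8_1) (okd g7_1) 0x6a8d4691200 (wl [[183062, 80030], [], [140706], [40148], [], []]) [
  [],
  [.spl,
   .c8 122,
   .c8 123,
   .siz 9,
   .c8 124,
   .apx 4 7 0 3 6,
   .c8 125,
   .siz 9],
  [],
  [.c7 85,
   .c7 86],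
  [],
  [.c7 87],
  [],
  [],
  [],
  [],
  [],
  [],
  [],
  [],
  []] = true := by
  decide +kernel

theorem c4644 : chk (okd g8_1) (okd g7_1) 0xab30c651000 (wl [[50958, 178782], [103153], [], [76899], [], []]) [
  [.siz 9,
   .spl,
   .c8 126,
   .siz 9,
   .c8 127,
   .apx 4 7 0 3 6,
   .c8 128,
   .c8 129],
  [],
  [],
  [.c7 88,
   .c7 89],
  [.c7 90],
  [],
  [],
  [],
  [],
  [],
  [],
  [],
  [],
  [],
  []] = true := by
  decide +kernel

theorem c4645 : chk (okd g8_1) (okd g7_1) 0xad8cc65a200 (wl [[], [], [42368], [7457], [], [197714, 213260]]) [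
  [],
  [],
  [],
  [],
  [],
  [.c7 91],
  [],
  [],
  [],
  [],
  [],
  [],
  [.apx 0 1 2 6 7,
   .c7 92],
  [.c7 93,
   .apx 0 4 3 6 7],
  []] = true := by
  decide +kernel

theorem c4646 : chk (okd g8_1) (okd g7_1) 0x42c3089000 (wl [[138014], [153393], [], [138525], [157481], []]) [
  [.c7 94],
  [],
  [],
  [.apx 6 7 1 2 4],
  [.spl,
   .siz 9,
   .c8 130,
   .c8 131,
   .c8 132,
   .c8 133,
   .c8 134],
  [],
  [.spl,
   .siz 9,
   .c8 135,
   .c8 136,
   .c8 137,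
   .c8 138,
   .c8 139],
  [.apx 6 7 0 2 3],
  [],
  [.c7 95],
  [],
  [],
  [],
  [],
  []] = true := by
  decide +kernel

theorem c4647 : chk (okd g8_1) (okd g7_1) 0xc3323449000 (wl [[120038], [], [], [56459, 11603], [], [217612]]) [
  [],
  [],
  [],
  [.c7 96,
   .c7 97],
  [],
  [],
  [],
  [],
  [],
  [],
  [.c7 98],
  [],
  [],
  [.deg 1 3 5 6 7,
   .c7 99],
  []] = true := by
  decide +kernel

theorem c4650 : chk (okd g8_1) (okd g7_1) 0x10829a049000 (wl [[], [], [166804, 22933], [23644], [], [203025]]) [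
  [],
  [],
  [],
  [],
  [],
  [.c7 100,
   .c7 101],
  [],
  [],
  [],
  [],
  [],
  [],
  [.c7 102,
   .apx 0 4 1 6 7],
  [.c7 103],
  []] = true := by
  decide +kernel

theorem c4652 : chk (okd g8_1) (okd g7_1) 0x55040d1000 (wl [[173926], [170354], [], [175457], [190810], []]) [
  [.c7 104],
  [],
  [],
  [.apx 6 7 1 2 4],
  [.spl,
   .siz 9,
   .c8 140,
   .c8 141,
   .c8 142,
   .c8 143,
   .c8 144],
  [],
  [.spl,
   .siz 9,
   .c8 145,
   .c8 146,
   .c8 147,
   .c8 148,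
   .c8 149],
  [.apx 6 7 0 2 3],
  [],
  [.c7 105],
  [],
  [],
  [],
  [],
  []] = true := by
  decide +kernel

theorem c4653 : chk (okd g8_1) (okd g7_1) 0xa14da091040 (wl [[119830], [180465], [72604], [], [189993], []]) [
  [.c7 106],
  [.c7 107],
  [.c7 108],
  [],
  [],
  [],
  [.c7 109],
  [.c7 110],
  [.c7 111],
  [],
  [],
  [],
  [],
  [],
  []] = true := by
  decide +kernel

theorem c4655 : chk (okd g8_1) (okd g7_1) 0x12215d89a240 (wl [[2350], [], [15268], [], [60098, 60099], []]) [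
  [],
  [.c7 112],
  [],
  [],
  [],
  [],
  [.c7 113,
   .c7 114],
  [],
  [.c7 115,
   .c7 116],
  [],
  [],
  [],
  [],
  [],
  []] = true := by
  decide +kernel

theorem c4656 : chk (okd g8_1) (okd g7_1) 0x159114651240 (wl [[], [], [], [101393], [59522], [200864]]) [
  [],
  [],
  [],
  [],
  [],
  [],
  [],
  [],
  [],
  [.c7 117],
  [],
  [],
  [],
  [.c7 118],
  [.c7 119]] = true := by
  decide +kernel

theorem c4658 : chk (okd g8_1) (okd g7_1) 0xca84325a040 (wl [[], [12658], [], [], [190986], [207555]]) [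
  [],
  [],
  [],
  [],
  [],
  [],
  [],
  [.c7 120],
  [],
  [],
  [],
  [.c7 121],
  [],
  [],
  [.c7 122]] = true := by
  decide +kernel

theorem c4659 : chk (okd g8_1) (okd g7_1) 0x1182c3650240 (wl [[116766], [143667], [177037], [121961], [], []]) [
  [.spl,
   .siz 8,
   .c8 150,
   .c8 151,
   .siz 9,
   .apx 4 7 3 5 6,
   .thr,
   .siz 9,
   .siz 9],
  [.c7 123],
  [.deg 4 1 2 6 7],
  [.deg 5 0 3 6 7],
  [.c7 124],
  [.spl,
   .c8 152,
   .siz 9,
   .c8 153,
   .thr,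
   .siz 9,
   .siz 9,
   .c8 154,
   .c8 155],
  [],
  [],
  [],
  [],
  [],
  [],
  [],
  [],
  []] = true := by
  decide +kernel

theorem c4661 : chk (okd g8_1) (okd g7_1) 0x1190245a040 (wl [[], [5300], [], [15378], [], [205658, 218243]]) [
  [],
  [],
  [],
  [],
  [.siz 8],
  [],
  [],
  [],
  [],
  [],
  [],
  [.c7 125,
   .deg 3 1 5 6 7],
  [],
  [.c7 126,
   .siz 8],
  []] = true := by
  decide +kernel

theorem c4663 : chk (okd g8_1) (okd g7_1) 0x8c68245a040 (wl [[], [79220], [], [183315], [], [211474]]) [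
  [],
  [],
  [],
  [],
  [.c7 127],
  [],
  [],
  [],
  [],
  [],
  [],
  [.siz 9],
  [],
  [.deg 1 3 4 6 7],
  []] = true := by
  decide +kernel

theorem c4664 : chk (okd g8_1) (okd g7_1) 0x1120c245a040 (wl [[], [88178], [], [175330], [58410], [211474]]) [
  [],
  [],
  [],
  [],
  [.siz 9],
  [],
  [],
  [.siz 9],
  [],
  [.siz 9],
  [],
  [.siz 9],
  [],
  [.siz 9],
  [.siz 9]] = true := by
  decide +kernel

theorem c4665 : chk (okd g8_1) (okd g7_1) 0xc828425a040 (wl [[88670], [], [], [56355], [], [201564]]) [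
  [],
  [],
  [],
  [.c7 128],
  [],
  [],
  [],
  [],
  [],
  [],
  [.c7 129],
  [],
  [],
  [.c7 130],
  []] = true := by
  decide +kernel

theorem c4666 : chk (okd g8_1) (okd g7_1) 0x1044d8091240 (wl [[41294], [86257], [17821], [], [25386], []]) [
  [.c7 131],
  [.c7 132],
  [.c7 133],
  [],
  [],
  [],
  [.c7 134],
  [.c7 135],
  [.c7 136],
  [],
  [],
  [],
  [],
  [],
  []] = true := by
  decide +kernel

theorem c4672 : chk (okd g8_1) (okd g7_1) 0x940c425a040 (wl [[], [176306], [1933], [], [158362], []]) [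
  [],
  [],
  [.c7 137],
  [],
  [],
  [],
  [],
  [.c7 138],
  [.c7 139],
  [],
  [],
  [],
  [],
  [],
  []] = true := by
  decide +kernel

theorem c4673 : chk (okd g8_1) (okd g7_1) 0xa40c425a040 (wl [[], [176434], [1933], [], [190498], []]) [
  [],
  [],
  [.c7 140],
  [],
  [],
  [],
  [],
  [.c7 141],
  [.c7 142],
  [],
  [],
  [],
  [],
  [],
  []] = true := by
  decide +kernel

theorem c4674 : chk (okd g8_1) (okd g7_1) 0x14a90585a040 (wl [[], [12402], [], [], [91170], [205635]]) [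
  [],
  [],
  [],
  [],
  [],
  [],
  [],
  [.c7 143],
  [],
  [],
  [],
  [.c7 144],
  [],
  [],
  [.c7 145]] = true := by
  decide +kernel

theorem c4675 : chk (okd g8_1) (okd g7_1) 0xa30c325a040 (wl [[], [176434], [1933], [], [125596], []]) [
  [],
  [],
  [.c7 146],
  [],
  [],
  [],
  [],
  [.c7 147],
  [.c7 148],
  [],
  [],
  [],
  [],
  [],
  []] = true := by
  decide +kernel

theorem c4676 : chk (okd g8_1) (okd g7_1) 0x10a2d1650240 (wl [[121358], [176497], [86952], [175173], [], []]) [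
  [.spl,
   .c8 156,
   .siz 9,
   .c8 157,
   .c8 158,
   .c8 159,
   .c8 160],
  [.c7 149],
  [.c7 150],
  [.c7 151],
  [.c7 152],
  [.spl,
   .c8 161,
   .siz 9,
   .c8 162,
   .c8 163,
   .c8 164,
   .c8 165],
  [],
  [],
  [],
  [],
  [],
  [],
  [],
  [],
  []] = true := by
  decide +kernel

end D9

end CR
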