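import Pool.Agent.Lib.MP_6f5d36_co.Level9Cert
import Pool.Agent.Lib.MP_6f5d36_co.D9.C10
import Pool.Agent.Lib.MP_6f5d36_co.D9.C11
import Pool.Agent.Lib.MP_6f5d36_co.D9.C12
import Pool.Agent.Lib.MP_6f5d36_co.D9.C13
import Pool.Agent.Lib.MP_6f5d36_co.D9.C14
import Pool.Agent.Lib.MP_6f5d36_co.D9.C15

/-!
# MP_6f5d36_co : levels 8 and 9, search trees (generated)
-/

set_option autoImplicit false
set_option linter.all false

namespace CR

namespace D9

open L9

/-- certificates with 7 different labels -/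
noncomputable def g7_2 : List (List (ℕ × ℕ)) := [e42, e43, e44, e45, e46, e47, e48, e49, e50, e51, e52, e53, e54]

theorem g7_2_ok : AllC 7 g7_2 :=
  ⟨e42_ok, e43_ok, e44_ok, e45_ok, e46_ok, e47_ok, e48_ok, e49_ok, e50_ok, e51_ok, e52_ok, e53_ok, e54_ok, trivial⟩

/-- certificates with 8 different labels -/
noncomputable def g8_2 : List (List (ℕ × ℕ)) := [e55, e56, e57, e58, e59, e60, e61, e62]

theorem g8_2_ok : AllC 8 g8_2 :=
  ⟨e55_ok, e56_ok, e57_ok, e58_ok, e59_ok, e60_ok, e61_ok, e62_ok, trivial⟩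

theorem c4680 : chk (okd g8_2) (okd g7_2) 0xac0c445a040 (wl [[], [143730], [], [], [157853], [213674]]) [
  [],
  [],
  [],
  [],
  [],
  [],
  [],
  [.c7 0],
  [],
  [],
  [],
  [.c7 1],
  [],
  [],
  [.c7 2]] = true := by
  decide +kernel

theorem c4681 : chk (okd g8_2) (okd g7_2) 0x14c2e1650240 (wl [[107534], [78001], [], [], [59546], [202003]]) [
  [.spl,
   .c8 0,
   .siz 9,
   .apx 2 6 1 3 7,
   .c8 1,
   .c8 2,
   .c8 3],
  [],
  [],
  [],
  [],
  [],
  [.c7 3],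
  [.c7 4],
  [],
  [],
  [.c7 5],
  [.c7 6],
  [],
  [],
  [.spl,
   .c8 4,
   .siz 9,
   .apx 2 7 3 4 6,
   .c8 5,
   .c8 6,
   .c8 7]] = true := by
  decide +kernel

theorem c4682 : chk (okd g8_2) (okd g7_2) 0xc35200d1240 (wl [[41294], [119089], [14245], [], [25322], []]) [
  [.c7 7],
  [.c7 8],
  [.c7 9],
  [],
  [],
  [],
  [.c7 10],
  [.c7 11],
  [.c7 12],
  [],
  [],
  [],
  [],
  [],
  []] = true := by
  decide +kernel

theorem c4683 : chk (okd g8_2) (okd g7_2) 0x10aa8445a040 (wl [[], [], [140693], [89218], [], [207107]]) [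
  [],
  [],
  [],
  [],
  [],
  [.siz 9],
  [],
  [],
  [],
  [],
  [],
  [],
  [.c7 13],
  [.c7 14],
  []] = true := by
  decide +kernel

theorem c4686 : chk (okd g8_2) (okd g7_2) 0xac0c465a040 (wl [[], [143730], [], [52418], [157853], [213667]]) [
  [],
  [],
  [],
  [],
  [.c7 15],
  [],
  [],
  [.c7 16],
  [],
  [.spl,
   .c8 8,
   .c8 9,
   .c8 10,
   .c8 11,
   .c8 12,
   .c8 13],
  [],
  [.c7 17],
  [],
  [.c7 18],
  [.c7 19]] = true := by
  decide +kernel

theorem c4687 : chk (okd g8_2) (okd g7_2) 0x1088a265a040 (wl [[], [117364], [151947], [], [], [217923]]) [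
  [],
  [],
  [.c7 20],
  [],
  [],
  [],
  [],
  [],
  [],
  [],
  [],
  [.c7 21],
  [.c7 22],
  [],
  []] = true := by
  decide +kernel

theorem c4688 : chk (okd g8_2) (okd g7_2) 0xc8d1688000 (wl [[34126], [6961], [75658], [150753], [], []]) [
  [.c7 23],
  [.spl,
   .c8 14,
   .thr,
   .siz 9,
   .spl,
   .siz 8,
   .siz 9,
   .siz 7,
   .siz 5,
   .siz 6,
   .cs 8 0x86543210 15,
   .deg 7 0 4 5 6,
   .c8 16,
   .c8 17,
   .c8 18],
  [.c7 24],
  [.c7 25],
  [.spl,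
   .c8 19,
   .thr,
   .siz 9,
   .spl,
   .siz 8,
   .siz 9,
   .siz 6,
   .siz 5,
   .siz 7,
   .cs 8 0x86543210 20,
   .c8 21,
   .c8 22,
   .deg 7 1 4 5 6,
   .c8 23],
  [.c7 26],
  [],
  [],
  [],
  [],
  [],
  [],
  [],
  [],
  []] = true := by
  decide +kernel

theorem c4693 : chk (okd g8_2) (okd g7_2) 0x1550e229a240 (wl [[187166], [144241], [13697], [], [], [207384]]) [
  [.c7 27],
  [.c7 28],
  [.c7 29],
  [],
  [],
  [],
  [],
  [],
  [],
  [],
  [.c7 30],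
  [.c7 31],
  [.c7 32],
  [],
  []] = true := by
  decide +kernel

theorem c4697 : chk (okd g8_2) (okd g7_2) 0x658e169a200 (wl [[], [], [84396], [101739], [], [209056, 213633]]) [
  [],
  [],
  [],
  [],
  [],
  [.c7 33],
  [],
  [],
  [],
  [],
  [],
  [],
  [.c7 34,
   .spl,
   .c8 24,
   .c8 25,
   .c8 26,
   .c8 27,
   .deg 6 0 3 4 7,
   .c8 28],
  [.c7 35,
   .spl,
   .c8 29,
   .c8 30,
   .c8 31,
   .apx 0 7 1 3 6,
   .c8 32,
   .c8 33],
  []] = true := by
  decide +kernel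

theorem c4698 : chk (okd g8_2) (okd g7_2) 0x818e4651000 (wl [[], [], [177564], [72897, 118059], [191001], []]) [
  [],
  [],
  [],
  [],
  [],
  [.c7 36,
   .c7 37],
  [],
  [],
  [.c7 38],
  [.c7 39,
   .c7 40],
  [],
  [],
  [],
  [],
  []] = true := by
  decide +kernel

theorem c4699 : chk (okd g8_2) (okd g7_2) 0x21163451000 (wl [[79054, 79566, 80590], [], [], [81100], [], [213338]]) [
  [],
  [],
  [],
  [.apx 6 7 1 2 4,
   .apx 6 7 1 2 4,
   .apx 6 7 1 2 4],
  [],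
  [],
  [],
  [],
  [],
  [],
  [.c7 41,
   .c7 42,
   .c7 43],
  [],
  [],
  [.c7 44],
  []] = true := by
  decide +kernel

theorem c4701 : chk (okd g8_2) (okd g7_2) 0x1198d4651000 (wl [[47710], [], [], [118059, 48221], [25101], []]) [
  [],
  [],
  [],
  [.c7 45,
   .apx 1 4 5 6 7],
  [],
  [],
  [.apx 2 5 4 6 7],
  [],
  [],
  [.c7 46,
   .apx 2 5 4 6 7],
  [],
  [],
  [],
  [],
  []] = true := by
  decide +kernel

theorem c4702 : chk (okd g8_2) (okd g7_2) 0xd18c4651000 (wl [[47198], [], [], [113868], [], [196962]]) [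
  [],
  [],
  [],
  [.deg 4 1 5 6 7],
  [],
  [],
  [],
  [],
  [],
  [],
  [.c7 47],
  [],
  [],
  [.c7 48],
  []] = true := by
  decide +kernel

theorem c4703 : chk (okd g8_2) (okd g7_2) 0x1198d4651200 (wl [[47710], [], [], [118059, 48221], [25165], []]) [
  [],
  [],
  [],
  [.c7 49,
   .apx 1 4 5 6 7],
  [],
  [],
  [.siz 9],
  [],
  [],
  [.c7 50,
   .siz 9],
  [],
  [],
  [],
  [],
  []] = true := by
  decide +kernel

theorem c4704 : chk (okd g8_2) (okd g7_2) 0xc176c651000 (wl [[117086], [], [4513], [44131, 52323], [], []]) [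
  [],
  [.c7 51],
  [],
  [.c7 52,
   .c7 53],
  [],
  [.spl,
   .c8 34,
   .c8 35,
   .c8 36,
   .apx 0 6 3 4 7,
   .thr,
   .siz 6,
   .c8 37,
   .spl,
   .c8 38,
   .c8 39,
   .c8 40,
   .apx 0 6 3 4 7,
   .thr,
   .siz 7,
   .c8 41],
  [],
  [],
  [],
  [],
  [],
  [],
  [],
  [],
  []] = true := by
  decide +kernel

theorem c4706 : chk (okd g8_2) (okd g7_2) 0x9d96c31a040 (wl [[170318, 104622, 116526], [76017], [], [76907], [], []]) [
  [.c7 54,
   .c7 55,
   .c7 56],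
  [],
  [],
  [.c7 57,
   .c7 58,
   .c7 59],
  [.c7 60],
  [],
  [],
  [],
  [],
  [],
  [],
  [],
  [],
  [],
  []] = true := by
  decide +kernel

theorem c4707 : chk (okd g8_2) (okd g7_2) 0x1596ac45a200 (wl [[], [], [], [183394], [124555], [215692]]) [
  [],
  [],
  [],
  [],
  [],
  [],
  [],
  [],
  [],
  [.spl,
   .c8 42,
   .c8 43,
   .c8 44,
   .deg 7 0 3 5 6,
   .c8 45,
   .thr,
   .siz 5],
  [],
  [],
  [],
  [.spl,
   .c8 46,
   .c8 47,
   .c8 48,
   .c8 49,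
   .thr,
   .siz 6,
   .c8 50],
  [.spl,
   .c8 51,
   .c8 52,
   .c8 53,
   .deg 6 0 3 5 7,
   .c8 54,
   .thr,
   .siz 5]] = true := by
  decide +kernel

theorem c4708 : chk (okd g8_2) (okd g7_2) 0x1138d8451000 (wl [[137446], [], [49562], [], [], [210498, 198749]]) [
  [],
  [.c7 61],
  [],
  [],
  [],
  [],
  [],
  [],
  [],
  [],
  [.c7 62,
   .c7 63],
  [],
  [.c7 64,
   .c7 65],
  [],
  []] = true := by
  decide +kernel

theorem c4709 : chk (okd g8_2) (okd g7_2) 0x14296469a240 (wl [[115494], [], [], [], [57368], [202432, 202883, 215115]]) [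
  [],
  [],
  [],
  [],
  [],
  [],
  [.c7 66],
  [],
  [],
  [],
  [.c7 67,
   .c7 68,
   .deg 4 2 3 6 7],
  [],
  [],
  [],
  [.deg 0 1 2 6 7,
   .c7 69,
   .c7 70]] = true := by
  decide +kernel

theorem c4711 : chk (okd g8_2) (okd g7_2) 0x1158d8451000 (wl [[137446], [], [49562], [], [], [210498]]) [
  [],
  [.spl,
   .thr,
   .siz 5,
   .c8 55,
   .c8 56,
   .c8 57,
   .deg 6 1 3 5 7,
   .c8 58],
  [],
  [],
  [],
  [],
  [],
  [],
  [],
  [],
  [.spl,
   .c8 59,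
   .c8 60,
   .c8 61,
   .thr,
   .siz 5,
   .deg 6 1 3 5 7,
   .c8 62],
  [],
  [.c7 71],
  [],
  []] = true := by
  decide +kernel

theorem c4712 : chk (okd g8_2) (okd g7_2) 0x628e069a240 (wl [[68262], [], [181121], [68773], [], [213825]]) [
  [],
  [.spl,
   .c8 63,
   .c8 64,
   .c8 65,
   .c8 66,
   .c8 67,
   .apx 3 7 0 4 6],
  [],
  [.apx 6 7 1 2 4],
  [],
  [.c7 72],
  [],
  [],
  [],
  [],
  [.c7 73],
  [],
  [.apx 6 7 0 1 3],
  [.spl,
   .c8 68,
   .c8 69,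
   .c8 70,
   .c8 71,
   .c8 72,
   .apx 0 7 1 3 6],
  []] = true := by
  decide +kernel

theorem c4713 : chk (okd g8_2) (okd g7_2) 0x68463051000 (wl [[109158], [], [22426, 22946, 111018], [], [], [217930]]) [
  [],
  [.c7 74,
   .c7 75,
   .c7 76],
  [],
  [],
  [],
  [],
  [],
  [],
  [],
  [],
  [.c7 77],
  [],
  [.apx 1 3 0 6 7,
   .apx 1 3 0 6 7,
   .c7 78],
  [],
  []] = true := by
  decide +kernel

theorem c4714 : chk (okd g8_2) (okd g7_2) 0x6d663051000 (wl [[132694], [], [21907, 22947, 99741], [101533], [], []]) [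
  [],
  [.c7 79,
   .c7 80,
   .c7 81],
  [],
  [.c7 82],
  [],
  [.c7 83,
   .c7 84,
   .apx 6 7 0 1 4],
  [],
  [],
  [],
  [],
  [],
  [],
  [],
  [],
  []] = true := by
  decide +kernel

theorem c4715 : chk (okd g8_2) (okd g7_2) 0x6215d89a240 (wl [[13102], [], [113548], [], [60099], [200936]]) [
  [],
  [.spl,
   .c8 73,
   .c8 74,
   .siz 4,
   .c8 75,
   .c8 76,
   .c8 77],
  [],
  [],
  [],
  [],
  [.c7 85],
  [],
  [.c7 86],
  [],
  [.c7 87],
  [],
  [.c7 88],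
  [],
  [.c7 89]] = true := by
  decide +kernel

theorem c4716 : chk (okd g8_2) (okd g7_2) 0x1614d2651200 (wl [[47710], [], [], [], [58881, 58883, 155852], [200929]]) [
  [],
  [],
  [],
  [],
  [],
  [],
  [.c7 90,
   .c7 91,
   .c7 92],
  [],
  [],
  [],
  [.c7 93],
  [],
  [],
  [],
  [.deg 0 3 4 6 7,
   .c7 94,
   .spl,
   .apx 3 6 1 5 7,
   .c8 78,
   .c8 79,
   .c8 80,
   .c8 81,
   .c8 82]] = true := by
  decide +kernel

theorem c4717 : chk (okd g8_2) (okd g7_2) 0x129a8c65a200 (wl [[], [], [174976], [], [92522, 25811, 188589], [198362]]) [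
  [],
  [],
  [],
  [],
  [],
  [],
  [],
  [],
  [.c7 95,
   .c7 96,
   .deg 5 1 3 6 7],
  [],
  [],
  [],
  [.c7 97],
  [],
  [.apx 1 2 0 6 7,
   .apx 1 3 5 6 7,
   .c7 98]] = true := by
  decide +kernel

theorem c4718 : chk (okd g8_2) (okd g7_2) 0x108344651000 (wl [[149262, 22182], [], [], [150787, 175203], [], [196962]]) [
  [],
  [],
  [],
  [.deg 4 2 5 6 7,
   .c7 99,
   .c7 100,
   .c7 101],
  [],
  [],
  [],
  [],
  [],
  [],
  [.c7 102,
   .siz 9],
  [],
  [],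
  [.siz 9,
   .c7 103],
  []] = true := by
  decide +kernel

theorem c4721 : chk (okd g8_2) (okd g7_2) 0xdc899448000 (wl [[], [], [], [7321, 134307], [90906], [217802, 206931]]) [
  [],
  [],
  [],
  [],
  [],
  [],
  [],
  [],
  [],
  [.c7 104,
   .c7 105],
  [],
  [],
  [],
  [.c7 106,
   .c7 107,
   .c7 108,
   .c7 109],
  [.c7 110,
   .c7 111]] = true := by
  decide +kernel

theorem c4722 : chk (okd g8_2) (okd g7_2) 0x638d2651000 (wl [[67430, 1646], [], [140707], [], [], [214594, 209242]]) [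
  [],
  [.c7 112,
   .c7 113],
  [],
  [],
  [],
  [],
  [],
  [],
  [],
  [],
  [.c7 114,
   .c7 115,
   .c7 116,
   .c7 117],
  [],
  [.c7 118,
   .c7 119],
  [],
  []] = true := by
  decide +kernel

theorem c4723 : chk (okd g8_2) (okd g7_2) 0x169884651200 (wl [[120838, 14430, 79966, 178270], [], [], [23788], [], [211037]]) [
  [],
  [],
  [],
  [.c7 120,
   .c7 121,
   .c7 122,
   .c7 123],
  [],
  [],
  [],
  [],
  [],
  [],
  [.c7 124,
   .apx 6 7 1 2 3,
   .apx 6 7 1 2 3,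
   .apx 6 7 1 2 3],
  [],
  [],
  [.c7 125],
  []] = true := by
  decide +kernel

theorem c4724 : chk (okd g8_2) (okd g7_2) 0x121ae0688000 (wl [[], [], [101259], [11490, 167148], [124259], [211612]]) [
  [],
  [],
  [],
  [],
  [],
  [.c7 126,
   .c7 127],
  [],
  [],
  [.c7 128],
  [.c7 129,
   .c7 130],
  [],
  [],
  [.c7 131],
  [.c7 132,
   .c7 133],
  [.c7 134]] = true := by
  decide +kernel

theorem c4725 : chk (okd g8_2) (okd g7_2) 0x1542d9448000 (wl [[], [], [185242, 46988], [109651], [58058], [202905]]) [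
  [],
  [],
  [],
  [],
  [],
  [.spl,
   .c8 83,
   .c8 84,
   .c8 85,
   .c8 86,
   .c8 87,
   .apx 4 7 1 2 6,
   .c7 135],
  [],
  [],
  [.c7 136,
   .siz 9],
  [.c7 137],
  [],
  [],
  [.c7 138,
   .c7 139],
  [.c7 140],
  [.siz 9]] = true := by
  decide +kernel

theorem c4726 : chk (okd g8_2) (okd g7_2) 0x4d8c8688000 (wl [[], [], [100779], [134369, 11466], [124171], [211097]]) [
  [],
  [],
  [],
  [],
  [],
  [.c7 141,
   .c7 142],
  [],
  [],
  [.c7 143],
  [.c7 144,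
   .c7 145],
  [],
  [],
  [.c7 146],
  [.c7 147,
   .c7 148],
  [.c7 149]] = true := by
  decide +kernel

theorem c4727 : chk (okd g8_2) (okd g7_2) 0x1548e1688000 (wl [[], [], [51089, 186260], [142562], [123667], [211100]]) [
  [],
  [],
  [],
  [],
  [],
  [.c7 150,
   .spl,
   .c8 88,
   .c8 89,
   .c8 90,
   .c8 91,
   .c8 92,
   .c8 93],
  [],
  [],
  [.c7 151,
   .c7 152],
  [.c7 153],
  [],
  [],
  [.c7 154,
   .c7 155],
  [.c7 156],
  [.c7 157]] = true := by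
  decide +kernel

theorem c4728 : chk (okd g8_2) (okd g7_2) 0x14c699448000 (wl [[], [], [185739, 50595], [105625], [90826], [206931]]) [
  [],
  [],
  [],
  [],
  [],
  [.spl,
   .c8 94,
   .c8 95,
   .c8 96,
   .c8 97,
   .c8 98,
   .c8 99,
   .c7 158],
  [],
  [],
  [.c7 159,
   .c7 160],
  [.c7 161],
  [],
  [],
  [.c7 162,
   .c7 163],
  [.c7 164],
  [.c7 165]] = true := by
  decide +kernel

theorem c4729 : chk (okd g8_2) (okd g7_2) 0x1516a3448000 (wl [[], [], [103833], [187531, 44116], [91914], [205459]]) [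
  [],
  [],
  [],
  [],
  [],
  [.spl,
   .c8 100,
   .c8 101,
   .c8 102,
   .c8 103,
   .c8 104,
   .apx 5 6 1 3 7,
   .c7 166],
  [],
  [],
  [.c7 167],
  [.c7 168,
   .c7 169],
  [],
  [],
  [.c7 170],
  [.c7 171,
   .c7 172],
  [.c7 173]] = true := by
  decide +kernel

theorem c4730 : chk (okd g8_2) (okd g7_2) 0x1596a3448000 (wl [[], [], [103833], [187531, 146572], [91914], [205523]]) [
  [],
  [],
  [],
  [],
  [],
  [.spl,
   .c8 105,
   .c8 106,
   .c8 107,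
   .c8 108,
   .c8 109,
   .c8 110,
   .c7 174],
  [],
  [],
  [.c7 175],
  [.c7 176,
   .c7 177],
  [],
  [],
  [.c7 178],
  [.c7 179,
   .c7 180],
  [.c7 181]] = true := by
  decide +kernel

theorem c4731 : chk (okd g8_2) (okd g7_2) 0x148aa265a040 (wl [[], [121460], [151947], [35883], [123241], [209603]]) [
  [],
  [],
  [.c7 182],
  [],
  [.c7 183],
  [.c7 184],
  [],
  [.c7 185],
  [.c7 186],
  [.c7 187],
  [],
  [.c7 188],
  [.spl,
   .c8 111,
   .c8 112,
   .thr,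
   .spl,
   .cs 8 0x86543210 113,
   .cs 8 0x86543210 114,
   .siz 5,
   .cs 8 0x86543210 115,
   .siz 4,
   .siz 6,
   .spl,
   .siz 9,
   .siz 7,
   .cs 8 0x86543210 116,
   .siz 8,
   .apx 5 8 1 2 6,
   .cs 8 0x86543210 117,
   .spl,
   .cs 8 0x86543210 118,
   .siz 7,
   .siz 5,
   .cs 8 0x86543210 119,
   .cs 8 0x86543210 120,
   .siz 6,
   .deg 7 0 2 4 6,
   .c8 121,
   .c8 122],
  [.c7 189],
  [.c7 190]] = true := by
  decide +kernel

theorem c4732 : chk (okd g8_2) (okd g7_2) 0xe215d89a240 (wl [[1838], [], [15260], [], [60099], [200936]]) [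
  [],
  [.c7 191],
  [],
  [],
  [],
  [],
  [.c7 192],
  [],
  [.c7 193],
  [],
  [.c7 194],
  [],
  [.c7 195],
  [],
  [.c7 196]] = true := by
  decide +kernel

end D9

end CR
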