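import Pool.Agent.Lib.MP_6f5d36_co.Level9Cert
import Pool.Agent.Lib.MP_6f5d36_co.D9.C15
import Pool.Agent.Lib.MP_6f5d36_co.D9.C16
import Pool.Agent.Lib.MP_6f5d36_co.D9.C17
import Pool.Agent.Lib.MP_6f5d36_co.D9.C18
import Pool.Agent.Lib.MP_6f5d36_co.D9.C19
import Pool.Agent.Lib.MP_6f5d36_co.D9.C20

/-!
# MP_6f5d36_co : levels 8 and 9, search trees (generated)
-/

set_option autoImplicit false
set_option linter.all false

namespace CR

namespace D9

open L9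

/-- certificates with 7 different labels -/
noncomputable def g7_3 : List (List (ℕ × ℕ)) := [e63, e64, e65, e66, e67, e68, e69, e70, e71, e72]

theorem g7_3_ok : AllC 7 g7_3 :=
  ⟨e63_ok, e64_ok, e65_ok, e66_ok, e67_ok, e68_ok, e69_ok, e70_ok, e71_ok, e72_ok, trivial⟩

/-- certificates with 8 different labels -/
noncomputable def g8_3 : List (List (ℕ × ℕ)) := [e73, e74, e75, e76, e77, e78, e79, e80, e81, e82]

theorem g8_3_ok : AllC 8 g8_3 :=
  ⟨e73_ok, e74_ok, e75_ok, e76_ok, e77_ok, e78_ok, e79_ok, e80_ok, e81_ok, e82_ok, trivial⟩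

theorem c4733 : chk (okd g8_3) (okd g7_3) 0xa40c465a040 (wl [[], [176434, 132468], [1933], [], [190498, 158364], []]) [
  [],
  [],
  [.c7 0,
   .c7 1],
  [],
  [],
  [],
  [],
  [.c7 2,
   .c7 3,
   .c7 4,
   .deg 5 2 3 6 7],
  [.c7 5,
   .c7 6],
  [],
  [],
  [],
  [],
  [],
  []] = true := by
  decide +kernel

theorem c4734 : chk (okd g8_3) (okd g7_3) 0x16088485a040 (wl [[], [], [146316], [118100], [59715], [207619]]) [
  [],
  [],
  [],
  [],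
  [],
  [.c7 7],
  [],
  [],
  [.c7 8],
  [.c7 9],
  [],
  [],
  [.c7 10],
  [.c7 11],
  [.c7 12]] = true := by
  decide +kernel

theorem c4735 : chk (okd g8_3) (okd g7_3) 0x10d70485a040 (wl [[], [145589], [8619], [89123], [], [211490]]) [
  [],
  [],
  [.c7 13],
  [],
  [.c7 14],
  [.c7 15],
  [],
  [],
  [],
  [],
  [],
  [.c7 16],
  [.c7 17],
  [.c7 18],
  []] = true := by
  decide +kernel

theorem c4736 : chk (okd g8_3) (okd g7_3) 0xe888485a040 (wl [[], [1139], [139691], [], [157853], []]) [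
  [],
  [],
  [.c7 19],
  [],
  [],
  [],
  [],
  [.c7 20],
  [.c7 21],
  [],
  [],
  [],
  [],
  [],
  []] = true := by
  decide +kernel

theorem c4737 : chk (okd g8_3) (okd g7_3) 0x14ab0585a040 (wl [[], [], [174493], [122114], [91170, 124450], []]) [
  [],
  [],
  [],
  [],
  [],
  [.spl,
   .c8 0,
   .c8 1,
   .c8 2,
   .c8 3,
   .c8 4,
   .c8 5],
  [],
  [],
  [.c7 22,
   .c7 23],
  [.c7 24,
   .c7 25],
  [],
  [],
  [],
  [],
  []] = true := by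
  decide +kernel

theorem c4738 : chk (okd g8_3) (okd g7_3) 0x8d70445a040 (wl [[], [], [8587, 8619], [], [124675], [209426, 211474]]) [
  [],
  [],
  [],
  [],
  [],
  [],
  [],
  [],
  [.c7 26,
   .c7 27],
  [],
  [],
  [],
  [.spl,
   .c8 6,
   .c8 7,
   .c8 8,
   .c8 9,
   .thr,
   .spl,
   .siz 9,
   .siz 6,
   .siz 7,
   .siz 8,
   .siz 5,
   .cs 8 0x86543210 10,
   .c8 11,
   .c7 28,
   .c7 29,
   .c7 30],
  [],
  [.c7 31,
   .c7 32]] = true := by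
  decide +kernel

theorem c4739 : chk (okd g8_3) (okd g7_3) 0xe028225a040 (wl [[], [1141], [], [56339], [], [201562]]) [
  [],
  [],
  [],
  [],
  [.c7 33],
  [],
  [],
  [],
  [],
  [],
  [],
  [.c7 34],
  [],
  [.spl,
   .c8 12,
   .c8 13,
   .c8 14,
   .c8 15,
   .c8 16,
   .c8 17],
  []] = true := by
  decide +kernel

theorem c4742 : chk (okd g8_3) (okd g7_3) 0x618d1688000 (wl [[], [], [133025, 10122], [], [125067, 189212], [210201, 217747]]) [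
  [],
  [],
  [],
  [],
  [],
  [],
  [],
  [],
  [.c7 35,
   .c7 36,
   .c7 37,
   .c7 38],
  [],
  [],
  [],
  [.c7 39,
   .c7 40,
   .c7 41,
   .c7 42],
  [],
  [.c7 43,
   .c7 44,
   .c7 45,
   .c7 46]] = true := by
  decide +kernel

theorem c4743 : chk (okd g8_3) (okd g7_3) 0xd9884651200 (wl [[112646], [], [], [15580], [189201], [203114, 218252, 211037]]) [
  [],
  [],
  [],
  [.deg 4 1 5 6 7],
  [],
  [],
  [.c7 47],
  [],
  [],
  [.c7 48],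
  [.apx 1 2 0 6 7,
   .spl,
   .c8 18,
   .apx 1 6 2 4 7,
   .c8 19,
   .c8 20,
   .apx 0 6 1 2 7,
   .c8 21,
   .deg 4 1 5 6 7],
  [],
  [],
  [.apx 1 2 0 6 7,
   .c7 49,
   .deg 4 1 5 6 7],
  [.c7 50,
   .c7 51,
   .c7 52]] = true := by
  decide +kernel

theorem c4744 : chk (okd g8_3) (okd g7_3) 0x65a84651200 (wl [[79966, 178270], [], [], [], [25361, 188756], [218252]]) [
  [],
  [],
  [],
  [],
  [],
  [],
  [.c7 53,
   .c7 54,
   .c7 55,
   .deg 5 1 2 6 7],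
  [],
  [],
  [],
  [.c7 56,
   .c7 57],
  [],
  [],
  [],
  [.spl,
   .c8 22,
   .apx 3 7 1 2 6,
   .c8 23,
   .c8 24,
   .c8 25,
   .apx 4 6 0 2 7,
   .spl,
   .apx 3 7 1 2 6,
   .c8 26,
   .c8 27,
   .c8 28,
   .siz 5,
   .c8 29]] = true := by
  decide +kernel

theorem c4746 : chk (okd g8_3) (okd g7_3) 0xe1744651200 (wl [[145414, 21070], [], [], [167125, 167133], [], [213770]]) [
  [],
  [],
  [],
  [.c7 58,
   .apx 1 2 0 6 7,
   .c7 59,
   .apx 1 2 0 6 7],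
  [],
  [],
  [],
  [],
  [],
  [],
  [.c7 60,
   .siz 9],
  [],
  [],
  [.c7 61,
   .c7 62],
  []] = true := by
  decide +kernel

theorem c4747 : chk (okd g8_3) (okd g7_3) 0xe1744651000 (wl [[32878], [], [], [72937, 105705], [], [213770, 196962]]) [
  [],
  [],
  [],
  [.spl,
   .c8 30,
   .c8 31,
   .c8 32,
   .c8 33,
   .c8 34,
   .thr,
   .siz 9,
   .siz 9,
   .spl,
   .apx 4 7 0 5 6,
   .c8 35,
   .c8 36,
   .c8 37,
   .c8 38,
   .thr,
   .siz 9,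
   .siz 9],
  [],
  [],
  [],
  [],
  [],
  [],
  [.spl,
   .c8 39,
   .c8 40,
   .c8 41,
   .thr,
   .siz 9,
   .siz 9,
   .c8 42,
   .c8 43,
   .siz 9],
  [],
  [],
  [.c7 63,
   .c7 64,
   .c7 65,
   .c7 66],
  []] = true := by
  decide +kernel

theorem c4748 : chk (okd g8_3) (okd g7_3) 0x19b12651000 (wl [[116230], [8371, 9907], [], [48221], [], [209178]]) [
  [.siz 9,
   .c7 67],
  [],
  [],
  [.c7 68],
  [.c7 69,
   .c7 70],
  [],
  [],
  [],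
  [],
  [],
  [.c7 71],
  [.c7 72,
   .c7 73],
  [],
  [.spl,
   .c8 44,
   .c8 45,
   .c8 46,
   .c8 47,
   .c8 48,
   .c8 49],
  []] = true := by
  decide +kernel

theorem c4751 : chk (okd g8_3) (okd g7_3) 0x61699448000 (wl [[], [], [152971, 181667], [36003, 122012], [157908, 125596], []]) [
  [],
  [],
  [],
  [],
  [],
  [.c7 74,
   .c7 75,
   .spl,
   .c8 50,
   .c8 51,
   .c8 52,
   .c8 53,
   .c8 54,
   .c8 55,
   .c7 76],
  [],
  [],
  [.c7 77,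
   .c7 78,
   .c7 79,
   .c7 80],
  [.c7 81,
   .c7 82,
   .c7 83,
   .apx 6 7 0 1 2],
  [],
  [],
  [],
  [],
  []] = true := by
  decide +kernel

theorem c4752 : chk (okd g8_3) (okd g7_3) 0xcb6a3448000 (wl [[], [], [181643, 152972], [171169, 15500], [], [203425, 215138]]) [
  [],
  [],
  [],
  [],
  [],
  [.c7 84,
   .c7 85,
   .c7 86,
   .spl,
   .c8 56,
   .c8 57,
   .c8 58,
   .c8 59,
   .c8 60,
   .c8 61],
  [],
  [],
  [],
  [],
  [],
  [],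
  [.c7 87,
   .c7 88,
   .c7 89,
   .c7 90],
  [.apx 6 7 0 1 2,
   .c7 91,
   .c7 92,
   .c7 93],
  []] = true := by
  decide +kernel

theorem c4753 : chk (okd g8_3) (okd g7_3) 0x1246e14d1000 (wl [[165382, 43222], [], [105372], [15691], [], [206353, 215269]]) [
  [],
  [.c7 94,
   .c7 95],
  [],
  [.c7 96,
   .c7 97],
  [],
  [.c7 98],
  [],
  [],
  [],
  [],
  [.deg 2 0 1 6 7,
   .c7 99,
   .c7 100,
   .deg 3 4 5 6 7],
  [],
  [.c7 101,
   .c7 102],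
  [.c7 103,
   .c7 104],
  []] = true := by
  decide +kernel

theorem c4754 : chk (okd g8_3) (okd g7_3) 0x1247614d1000 (wl [[43222], [], [22421], [175340], [], [206353]]) [
  [],
  [.spl,
   .c8 62,
   .c8 63,
   .thr,
   .siz 5,
   .deg 1 4 6 7 8,
   .c8 64,
   .c8 65,
   .apx 4 6 1 3 7],
  [],
  [.c7 105],
  [],
  [.c7 106],
  [],
  [],
  [],
  [],
  [.c7 107],
  [],
  [.c7 108],
  [.spl,
   .c8 66,
   .c8 67,
   .thr,
   .deg 4 1 6 7 8,
   .siz 5,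
   .c8 68,
   .c8 69,
   .apx 1 7 2 4 6],
  []] = true := by
  decide +kernel

theorem c4755 : chk (okd g8_3) (okd g7_3) 0x1558c969a200 (wl [[], [141042], [], [187716], [123171], [201812, 201813]]) [
  [],
  [],
  [],
  [],
  [.c7 109],
  [],
  [],
  [.c7 110],
  [],
  [.c7 111],
  [],
  [.c7 112,
   .c7 113],
  [],
  [.apx 2 4 5 6 7,
   .apx 2 4 5 6 7],
  [.c7 114,
   .c7 115]] = true := by
  decide +kernel

theorem c4756 : chk (okd g8_3) (okd g7_3) 0x1228e1688000 (wl [[], [72372], [18321, 173962], [56529, 171220], [], [206666]]) [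
  [],
  [],
  [.c7 116,
   .c7 117],
  [],
  [.c7 118,
   .c7 119],
  [.spl,
   .c8 70,
   .c8 71,
   .c8 72,
   .c8 73,
   .c8 74,
   .c8 75,
   .c7 120,
   .c7 121,
   .c7 122],
  [],
  [],
  [],
  [],
  [],
  [.c7 123],
  [.c7 124,
   .apx 6 7 0 1 3],
  [.c7 125,
   .c7 126],
  []] = true := by
  decide +kernel

theorem c4757 : chk (okd g8_3) (okd g7_3) 0x1c892651200 (wl [[180430], [37105, 2355], [], [72930, 142499], [], [217802]]) [
  [.spl,
   .c8 76,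
   .deg 7 0 4 5 6,
   .thr,
   .spl,
   .siz 7,
   .siz 9,
   .siz 8,
   .siz 6,
   .siz 5,
   .apx 5 8 0 1 6,
   .siz 5,
   .siz 9,
   .thr,
   .siz 6,
   .siz 6,
   .siz 9,
   .thr,
   .siz 5,
   .siz 6,
   .siz 9,
   .thr,
   .spl,
   .spl,
   .siz 8,
   .siz 9,
   .siz 7,
   .siz 6,
   .siz 5,
   .cs 8 0x87643210 77,
   .siz 9,
   .spl,
   .siz 7,
   .siz 9,
   .siz 8,
   .siz 6,
   .siz 5,
   .cs 8 0x87643210 78,
   .siz 6,
   .siz 5,
   .apx 5 8 0 1 6,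
   .siz 5,
   .siz 9,
   .c7 127],
  [],
  [],
  [.spl,
   .c8 79,
   .c8 80,
   .c8 81,
   .c8 82,
   .c8 83,
   .apx 5 7 0 1 6,
   .spl,
   .apx 3 7 2 4 6,
   .thr,
   .siz 5,
   .siz 5,
   .siz 5,
   .c8 84,
   .apx 2 7 4 5 6,
   .c8 85,
   .c8 86],
  [.spl,
   .c8 87,
   .deg 6 0 4 5 7,
   .c8 88,
   .c8 89,
   .c8 90,
   .thr,
   .spl,
   .cs 8 0x86543210 91,
   .siz 9,
   .spl,
   .siz 7,
   .siz 9,
   .siz 8,
   .siz 6,
   .siz 5,
   .apx 5 7 0 1 8,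
   .siz 6,
   .siz 5,
   .spl,
   .cs 8 0x87643210 92,
   .siz 9,
   .cs 8 0x87643210 93,
   .siz 6,
   .siz 5,
   .siz 4,
   .siz 9,
   .spl,
   .apx 3 7 2 4 6,
   .deg 6 0 4 5 7,
   .c8 94,
   .apx 2 7 4 5 6,
   .c8 95,
   .thr,
   .siz 5,
   .spl,
   .cs 8 0x86543210 96,
   .siz 9,
   .siz 8,
   .spl,
   .siz 6,
   .siz 9,
   .siz 8,
   .siz 7,
   .siz 5,
   .cs 8 0x87643210 97,
   .siz 5,
   .spl,
   .cs 8 0x87543210 98,
   .siz 9,
   .siz 8,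
   .apx 2 7 4 5 8,
   .siz 5,
   .siz 4,
   .spl,
   .apx 5 7 0 1 6,
   .thr,
   .siz 6,
   .siz 5,
   .apx 5 6 2 4 7,
   .apx 0 7 4 5 6,
   .c8 99,
   .thr,
   .siz 5,
   .siz 5,
   .spl,
   .c8 100,
   .c8 101,
   .c8 102,
   .thr,
   .siz 6,
   .siz 6,
   .apx 2 7 4 5 6,
   .thr,
   .spl,
   .spl,
   .siz 9,
   .siz 5,
   .siz 7,
   .siz 6,
   .siz 8,
   .cs 8 0x87643210 103,
   .siz 5,
   .siz 7,
   .siz 6,
   .spl,
   .siz 8,
   .siz 5,
   .siz 7,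
   .siz 6,
   .siz 9,
   .cs 8 0x87643210 104,
   .apx 5 6 2 4 8,
   .siz 5],
  [],
  [],
  [],
  [],
  [],
  [.c7 128],
  [.spl,
   .c8 105,
   .siz 9,
   .c8 106,
   .thr,
   .siz 9,
   .siz 9,
   .spl,
   .siz 6,
   .siz 9,
   .siz 8,
   .siz 7,
   .siz 5,
   .spl,
   .siz 6,
   .siz 9,
   .siz 8,
   .siz 7,
   .siz 5,
   .cs 8 0x87543210 107,
   .c8 108,
   .thr,
   .siz 9,
   .siz 9,
   .spl,
   .apx 3 8 2 4 6,
   .siz 9,
   .siz 8,
   .apx 2 8 4 5 6,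
   .siz 5,
   .spl,
   .cs 8 0x87543210 109,
   .siz 9,
   .siz 8,
   .apx 2 8 4 5 7,
   .siz 5,
   .siz 4,
   .spl,
   .c8 110,
   .c8 111,
   .c8 112,
   .thr,
   .siz 5,
   .siz 6,
   .siz 6,
   .c8 113,
   .c8 114],
  [],
  [.spl,
   .c8 115,
   .c8 116,
   .apx 0 6 4 5 7,
   .thr,
   .spl,
   .siz 6,
   .spl,
   .siz 6,
   .siz 9,
   .siz 8,
   .siz 7,
   .siz 5,
   .cs 8 0x87543210 117,
   .spl,
   .siz 6,
   .siz 8,
   .siz 9,
   .siz 7,
   .siz 5,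
   .cs 8 0x87543210 117,
   .siz 7,
   .siz 5,
   .apx 5 6 0 1 8,
   .siz 9,
   .siz 6,
   .c8 118,
   .c8 119,
   .spl,
   .c8 120,
   .apx 3 6 2 4 7,
   .thr,
   .siz 5,
   .siz 8,
   .siz 5,
   .apx 2 6 4 5 7,
   .thr,
   .siz 5,
   .siz 5,
   .siz 5,
   .thr,
   .siz 5,
   .spl,
   .apx 3 6 2 4 8,
   .siz 9,
   .siz 8,
   .apx 2 6 4 5 8,
   .siz 5,
   .spl,
   .cs 8 0x87543210 121,
   .siz 9,
   .siz 8,
   .cs 8 0x87643210 122,
   .siz 5,
   .siz 4,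
   .siz 5],
  []] = true := by
  decide +kernel

theorem c4758 : chk (okd g8_3) (okd g7_3) 0x1552e169a200 (wl [[], [75506, 108274, 173810], [], [167273, 187396], [90397], []]) [
  [],
  [],
  [],
  [],
  [.c7 129,
   .c7 130,
   .c7 131,
   .c7 132,
   .deg 5 2 4 6 7,
   .deg 5 2 4 6 7],
  [],
  [],
  [.c7 133,
   .c7 134,
   .c7 135],
  [],
  [.c7 136,
   .c7 137],
  [],
  [],
  [],
  [],
  []] = true := by
  decide +kernel

theorem c4759 : chk (okd g8_3) (okd g7_3) 0xaa8e2688000 (wl [[51286], [], [], [68844, 138469], [191261, 157925], []]) [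
  [],
  [],
  [],
  [.c7 138,
   .c7 139],
  [],
  [],
  [.c7 140,
   .c7 141],
  [],
  [],
  [.spl,
   .c8 123,
   .c8 124,
   .c8 125,
   .c8 126,
   .thr,
   .spl,
   .cs 8 0x86543210 127,
   .siz 4,
   .cs 8 0x86543210 128,
   .siz 5,
   .cs 8 0x86543210 129,
   .siz 6,
   .deg 7 0 3 5 6,
   .c7 142,
   .c7 143,
   .apx 6 7 0 1 2],
  [],
  [],
  [],
  [],
  []] = true := by
  decide +kernel

theorem c4760 : chk (okd g8_3) (okd g7_3) 0x10b298451000 (wl [[165982], [54067], [105345, 148899], [], [], []]) [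
  [.spl,
   .c8 130,
   .c8 131,
   .c8 132,
   .apx 1 7 3 5 6,
   .c8 133,
   .c8 134],
  [.c7 144,
   .spl,
   .thr,
   .spl,
   .spl,
   .siz 9,
   .siz 8,
   .siz 5,
   .siz 6,
   .siz 7,
   .apx 4 7 5 6 8,
   .spl,
   .siz 8,
   .siz 9,
   .siz 5,
   .siz 6,
   .siz 7,
   .apx 4 7 5 6 8,
   .siz 5,
   .siz 6,
   .siz 7,
   .spl,
   .cs 8 0x87543210 135,
   .cs 8 0x87543210 136,
   .siz 5,
   .siz 6,
   .siz 7,
   .siz 4,
   .c8 137,
   .c8 138,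
   .c8 139,
   .deg 7 1 4 5 6,
   .c8 140],
  [.c7 145,
   .spl,
   .c8 141,
   .c8 142,
   .c8 143,
   .thr,
   .siz 6,
   .deg 7 1 4 5 6,
   .c8 144],
  [],
  [],
  [],
  [],
  [],
  [],
  [],
  [],
  [],
  [],
  [],
  []] = true := by
  decide +kernel

theorem c4761 : chk (okd g8_3) (okd g7_3) 0x458cc69a200 (wl [[55302, 170334, 174430], [], [], [35948], [156753], []]) [
  [],
  [],
  [],
  [.c7 146,
   .c7 147,
   .c7 148],
  [],
  [],
  [.spl,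
   .apx 1 7 3 5 6,
   .apx 0 6 1 2 7,
   .c8 145,
   .thr,
   .spl,
   .siz 8,
   .siz 9,
   .spl,
   .siz 8,
   .siz 9,
   .cs 8 0x87543210 146,
   .siz 5,
   .cs 8 0x87543210 147,
   .siz 4,
   .cs 8 0x86543210 148,
   .apx 0 6 1 2 8,
   .siz 4,
   .apx 3 7 0 1 6,
   .c8 149,
   .c7 149,
   .c7 150],
  [],
  [],
  [.c7 151],
  [],
  [],
  [],
  [],
  []] = true := by
  decide +kernel

theorem c4762 : chk (okd g8_3) (okd g7_3) 0x2d8d2651200 (wl [[], [69873], [], [109739], [], [218625, 213706, 218627, 218629]]) [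
  [],
  [],
  [],
  [],
  [.spl,
   .apx 3 7 2 4 6,
   .c8 150,
   .c8 151,
   .thr,
   .siz 6,
   .siz 7,
   .spl,
   .siz 8,
   .siz 6,
   .siz 7,
   .siz 9,
   .cs 8 0x86543210 152,
   .siz 5,
   .siz 5,
   .c8 153,
   .c8 154],
  [],
  [],
  [],
  [],
  [],
  [],
  [.deg 0 3 4 6 7,
   .c7 152,
   .c7 153,
   .c7 154],
  [],
  [.spl,
   .c8 155,
   .c8 156,
   .c8 157,
   .apx 0 7 1 2 6,
   .c8 158,
   .thr,
   .siz 6,
   .c7 155,
   .c7 156,
   .c7 157],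
  []] = true := by
  decide +kernel

end D9

end CR
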