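import Pool.Agent.Lib.MP_6f5d36_co.Level9Cert
import Pool.Agent.Lib.MP_6f5d36_co.D9.C20
import Pool.Agent.Lib.MP_6f5d36_co.D9.C21
import Pool.Agent.Lib.MP_6f5d36_co.D9.C22
import Pool.Agent.Lib.MP_6f5d36_co.D9.C23
import Pool.Agent.Lib.MP_6f5d36_co.D9.C24
import Pool.Agent.Lib.MP_6f5d36_co.D9.C25

/-!
# MP_6f5d36_co : levels 8 and 9, search trees (generated)
-/

set_option autoImplicit false
set_option linter.all false

namespace CR

namespace D9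

open L9

/-- certificates with 7 different labels -/
noncomputable def g7_4 : List (List (ℕ × ℕ)) := [e83, e84, e85, e86, e87, e88, e89, e90, e91]

theorem g7_4_ok : AllC 7 g7_4 :=
  ⟨e83_ok, e84_ok, e85_ok, e86_ok, e87_ok, e88_ok, e89_ok, e90_ok, e91_ok, trivial⟩

/-- certificates with 8 different labels -/
noncomputable def g8_4 : List (List (ℕ × ℕ)) := [e92, e93, e94, e95, e96, e97, e98, e99, e100, e101, e102]

theorem g8_4_ok : AllC 8 g8_4 :=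
  ⟨e92_ok, e93_ok, e94_ok, e95_ok, e96_ok, e97_ok, e98_ok, e99_ok, e100_ok, e101_ok, e102_ok, trivial⟩

theorem c4763 : chk (okd g8_4) (okd g7_4) 0x25892651200 (wl [[53534], [], [], [3331], [123669], [213706, 217802]]) [
  [],
  [],
  [],
  [.c7 0],
  [],
  [],
  [.c7 1],
  [],
  [],
  [.c7 2],
  [.c7 3,
   .c7 4],
  [],
  [],
  [.c7 5,
   .c7 6],
  [.deg 3 0 1 6 7,
   .deg 3 0 1 6 7]] = true := by
  decide +kernel

theorem c4766 : chk (okd g8_4) (okd g7_4) 0x5884651000 (wl [[], [119985], [119690], [], [90858], [201961]]) [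
  [],
  [],
  [.c7 7],
  [],
  [],
  [],
  [],
  [.spl,
   .c8 0,
   .c8 1,
   .c8 2,
   .c8 3,
   .c8 4,
   .c8 5],
  [.c7 8],
  [],
  [],
  [.c7 9],
  [.spl,
   .c8 6,
   .c8 7,
   .c8 8,
   .c8 9,
   .c8 10,
   .c8 11],
  [],
  [.c7 10]] = true := by
  decide +kernel

theorem c4771 : chk (okd g8_4) (okd g7_4) 0x1214d2651000 (wl [[47198], [], [], [109739], [], [200937, 209242]]) [
  [],
  [],
  [],
  [.spl,
   .thr,
   .siz 6,
   .spl,
   .siz 7,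
   .siz 6,
   .siz 8,
   .siz 9,
   .spl,
   .siz 7,
   .siz 6,
   .siz 8,
   .siz 9,
   .siz 5,
   .cs 8 0x87643210 12,
   .spl,
   .siz 7,
   .siz 6,
   .siz 8,
   .siz 9,
   .cs 8 0x87643210 13,
   .cs 8 0x87643210 14,
   .c8 15,
   .c8 16,
   .apx 5 6 2 3 7,
   .apx 3 7 2 4 6,
   .c8 17],
  [],
  [],
  [],
  [],
  [],
  [],
  [.c7 11,
   .spl,
   .c8 18,
   .c8 19,
   .c8 20,
   .c8 21,
   .c8 22,
   .c8 23],
  [],
  [],
  [.c7 12,
   .spl,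
   .apx 3 6 2 4 7,
   .c8 24,
   .c8 25,
   .c8 26,
   .c8 27,
   .c8 28],
  []] = true := by
  decide +kernel

theorem c4772 : chk (okd g8_4) (okd g7_4) 0xab8a2688000 (wl [[], [], [], [85290, 101580, 48284, 134309], [90922, 156771], [209564]]) [
  [],
  [],
  [],
  [],
  [],
  [],
  [],
  [],
  [],
  [.deg 0 4 5 6 7,
   .c7 13,
   .c7 14,
   .c7 15,
   .c7 16,
   .c7 17,
   .c7 18,
   .c7 19],
  [],
  [],
  [],
  [.c7 20,
   .c7 21,
   .apx 6 7 0 1 2,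
   .c7 22],
  [.c7 23,
   .spl,
   .c8 29,
   .c8 30,
   .c8 31,
   .c8 32,
   .c8 33,
   .c8 34]] = true := by
  decide +kernel

theorem c4773 : chk (okd g8_4) (okd g7_4) 0xd58e1688000 (wl [[], [], [79257, 117163, 112532], [142562], [123667], [211612]]) [
  [],
  [],
  [],
  [],
  [],
  [.c7 24,
   .c7 25,
   .spl,
   .thr,
   .siz 9,
   .siz 9,
   .c8 35,
   .c8 36,
   .deg 6 3 4 5 7,
   .c8 37,
   .c8 38],
  [],
  [],
  [.c7 26,
   .deg 5 0 4 6 7,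
   .deg 5 0 4 6 7],
  [.c7 27],
  [],
  [],
  [.deg 4 1 5 6 7,
   .c7 28,
   .deg 4 1 5 6 7],
  [.c7 29],
  [.c7 30]] = true := by
  decide +kernel

theorem c4775 : chk (okd g8_4) (okd g7_4) 0xa38a1688000 (wl [[], [], [13721, 152995, 18859], [179356, 101612], [], [206410, 211612]]) [
  [],
  [],
  [],
  [],
  [],
  [.c7 31,
   .c7 32,
   .spl,
   .c8 39,
   .c8 40,
   .c8 41,
   .c8 42,
   .c8 43,
   .c8 44,
   .c7 33,
   .c7 34,
   .c7 35],
  [],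
  [],
  [],
  [],
  [],
  [],
  [.c7 36,
   .c7 37,
   .c7 38,
   .c7 39,
   .c7 40,
   .c7 41],
  [.c7 42,
   .apx 6 7 0 1 2,
   .spl,
   .apx 4 7 0 2 6,
   .c8 45,
   .c8 46,
   .apx 5 7 0 4 6,
   .thr,
   .siz 5,
   .siz 6,
   .spl,
   .cs 8 0x86543210 47,
   .siz 5,
   .siz 6,
   .siz 7,
   .cs 8 0x86543210 48,
   .spl,
   .apx 5 7 0 4 8,
   .siz 5,
   .siz 6,
   .siz 7,
   .apx 4 7 0 2 8,
   .siz 4,
   .c8 49,
   .c7 43],
  []] = true := by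
  decide +kernel

theorem c4776 : chk (okd g8_4) (okd g7_4) 0xa14d9448000 (wl [[], [], [120203, 14221], [171161, 101539], [124235], [203417]]) [
  [],
  [],
  [],
  [],
  [],
  [.spl,
   .c8 50,
   .c8 51,
   .c8 52,
   .c8 53,
   .c8 54,
   .c8 55,
   .c7 44,
   .c7 45,
   .c7 46],
  [],
  [],
  [.apx 6 7 0 1 3,
   .c7 47],
  [.c7 48,
   .c7 49],
  [],
  [],
  [.c7 50,
   .c7 51],
  [.deg 4 0 2 6 7,
   .c7 52],
  [.spl,
   .c8 56,
   .c8 57,
   .c8 58,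
   .c8 59,
   .c8 60,
   .c8 61]] = true := by
  decide +kernel

theorem c4777 : chk (okd g8_4) (okd g7_4) 0x62659448000 (wl [[], [], [119706, 178060], [56545, 175187, 68779, 101468], [60129, 123738], []]) [
  [],
  [],
  [],
  [],
  [],
  [.c7 53,
   .spl,
   .c8 62,
   .c8 63,
   .c8 64,
   .c8 65,
   .c8 66,
   .apx 4 7 1 2 6,
   .c7 54,
   .c7 55,
   .c7 56,
   .c7 57,
   .c7 58,
   .c7 59],
  [],
  [],
  [.c7 60,
   .apx 6 7 0 1 3,
   .c7 61,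
   .c7 62],
  [.siz 9,
   .c7 63,
   .c7 64,
   .c7 65,
   .c7 66,
   .c7 67,
   .c7 68,
   .c7 69],
  [],
  [],
  [],
  [],
  []] = true := by
  decide +kernel

theorem c4778 : chk (okd g8_4) (okd g7_4) 0xab8a0688000 (wl [[], [], [166801, 136611, 51605, 182677], [85290, 48284, 134309], [90922], []]) [
  [],
  [],
  [],
  [],
  [],
  [.c7 70,
   .c7 71,
   .c7 72,
   .c7 73,
   .spl,
   .c8 67,
   .c8 68,
   .c8 69,
   .c8 70,
   .c8 71,
   .c8 72,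
   .c7 74,
   .c7 75,
   .c7 76,
   .c7 77,
   .apx 0 5 4 6 7,
   .c7 78,
   .c7 79],
  [],
  [],
  [.c7 80,
   .c7 81,
   .c7 82,
   .apx 0 5 4 6 7],
  [.deg 0 4 5 6 7,
   .c7 83,
   .c7 84],
  [],
  [],
  [],
  [],
  []] = true := by
  decide +kernel

theorem c4780 : chk (okd g8_4) (okd g7_4) 0xe9712651200 (wl [[182998, 34406, 113006], [], [], [56403, 134380, 118045], [], [200929, 217802]]) [
  [],
  [],
  [],
  [.c7 85,
   .siz 4,
   .c7 86,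
   .spl,
   .c8 73,
   .siz 9,
   .c8 74,
   .c8 75,
   .c8 76,
   .c8 77,
   .c7 87,
   .c7 88,
   .c7 89,
   .c7 90,
   .deg 5 1 4 6 7],
  [],
  [],
  [],
  [],
  [],
  [],
  [.c7 91,
   .spl,
   .c8 78,
   .c8 79,
   .c8 80,
   .thr,
   .spl,
   .cs 8 0x86543210 81,
   .siz 9,
   .siz 7,
   .siz 8,
   .cs 8 0x86543210 82,
   .siz 6,
   .siz 4,
   .spl,
   .siz 4,
   .cs 8 0x86543210 83,
   .cs 8 0x86543210 84,
   .siz 9,
   .siz 5,
   .cs 8 0x86543210 85,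
   .c8 86,
   .c8 87,
   .c7 92,
   .spl,
   .c8 88,
   .siz 9,
   .c8 89,
   .c8 90,
   .c8 91,
   .c8 92,
   .spl,
   .c8 93,
   .c8 94,
   .c8 95,
   .c8 96,
   .apx 1 6 4 5 7,
   .c8 97,
   .c7 93],
  [],
  [],
  [.spl,
   .c8 98,
   .siz 9,
   .c8 99,
   .c8 100,
   .c8 101,
   .c8 102,
   .c7 94,
   .spl,
   .c8 103,
   .c8 104,
   .c8 105,
   .thr,
   .siz 4,
   .spl,
   .siz 7,
   .siz 9,
   .cs 8 0x86543210 106,
   .siz 8,
   .siz 6,
   .cs 8 0x86543210 107,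
   .spl,
   .cs 8 0x86543210 108,
   .cs 8 0x86543210 109,
   .siz 4,
   .siz 9,
   .cs 8 0x86543210 110,
   .siz 5,
   .c8 111,
   .c8 112,
   .c7 95,
   .c7 96,
   .spl,
   .c8 113,
   .c8 114,
   .c8 115,
   .c8 116,
   .c8 117,
   .apx 4 6 1 5 7],
  []] = true := by
  decide +kernel

theorem c4781 : chk (okd g8_4) (okd g7_4) 0x8a4e3448000 (wl [[], [], [169369, 54178], [7329, 121995, 15565], [125579], [202073, 207444]]) [
  [],
  [],
  [],
  [],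
  [],
  [.c7 97,
   .spl,
   .c8 118,
   .c8 119,
   .c8 120,
   .c8 121,
   .c8 122,
   .apx 5 7 0 2 6,
   .c7 98,
   .c7 99,
   .c7 100,
   .c7 101],
  [],
  [],
  [.c7 102,
   .c7 103],
  [.c7 104,
   .apx 6 7 0 1 2,
   .c7 105],
  [],
  [],
  [.apx 6 7 0 1 3,
   .c7 106,
   .c7 107,
   .c7 108],
  [.c7 109,
   .c7 110,
   .c7 111,
   .c7 112,
   .c7 113,
   .c7 114],
  [.spl,
   .c8 123,
   .c8 124,
   .c8 125,
   .c8 126,
   .c8 127,
   .c8 128,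
   .c7 115]] = true := by
  decide +kernel

theorem c4782 : chk (okd g8_4) (okd g7_4) 0x8b4e3448000 (wl [[], [], [169369, 33693], [7329, 121995, 15565], [], [202073, 206932]]) [
  [],
  [],
  [],
  [],
  [],
  [.c7 116,
   .spl,
   .c8 129,
   .c8 130,
   .c8 131,
   .c8 132,
   .c8 133,
   .c8 134,
   .c7 117,
   .c7 118,
   .c7 119,
   .c7 120],
  [],
  [],
  [],
  [],
  [],
  [],
  [.apx 6 7 0 1 3,
   .c7 121,
   .c7 122,
   .c7 123],
  [.c7 124,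
   .c7 125,
   .c7 126,
   .c7 127,
   .c7 128,
   .spl,
   .apx 5 7 1 4 6,
   .c8 135,
   .c8 136,
   .apx 4 7 1 3 6,
   .c8 137,
   .c8 138],
  []] = true := by
  decide +kernel

theorem c4783 : chk (okd g8_4) (okd g7_4) 0xc4692651200 (wl [[116230, 181766], [4337], [], [109731, 175267], [90826], []]) [
  [.c7 129,
   .spl,
   .siz 9,
   .apx 0 6 1 2 7,
   .c8 139,
   .apx 3 7 0 5 6,
   .thr,
   .spl,
   .siz 9,
   .siz 6,
   .siz 7,
   .siz 8,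
   .siz 5,
   .cs 8 0x86543210 140,
   .spl,
   .siz 9,
   .siz 6,
   .cs 8 0x86543210 141,
   .apx 0 6 1 2 8,
   .siz 5,
   .cs 8 0x86543210 142,
   .siz 6,
   .c8 143],
  [],
  [],
  [.deg 5 1 4 6 7,
   .c7 130,
   .c7 131,
   .spl,
   .c8 144,
   .c8 145,
   .c8 146,
   .apx 0 6 1 2 7,
   .thr,
   .spl,
   .siz 9,
   .siz 6,
   .cs 8 0x86543210 147,
   .apx 3 8 0 5 6,
   .siz 5,
   .spl,
   .siz 9,
   .siz 6,
   .cs 8 0x87643210 148,
   .cs 8 0x87643210 149,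
   .siz 5,
   .siz 4,
   .spl,
   .spl,
   .siz 8,
   .siz 6,
   .siz 9,
   .siz 7,
   .siz 5,
   .cs 8 0x87643210 150,
   .siz 6,
   .siz 9,
   .spl,
   .siz 7,
   .siz 6,
   .siz 9,
   .siz 8,
   .siz 5,
   .cs 8 0x87643210 151,
   .siz 5,
   .cs 8 0x86543210 152,
   .c8 153],
  [.c7 132,
   .spl,
   .apx 3 7 2 4 6,
   .c8 154,
   .c8 155,
   .thr,
   .siz 8,
   .spl,
   .siz 9,
   .siz 6,
   .siz 7,
   .siz 8,
   .spl,
   .siz 9,
   .siz 6,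
   .siz 7,
   .siz 8,
   .siz 5,
   .cs 8 0x87543210 156,
   .spl,
   .siz 9,
   .siz 6,
   .siz 7,
   .siz 8,
   .cs 8 0x87653210 157,
   .cs 8 0x87543210 156,
   .siz 7,
   .c8 158,
   .c8 159],
  [],
  [.c7 133,
   .spl,
   .c8 160,
   .c8 161,
   .apx 0 6 1 2 7,
   .thr,
   .siz 7,
   .siz 8,
   .spl,
   .siz 7,
   .siz 6,
   .siz 9,
   .siz 8,
   .spl,
   .siz 7,
   .siz 6,
   .siz 9,
   .siz 8,
   .siz 5,
   .cs 8 0x87653210 162,
   .cs 8 0x86543210 142,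
   .c8 163,
   .c8 164],
  [.spl,
   .c8 165,
   .apx 0 7 3 5 6,
   .c8 166,
   .siz 6,
   .c8 167,
   .thr,
   .siz 7,
   .siz 6,
   .siz 7,
   .siz 6],
  [],
  [.c7 134,
   .spl,
   .c8 168,
   .apx 3 6 2 4 7,
   .siz 9,
   .apx 0 7 3 5 6,
   .thr,
   .spl,
   .siz 7,
   .siz 6,
   .siz 9,
   .siz 8,
   .siz 5,
   .cs 8 0x86543210 169,
   .spl,
   .cs 8 0x86543210 170,
   .siz 6,
   .siz 9,
   .apx 0 8 1 2 6,
   .siz 5,
   .cs 8 0x86543210 156,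
   .siz 6,
   .c8 171],
  [],
  [],
  [],
  [],
  []] = true := by
  decide +kernel

theorem c4784 : chk (okd g8_4) (okd g7_4) 0x10b292651000 (wl [[112854, 121046, 112734, 178270], [], [], [], [189955], [218627]]) [
  [],
  [],
  [],
  [],
  [],
  [],
  [.c7 135,
   .c7 136,
   .c7 137,
   .c7 138],
  [],
  [],
  [],
  [.c7 139,
   .c7 140,
   .c7 141,
   .c7 142],
  [],
  [],
  [],
  [.deg 1 0 2 6 7]] = true := by
  decide +kernel

end D9

end CR
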