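import Pool.Agent.Lib.MP_6f5d36_co.Level9Cert
import Pool.Agent.Lib.MP_6f5d36_co.D9.C25
import Pool.Agent.Lib.MP_6f5d36_co.D9.C26
import Pool.Agent.Lib.MP_6f5d36_co.D9.C27

/-!
# MP_6f5d36_co : levels 8 and 9, search trees (generated)
-/

set_option autoImplicit false
set_option linter.all false

namespace CR

namespace D9

open L9

/-- certificates with 7 different labels -/
noncomputable def g7_5 : List (List (ℕ × ℕ)) := [e103, e104]

theorem g7_5_ok : AllC 7 g7_5 :=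
  ⟨e103_ok, e104_ok, trivial⟩

/-- certificates with 8 different labels -/
noncomputable def g8_5 : List (List (ℕ × ℕ)) := [e105, e106, e107, e108]

theorem g8_5_ok : AllC 8 g8_5 :=
  ⟨e105_ok, e106_ok, e107_ok, e108_ok, trivial⟩

theorem c4785 : chk (okd g8_5) (okd g7_5) 0x55663448000 (wl [[], [], [87436, 99229], [11348, 146637], [122970], [205331]]) [
  [],
  [],
  [],
  [],
  [],
  [.c7 0,
   .c7 1,
   .spl,
   .c8 0,
   .c8 1,
   .c8 2,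
   .c8 3,
   .c8 4,
   .c8 5,
   .c7 2],
  [],
  [],
  [.c7 3,
   .c7 4],
  [.c7 5,
   .c7 6],
  [],
  [],
  [.c7 7,
   .c7 8],
  [.c7 9,
   .c7 10],
  [.spl,
   .c8 6,
   .c8 7,
   .apx 1 6 3 5 7,
   .apx 1 7 2 4 6,
   .c8 8,
   .c8 9]] = true := by
  decide +kernel

theorem c4786 : chk (okd g8_5) (okd g7_5) 0x43852651000 (wl [[132710], [], [12698], [179292, 101612], [123594], [218627]]) [
  [],
  [.spl,
   .siz 9,
   .c8 10,
   .c8 11,
   .c8 12,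
   .c8 13,
   .thr,
   .spl,
   .siz 9,
   .siz 7,
   .spl,
   .siz 9,
   .siz 7,
   .siz 6,
   .siz 8,
   .siz 5,
   .cs 8 0x87643210 14,
   .siz 8,
   .spl,
   .siz 9,
   .siz 7,
   .siz 5,
   .siz 8,
   .siz 6,
   .cs 8 0x87643210 15,
   .apx 7 8 1 4 6,
   .siz 9,
   .siz 7,
   .siz 9],
  [],
  [.spl,
   .c8 16,
   .thr,
   .siz 7,
   .siz 9,
   .siz 7,
   .c8 17,
   .c8 18,
   .c8 19,
   .c8 20,
   .spl,
   .thr,
   .siz 9,
   .siz 7,
   .siz 9,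
   .c8 21,
   .c8 22,
   .c8 23,
   .c8 24,
   .c8 25],
  [],
  [.spl,
   .c8 26,
   .c8 27,
   .c8 28,
   .c8 29,
   .c8 30,
   .c8 31,
   .spl,
   .siz 9,
   .thr,
   .siz 9,
   .siz 8,
   .siz 9,
   .thr,
   .siz 9,
   .siz 8,
   .siz 9,
   .thr,
   .siz 9,
   .siz 9,
   .siz 9,
   .thr,
   .siz 9,
   .siz 8,
   .siz 9,
   .thr,
   .siz 9,
   .siz 8,
   .siz 9],
  [.spl,
   .c8 32,
   .c8 33,
   .c8 34,
   .c8 35,
   .c8 36,
   .thr,
   .siz 7,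
   .spl,
   .siz 7,
   .siz 9,
   .spl,
   .siz 7,
   .siz 9,
   .siz 6,
   .siz 8,
   .siz 5,
   .cs 8 0x87643210 37,
   .siz 8,
   .spl,
   .siz 7,
   .siz 9,
   .siz 5,
   .siz 8,
   .siz 6,
   .cs 8 0x87643210 38,
   .spl,
   .siz 7,
   .siz 9,
   .cs 8 0x87643210 39,
   .siz 8,
   .cs 8 0x87543210 40,
   .siz 4,
   .siz 7,
   .siz 7],
  [],
  [.spl,
   .c8 41,
   .c8 42,
   .siz 6,
   .c8 43,
   .thr,
   .siz 7,
   .siz 7,
   .siz 8,
   .siz 9,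
   .thr,
   .siz 7,
   .siz 7,
   .siz 8,
   .siz 9],
  [.spl,
   .thr,
   .siz 7,
   .siz 8,
   .siz 8,
   .thr,
   .siz 9,
   .siz 8,
   .siz 8,
   .thr,
   .spl,
   .siz 7,
   .siz 9,
   .siz 6,
   .siz 8,
   .siz 5,
   .spl,
   .siz 7,
   .siz 9,
   .siz 6,
   .siz 8,
   .siz 5,
   .cs 8 0x87643210 44,
   .siz 7,
   .siz 7,
   .thr,
   .siz 8,
   .siz 9,
   .siz 9,
   .c8 45,
   .thr,
   .spl,
   .siz 7,
   .siz 9,
   .spl,
   .siz 7,
   .siz 9,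
   .siz 6,
   .siz 8,
   .siz 5,
   .cs 8 0x87643210 46,
   .siz 8,
   .spl,
   .siz 7,
   .siz 9,
   .siz 5,
   .siz 8,
   .siz 6,
   .cs 8 0x87643210 47,
   .spl,
   .siz 7,
   .siz 9,
   .cs 8 0x87543210 48,
   .siz 8,
   .apx 5 7 2 6 8,
   .siz 4,
   .siz 7,
   .siz 7,
   .spl,
   .c8 49,
   .c8 50,
   .c8 51,
   .c8 52,
   .c8 53,
   .c8 54],
  [.c7 11],
  [],
  [.siz 9],
  [.c7 12,
   .c7 13],
  [.c7 14]] = true := by
  decide +kernel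

theorem c4787 : chk (okd g8_5) (okd g7_5) 0x884e3448000 (wl [[], [], [169369, 54178, 18858, 33693], [7329], [125579], [207444]]) [
  [],
  [],
  [],
  [],
  [],
  [.c7 15,
   .c7 16,
   .c7 17,
   .c7 18],
  [],
  [],
  [.c7 19,
   .c7 20,
   .c7 21,
   .c7 22],
  [.c7 23],
  [],
  [],
  [.c7 24,
   .c7 25,
   .c7 26,
   .c7 27],
  [.c7 28],
  [.c7 29]] = true := by
  decide +kernel

end D9

end CR
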