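import Pool.Agent.Lib.MP_6f5d36_co.Level9Cert
import Pool.Agent.Lib.MP_6f5d36_co.D9.C27
import Pool.Agent.Lib.MP_6f5d36_co.D9.C28
import Pool.Agent.Lib.MP_6f5d36_co.D9.C29
import Pool.Agent.Lib.MP_6f5d36_co.D9.C30
import Pool.Agent.Lib.MP_6f5d36_co.D9.C31
import Pool.Agent.Lib.MP_6f5d36_co.D9.C32
import Pool.Agent.Lib.MP_6f5d36_co.D9.C33

/-!
# MP_6f5d36_co : levels 8 and 9, search trees (generated)
-/

set_option autoImplicit false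
set_option linter.all false

namespace CR

namespace D9

open L9

/-- certificates with 7 different labels -/
noncomputable def g7_6 : List (List (ℕ × ℕ)) := [e109]

theorem g7_6_ok : AllC 7 g7_6 :=
  ⟨e109_ok, trivial⟩

/-- certificates with 8 different labels -/
noncomputable def g8_6 : List (List (ℕ × ℕ)) := [e110, e111, e112, e113, e114, e115, e116, e117, e118, e119, e120, e121, e122, e123, e124, e125, e126, e127, e128, e129, e130, e131, e132, e133, e134, e135]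

theorem g8_6_ok : AllC 8 g8_6 :=
  ⟨e110_ok, e111_ok, e112_ok, e113_ok, e114_ok, e115_ok, e116_ok, e117_ok, e118_ok, e119_ok, e120_ok, e121_ok, e122_ok, e123_ok, e124_ok, e125_ok, e126_ok, e127_ok, e128_ok, e129_ok, e130_ok, e131_ok, e132_ok, e133_ok, e134_ok, e135_ok, trivial⟩

theorem c4790 : chk (okd g8_6) (okd g7_6) 0xe968c65a200 (wl [[33878], [67314], [88458, 152979], [7521, 19755], [191115], [209244, 213261]]) [
  [.spl,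
   .siz 6,
   .c8 0,
   .thr,
   .siz 9,
   .siz 9,
   .siz 6,
   .siz 6,
   .siz 7,
   .siz 6,
   .siz 6,
   .c8 1,
   .thr,
   .spl,
   .siz 6,
   .siz 8,
   .siz 9,
   .siz 7,
   .apx 7 8 0 5 6,
   .spl,
   .siz 6,
   .siz 8,
   .siz 9,
   .siz 7,
   .cs 8 0x87643210 2,
   .cs 8 0x87643210 3,
   .spl,
   .siz 6,
   .siz 7,
   .siz 9,
   .siz 8,
   .spl,
   .siz 6,
   .siz 7,
   .siz 9,
   .siz 8,
   .siz 5,
   .cs 8 0x87643210 4,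
   .spl,
   .siz 6,
   .siz 7,
   .siz 9,
   .siz 8,
   .apx 6 8 1 3 7,
   .cs 8 0x87643210 5,
   .siz 6,
   .siz 6,
   .siz 7,
   .siz 6,
   .siz 6,
   .thr,
   .spl,
   .siz 6,
   .siz 8,
   .siz 9,
   .siz 7,
   .spl,
   .siz 6,
   .siz 8,
   .siz 9,
   .siz 7,
   .cs 8 0x87643210 6,
   .cs 8 0x87643210 7,
   .apx 7 8 0 5 6,
   .spl,
   .siz 6,
   .siz 7,
   .siz 9,
   .siz 8,
   .spl,
   .siz 6,
   .siz 7,
   .siz 9,
   .siz 8,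
   .cs 8 0x87643210 8,
   .apx 6 8 1 3 7,
   .spl,
   .siz 6,
   .siz 7,
   .siz 9,
   .siz 8,
   .cs 8 0x87643210 9,
   .siz 5,
   .siz 6,
   .siz 6,
   .siz 7,
   .siz 6,
   .siz 6],
  [.spl,
   .thr,
   .siz 6,
   .siz 9,
   .spl,
   .spl,
   .cs 8 0x87543210 10,
   .cs 8 0x87543210 11,
   .siz 7,
   .siz 6,
   .siz 5,
   .siz 4,
   .spl,
   .cs 8 0x87543210 10,
   .siz 9,
   .cs 8 0x87543210 12,
   .siz 6,
   .siz 5,
   .siz 4,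
   .spl,
   .siz 7,
   .cs 8 0x87543210 11,
   .cs 8 0x87543210 12,
   .siz 6,
   .siz 5,
   .siz 4,
   .siz 6,
   .siz 5,
   .siz 4,
   .spl,
   .spl,
   .siz 7,
   .siz 9,
   .siz 8,
   .siz 6,
   .cs 8 0x87643210 13,
   .siz 5,
   .siz 9,
   .siz 8,
   .spl,
   .siz 6,
   .siz 9,
   .siz 8,
   .siz 7,
   .cs 8 0x87643210 14,
   .siz 5,
   .spl,
   .cs 8 0x87643210 15,
   .siz 9,
   .siz 8,
   .cs 8 0x87643210 16,
   .siz 4,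
   .siz 5,
   .siz 5,
   .siz 6,
   .spl,
   .spl,
   .siz 8,
   .siz 9,
   .siz 7,
   .cs 8 0x87543210 17,
   .cs 8 0x87543210 18,
   .siz 4,
   .siz 9,
   .spl,
   .siz 7,
   .siz 9,
   .siz 8,
   .cs 8 0x87543210 17,
   .cs 8 0x87543210 18,
   .siz 4,
   .spl,
   .cs 8 0x87543210 19,
   .siz 9,
   .cs 8 0x87543210 20,
   .siz 6,
   .siz 5,
   .siz 4,
   .spl,
   .cs 8 0x87543210 19,
   .siz 9,
   .cs 8 0x87543210 20,
   .siz 5,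
   .siz 6,
   .siz 4,
   .siz 4,
   .thr,
   .siz 8,
   .siz 9,
   .spl,
   .spl,
   .apx 5 7 0 6 8,
   .siz 9,
   .cs 8 0x87543210 12,
   .siz 6,
   .siz 5,
   .siz 4,
   .siz 9,
   .spl,
   .apx 5 7 0 6 8,
   .siz 9,
   .siz 8,
   .cs 8 0x87543210 21,
   .siz 5,
   .siz 4,
   .spl,
   .siz 6,
   .siz 9,
   .cs 8 0x87543210 12,
   .cs 8 0x87543210 21,
   .siz 5,
   .siz 4,
   .siz 5,
   .siz 4,
   .siz 9,
   .spl,
   .siz 6,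
   .siz 9,
   .spl,
   .siz 6,
   .siz 9,
   .siz 8,
   .siz 7,
   .cs 8 0x87543210 22,
   .cs 8 0x87543210 23,
   .apx 1 6 3 7 8,
   .spl,
   .siz 6,
   .siz 9,
   .apx 5 8 1 4 7,
   .cs 8 0x87543210 24,
   .siz 5,
   .siz 4,
   .spl,
   .siz 6,
   .siz 9,
   .apx 5 8 1 4 7,
   .cs 8 0x87543210 24,
   .siz 4,
   .siz 5,
   .siz 9,
   .thr,
   .siz 9,
   .siz 9,
   .spl,
   .apx 5 6 2 7 8,
   .spl,
   .cs 8 0x87543210 10,
   .siz 9,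
   .siz 8,
   .cs 8 0x87543210 21,
   .siz 5,
   .siz 4,
   .deg 6 1 3 7 8,
   .spl,
   .siz 6,
   .cs 8 0x87543210 11,
   .deg 7 0 5 6 8,
   .siz 7,
   .siz 5,
   .siz 4,
   .siz 5,
   .siz 4,
   .siz 8,
   .spl,
   .siz 6,
   .apx 5 8 1 4 6,
   .deg 6 1 3 7 8,
   .siz 7,
   .spl,
   .siz 6,
   .cs 8 0x87543210 25,
   .deg 7 0 5 6 8,
   .siz 7,
   .siz 5,
   .siz 4,
   .spl,
   .siz 6,
   .cs 8 0x87543210 25,
   .deg 7 0 5 6 8,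
   .siz 7,
   .siz 4,
   .siz 5,
   .spl,
   .spl,
   .siz 7,
   .siz 9,
   .siz 8,
   .cs 8 0x87543210 17,
   .cs 8 0x87543210 18,
   .siz 4,
   .siz 9,
   .siz 8,
   .spl,
   .cs 8 0x87543210 19,
   .siz 9,
   .siz 8,
   .cs 8 0x87543210 17,
   .siz 5,
   .siz 4,
   .spl,
   .cs 8 0x87543210 19,
   .siz 9,
   .siz 8,
   .siz 5,
   .deg 8 2 4 6 7,
   .siz 4,
   .siz 4,
   .thr,
   .siz 7,
   .siz 9,
   .spl,
   .siz 6,
   .spl,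
   .siz 6,
   .siz 9,
   .cs 8 0x87543210 12,
   .cs 8 0x87543210 21,
   .siz 5,
   .siz 4,
   .spl,
   .siz 6,
   .cs 8 0x87543210 11,
   .cs 8 0x87543210 12,
   .siz 7,
   .siz 5,
   .siz 4,
   .spl,
   .siz 6,
   .cs 8 0x87543210 11,
   .siz 7,
   .cs 8 0x87543210 21,
   .siz 5,
   .siz 4,
   .siz 5,
   .siz 4,
   .spl,
   .spl,
   .siz 6,
   .siz 9,
   .siz 8,
   .siz 7,
   .cs 8 0x87643210 26,
   .siz 5,
   .siz 9,
   .siz 8,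
   .siz 7,
   .spl,
   .cs 8 0x87643210 27,
   .siz 9,
   .siz 8,
   .siz 7,
   .siz 4,
   .cs 8 0x87643210 28,
   .spl,
   .siz 5,
   .siz 9,
   .siz 8,
   .siz 7,
   .cs 8 0x87643210 29,
   .siz 6,
   .spl,
   .siz 6,
   .apx 5 8 1 4 6,
   .siz 7,
   .spl,
   .siz 6,
   .siz 8,
   .siz 7,
   .siz 9,
   .cs 8 0x87543210 22,
   .cs 8 0x87543210 23,
   .spl,
   .siz 6,
   .cs 8 0x87543210 25,
   .siz 7,
   .cs 8 0x87543210 24,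
   .siz 5,
   .siz 4,
   .spl,
   .siz 6,
   .cs 8 0x87543210 25,
   .siz 7,
   .cs 8 0x87543210 24,
   .siz 4,
   .siz 5,
   .spl,
   .spl,
   .cs 8 0x87543210 19,
   .siz 9,
   .cs 8 0x87543210 20,
   .siz 6,
   .siz 5,
   .siz 4,
   .siz 9,
   .spl,
   .cs 8 0x87543210 19,
   .siz 9,
   .siz 8,
   .cs 8 0x87543210 17,
   .siz 5,
   .siz 4,
   .spl,
   .siz 6,
   .siz 9,
   .cs 8 0x87543210 20,
   .cs 8 0x87543210 17,
   .siz 5,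
   .siz 4,
   .siz 5,
   .siz 4,
   .thr,
   .spl,
   .siz 6,
   .siz 8,
   .siz 9,
   .siz 7,
   .apx 7 8 0 5 6,
   .spl,
   .siz 6,
   .siz 8,
   .siz 9,
   .siz 7,
   .cs 8 0x87643210 30,
   .cs 8 0x87643210 31,
   .siz 9,
   .siz 5,
   .spl,
   .spl,
   .cs 8 0x87643210 32,
   .siz 9,
   .siz 8,
   .cs 8 0x87643210 33,
   .siz 4,
   .siz 5,
   .siz 9,
   .siz 8,
   .spl,
   .cs 8 0x87643210 34,
   .siz 9,
   .siz 8,
   .siz 7,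
   .siz 4,
   .cs 8 0x87643210 35,
   .siz 4,
   .apx 3 6 1 7 8,
   .spl,
   .siz 6,
   .apx 5 8 1 4 6,
   .spl,
   .siz 6,
   .apx 1 8 4 6 7,
   .apx 5 8 1 4 7,
   .siz 7,
   .siz 5,
   .siz 4,
   .spl,
   .siz 6,
   .cs 8 0x87543210 25,
   .siz 7,
   .deg 8 1 4 6 7,
   .siz 5,
   .siz 4,
   .siz 5,
   .siz 4,
   .spl,
   .apx 3 6 1 7 8,
   .siz 9,
   .spl,
   .cs 8 0x87543210 19,
   .siz 9,
   .siz 8,
   .siz 5,
   .cs 8 0x87543210 18,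
   .siz 4,
   .siz 5,
   .spl,
   .siz 6,
   .siz 9,
   .cs 8 0x87543210 20,
   .siz 5,
   .deg 8 2 4 6 7,
   .siz 4,
   .siz 4,
   .thr,
   .spl,
   .siz 6,
   .siz 8,
   .siz 9,
   .siz 7,
   .spl,
   .siz 6,
   .siz 8,
   .siz 9,
   .siz 7,
   .cs 8 0x87643210 36,
   .cs 8 0x87643210 37,
   .apx 7 8 0 5 6,
   .siz 9,
   .siz 4,
   .spl,
   .siz 5,
   .siz 9,
   .siz 8,
   .spl,
   .siz 5,
   .siz 9,
   .siz 8,
   .siz 7,
   .cs 8 0x87643210 38,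
   .siz 6,
   .spl,
   .siz 5,
   .siz 9,
   .siz 8,
   .cs 8 0x87643210 39,
   .siz 4,
   .cs 8 0x87643210 40,
   .spl,
   .siz 5,
   .siz 9,
   .siz 8,
   .siz 6,
   .cs 8 0x87643210 41,
   .siz 7,
   .spl,
   .siz 6,
   .apx 5 8 1 4 6,
   .spl,
   .siz 6,
   .apx 1 8 4 6 7,
   .apx 5 8 1 4 7,
   .siz 7,
   .siz 4,
   .siz 5,
   .spl,
   .siz 6,
   .cs 8 0x87543210 25,
   .siz 7,
   .deg 8 1 4 6 7,
   .siz 4,
   .siz 5,
   .siz 4,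
   .siz 5,
   .siz 4,
   .spl,
   .c8 42,
   .c8 43,
   .c8 44,
   .c8 45,
   .c8 46,
   .c8 47],
  [.spl,
   .c8 48,
   .c8 49,
   .c8 50,
   .c8 51,
   .c8 52,
   .c8 53,
   .spl,
   .thr,
   .siz 6,
   .siz 6,
   .spl,
   .spl,
   .siz 8,
   .cs 8 0x87543210 54,
   .siz 7,
   .siz 9,
   .cs 8 0x87543210 55,
   .siz 4,
   .spl,
   .cs 8 0x87543210 56,
   .siz 6,
   .cs 8 0x87543210 57,
   .siz 9,
   .siz 5,
   .siz 4,
   .spl,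
   .siz 7,
   .cs 8 0x87543210 54,
   .siz 8,
   .siz 9,
   .cs 8 0x87543210 55,
   .siz 4,
   .siz 9,
   .spl,
   .cs 8 0x87543210 56,
   .siz 5,
   .cs 8 0x87543210 57,
   .siz 9,
   .siz 6,
   .siz 4,
   .siz 4,
   .spl,
   .spl,
   .siz 7,
   .siz 6,
   .siz 8,
   .siz 9,
   .cs 8 0x87643210 58,
   .siz 5,
   .spl,
   .siz 6,
   .siz 7,
   .siz 8,
   .siz 9,
   .cs 8 0x87653210 59,
   .siz 5,
   .siz 8,
   .siz 9,
   .spl,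
   .cs 8 0x87643210 60,
   .cs 8 0x87643210 61,
   .siz 8,
   .siz 9,
   .siz 4,
   .siz 5,
   .siz 5,
   .siz 9,
   .spl,
   .spl,
   .cs 8 0x87543210 62,
   .siz 6,
   .siz 7,
   .cs 8 0x87543210 63,
   .siz 5,
   .siz 4,
   .siz 6,
   .spl,
   .siz 7,
   .siz 6,
   .cs 8 0x87543210 64,
   .cs 8 0x87543210 63,
   .siz 5,
   .siz 4,
   .spl,
   .cs 8 0x87543210 62,
   .siz 6,
   .cs 8 0x87543210 64,
   .siz 9,
   .siz 5,
   .siz 4,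
   .siz 5,
   .siz 4,
   .thr,
   .siz 7,
   .spl,
   .siz 6,
   .spl,
   .siz 6,
   .siz 9,
   .siz 7,
   .siz 8,
   .cs 8 0x87543210 65,
   .cs 8 0x87543210 66,
   .siz 7,
   .apx 3 8 0 4 6,
   .spl,
   .siz 6,
   .cs 8 0x87543210 67,
   .siz 7,
   .cs 8 0x87543210 68,
   .siz 5,
   .siz 4,
   .spl,
   .siz 6,
   .cs 8 0x87543210 67,
   .siz 7,
   .cs 8 0x87543210 68,
   .siz 4,
   .siz 5,
   .spl,
   .spl,
   .cs 8 0x87543210 56,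
   .siz 6,
   .cs 8 0x87543210 57,
   .siz 9,
   .siz 5,
   .siz 4,
   .spl,
   .siz 6,
   .cs 8 0x87543210 54,
   .cs 8 0x87543210 57,
   .siz 9,
   .siz 5,
   .siz 4,
   .spl,
   .cs 8 0x87543210 56,
   .cs 8 0x87543210 54,
   .siz 8,
   .siz 9,
   .siz 5,
   .siz 4,
   .siz 9,
   .siz 5,
   .siz 4,
   .spl,
   .spl,
   .siz 6,
   .siz 7,
   .siz 8,
   .siz 9,
   .cs 8 0x87643210 69,
   .siz 5,
   .siz 7,
   .siz 8,
   .siz 9,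
   .spl,
   .cs 8 0x87643210 70,
   .siz 7,
   .siz 8,
   .siz 9,
   .siz 4,
   .cs 8 0x87643210 71,
   .spl,
   .siz 5,
   .siz 7,
   .siz 8,
   .siz 9,
   .cs 8 0x87654210 72,
   .siz 6,
   .siz 9,
   .spl,
   .siz 6,
   .spl,
   .siz 6,
   .cs 8 0x87543210 73,
   .siz 7,
   .cs 8 0x87543210 63,
   .siz 5,
   .siz 4,
   .spl,
   .siz 6,
   .siz 7,
   .cs 8 0x87543210 64,
   .cs 8 0x87543210 63,
   .siz 5,
   .siz 4,
   .spl,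
   .siz 6,
   .cs 8 0x87543210 73,
   .cs 8 0x87543210 64,
   .siz 9,
   .siz 5,
   .siz 4,
   .siz 5,
   .siz 4,
   .thr,
   .siz 9,
   .spl,
   .siz 6,
   .siz 7,
   .deg 6 0 5 7 8,
   .apx 3 8 0 4 6,
   .spl,
   .siz 6,
   .siz 7,
   .deg 7 1 3 6 8,
   .cs 8 0x87543210 68,
   .siz 5,
   .siz 4,
   .spl,
   .siz 6,
   .siz 7,
   .deg 7 1 3 6 8,
   .cs 8 0x87543210 68,
   .siz 4,
   .siz 5,
   .spl,
   .spl,
   .siz 7,
   .cs 8 0x87543210 54,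
   .siz 8,
   .siz 9,
   .cs 8 0x87543210 55,
   .siz 4,
   .spl,
   .cs 8 0x87543210 56,
   .cs 8 0x87543210 54,
   .siz 8,
   .siz 9,
   .siz 5,
   .siz 4,
   .siz 8,
   .siz 9,
   .spl,
   .cs 8 0x87543210 56,
   .siz 5,
   .siz 8,
   .siz 9,
   .deg 8 2 4 6 7,
   .siz 4,
   .siz 4,
   .siz 8,
   .siz 9,
   .spl,
   .apx 3 6 2 7 8,
   .spl,
   .siz 6,
   .siz 7,
   .deg 7 1 3 6 8,
   .cs 8 0x87543210 63,
   .siz 5,
   .siz 4,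
   .deg 6 0 5 7 8,
   .spl,
   .cs 8 0x87543210 62,
   .cs 8 0x87543210 73,
   .siz 8,
   .siz 9,
   .siz 5,
   .siz 4,
   .siz 5,
   .siz 4,
   .thr,
   .siz 8,
   .spl,
   .siz 6,
   .apx 0 6 5 7 8,
   .spl,
   .siz 6,
   .siz 7,
   .siz 8,
   .siz 9,
   .cs 8 0x87543210 65,
   .cs 8 0x87543210 66,
   .siz 9,
   .spl,
   .siz 6,
   .cs 8 0x87543210 67,
   .apx 3 8 0 4 7,
   .siz 9,
   .siz 5,
   .siz 4,
   .spl,
   .siz 6,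
   .cs 8 0x87543210 67,
   .apx 3 8 0 4 7,
   .siz 9,
   .siz 4,
   .siz 5,
   .siz 9,
   .siz 9,
   .siz 9,
   .spl,
   .spl,
   .apx 3 7 1 6 8,
   .siz 6,
   .cs 8 0x87543210 64,
   .siz 9,
   .siz 5,
   .siz 4,
   .spl,
   .siz 6,
   .cs 8 0x87543210 73,
   .cs 8 0x87543210 64,
   .siz 9,
   .siz 5,
   .siz 4,
   .spl,
   .apx 3 7 1 6 8,
   .cs 8 0x87543210 73,
   .siz 8,
   .siz 9,
   .siz 5,
   .siz 4,
   .siz 9,
   .siz 5,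
   .siz 4,
   .thr,
   .spl,
   .siz 6,
   .siz 7,
   .siz 9,
   .siz 8,
   .apx 7 8 1 3 6,
   .spl,
   .siz 6,
   .siz 7,
   .siz 9,
   .siz 8,
   .cs 8 0x87643210 74,
   .cs 8 0x87643210 75,
   .spl,
   .siz 6,
   .spl,
   .siz 6,
   .deg 8 0 4 6 7,
   .siz 7,
   .cs 8 0x87543210 68,
   .siz 5,
   .siz 4,
   .spl,
   .siz 6,
   .siz 7,
   .apx 3 8 0 4 7,
   .apx 0 8 4 6 7,
   .siz 5,
   .siz 4,
   .apx 3 8 0 4 6,
   .siz 5,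
   .siz 4,
   .spl,
   .apx 5 6 0 7 8,
   .siz 5,
   .spl,
   .cs 8 0x87543210 56,
   .siz 5,
   .siz 8,
   .siz 9,
   .cs 8 0x87543210 55,
   .siz 4,
   .siz 9,
   .spl,
   .siz 6,
   .siz 5,
   .cs 8 0x87543210 57,
   .siz 9,
   .deg 8 2 4 6 7,
   .siz 4,
   .siz 4,
   .spl,
   .spl,
   .cs 8 0x87643210 76,
   .cs 8 0x87643210 77,
   .siz 8,
   .siz 9,
   .siz 4,
   .siz 5,
   .spl,
   .cs 8 0x87643210 78,
   .siz 7,
   .siz 8,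
   .siz 9,
   .siz 4,
   .cs 8 0x87653210 79,
   .siz 8,
   .siz 9,
   .siz 4,
   .apx 5 6 0 7 8,
   .siz 9,
   .siz 5,
   .thr,
   .spl,
   .siz 6,
   .siz 7,
   .siz 9,
   .siz 8,
   .spl,
   .siz 6,
   .siz 7,
   .siz 9,
   .siz 8,
   .cs 8 0x87643210 80,
   .cs 8 0x87643210 81,
   .apx 7 8 1 3 6,
   .spl,
   .siz 6,
   .spl,
   .siz 6,
   .deg 8 0 4 6 7,
   .siz 7,
   .cs 8 0x87543210 68,
   .siz 4,
   .siz 5,
   .spl,
   .siz 6,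
   .siz 7,
   .apx 3 8 0 4 7,
   .apx 0 8 4 6 7,
   .siz 4,
   .siz 5,
   .apx 3 8 0 4 6,
   .siz 4,
   .siz 5,
   .siz 4,
   .spl,
   .siz 5,
   .spl,
   .siz 5,
   .siz 7,
   .siz 8,
   .siz 9,
   .cs 8 0x87643210 82,
   .siz 6,
   .siz 8,
   .siz 9,
   .spl,
   .siz 5,
   .cs 8 0x87643210 83,
   .siz 8,
   .siz 9,
   .siz 4,
   .cs 8 0x87643210 84,
   .spl,
   .siz 5,
   .siz 6,
   .siz 8,
   .siz 9,
   .cs 8 0x87643210 85,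
   .siz 7,
   .siz 9,
   .siz 4],
  [.spl,
   .c8 86,
   .siz 9,
   .apx 3 7 0 4 6,
   .c8 87,
   .c8 88,
   .c8 89,
   .spl,
   .c8 90,
   .thr,
   .siz 6,
   .spl,
   .spl,
   .cs 8 0x87543210 91,
   .siz 9,
   .cs 8 0x87543210 92,
   .siz 6,
   .siz 5,
   .siz 4,
   .siz 9,
   .spl,
   .cs 8 0x87543210 91,
   .siz 9,
   .siz 8,
   .cs 8 0x87543210 93,
   .siz 5,
   .siz 4,
   .spl,
   .siz 6,
   .siz 9,
   .cs 8 0x87543210 92,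
   .cs 8 0x87543210 93,
   .siz 5,
   .siz 4,
   .siz 5,
   .siz 4,
   .spl,
   .siz 6,
   .deg 6 2 5 7 8,
   .cs 8 0x86543210 94,
   .spl,
   .siz 6,
   .apx 6 8 1 3 7,
   .siz 7,
   .cs 8 0x87543210 95,
   .siz 5,
   .siz 4,
   .siz 5,
   .siz 4,
   .spl,
   .spl,
   .cs 8 0x87643210 96,
   .siz 9,
   .siz 6,
   .cs 8 0x87543210 97,
   .siz 4,
   .siz 5,
   .siz 9,
   .spl,
   .siz 6,
   .siz 9,
   .apx 2 7 4 6 8,
   .cs 8 0x87543210 97,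
   .siz 4,
   .siz 5,
   .spl,
   .cs 8 0x87643210 98,
   .siz 9,
   .apx 2 7 4 6 8,
   .siz 8,
   .siz 4,
   .siz 5,
   .siz 4,
   .siz 5,
   .spl,
   .siz 7,
   .deg 6 2 5 7 8,
   .spl,
   .siz 7,
   .cs 8 0x87643210 99,
   .siz 6,
   .cs 8 0x87643210 100,
   .siz 5,
   .siz 4,
   .spl,
   .siz 7,
   .siz 8,
   .cs 8 0x87643210 101,
   .siz 9,
   .cs 8 0x87643210 102,
   .siz 4,
   .spl,
   .siz 7,
   .cs 8 0x87643210 103,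
   .siz 5,
   .cs 8 0x87643210 104,
   .siz 6,
   .siz 4,
   .siz 4,
   .spl,
   .spl,
   .siz 8,
   .siz 9,
   .siz 5,
   .cs 8 0x87543210 105,
   .apx 2 7 4 6 8,
   .siz 4,
   .siz 9,
   .siz 5,
   .spl,
   .cs 8 0x87543210 106,
   .siz 9,
   .siz 5,
   .cs 8 0x87543210 105,
   .siz 6,
   .siz 4,
   .spl,
   .cs 8 0x87543210 106,
   .siz 9,
   .siz 5,
   .siz 6,
   .deg 8 2 4 6 7,
   .siz 4,
   .siz 4,
   .c8 107,
   .c8 108,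
   .c8 109,
   .c8 110],
  [.spl,
   .c8 111,
   .c8 112,
   .c8 113,
   .apx 3 7 0 4 6,
   .c8 114,
   .c8 115,
   .spl,
   .thr,
   .siz 6,
   .spl,
   .spl,
   .apx 6 8 0 5 7,
   .siz 6,
   .siz 7,
   .cs 8 0x87543210 93,
   .siz 5,
   .siz 4,
   .siz 6,
   .apx 5 6 0 7 8,
   .spl,
   .apx 6 8 0 5 7,
   .siz 6,
   .cs 8 0x87543210 92,
   .siz 9,
   .siz 5,
   .siz 4,
   .siz 5,
   .siz 4,
   .spl,
   .spl,
   .siz 8,
   .cs 8 0x87543210 116,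
   .siz 7,
   .siz 9,
   .cs 8 0x87543210 117,
   .siz 4,
   .spl,
   .cs 8 0x87543210 118,
   .siz 6,
   .cs 8 0x87543210 119,
   .siz 9,
   .siz 5,
   .siz 4,
   .spl,
   .siz 7,
   .cs 8 0x87543210 116,
   .siz 8,
   .siz 9,
   .cs 8 0x87543210 117,
   .siz 4,
   .siz 9,
   .apx 5 6 0 7 8,
   .siz 4,
   .spl,
   .spl,
   .siz 8,
   .cs 8 0x87643210 120,
   .cs 8 0x87643210 121,
   .siz 9,
   .siz 4,
   .siz 5,
   .spl,
   .cs 8 0x87643210 122,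
   .cs 8 0x87643210 123,
   .siz 6,
   .siz 9,
   .siz 4,
   .siz 5,
   .spl,
   .apx 5 8 3 6 7,
   .siz 6,
   .cs 8 0x87643210 124,
   .siz 9,
   .siz 4,
   .siz 5,
   .siz 9,
   .siz 4,
   .siz 5,
   .siz 9,
   .spl,
   .apx 7 8 2 4 6,
   .spl,
   .cs 8 0x87543210 106,
   .siz 7,
   .siz 5,
   .cs 8 0x87543210 105,
   .siz 6,
   .siz 4,
   .siz 5,
   .spl,
   .siz 8,
   .cs 8 0x87543210 125,
   .siz 5,
   .siz 9,
   .apx 2 8 4 6 7,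
   .siz 4,
   .spl,
   .cs 8 0x87543210 106,
   .siz 6,
   .siz 5,
   .cs 8 0x87543210 105,
   .siz 7,
   .siz 4,
   .siz 4,
   .thr,
   .siz 6,
   .spl,
   .siz 6,
   .spl,
   .siz 6,
   .apx 6 8 0 5 7,
   .siz 7,
   .cs 8 0x87543210 93,
   .siz 5,
   .siz 4,
   .cs 8 0x86543210 126,
   .spl,
   .siz 6,
   .apx 6 8 0 5 7,
   .cs 8 0x87543210 92,
   .siz 9,
   .siz 5,
   .siz 4,
   .siz 5,
   .siz 4,
   .spl,
   .spl,
   .cs 8 0x87543210 118,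
   .siz 6,
   .cs 8 0x87543210 119,
   .siz 9,
   .siz 5,
   .siz 4,
   .spl,
   .siz 6,
   .cs 8 0x87543210 116,
   .cs 8 0x87543210 119,
   .siz 9,
   .siz 5,
   .siz 4,
   .spl,
   .cs 8 0x87543210 118,
   .cs 8 0x87543210 116,
   .siz 8,
   .siz 9,
   .siz 5,
   .siz 4,
   .siz 9,
   .siz 5,
   .siz 4,
   .spl,
   .spl,
   .cs 8 0x87643210 127,
   .cs 8 0x87643210 128,
   .siz 6,
   .siz 9,
   .siz 4,
   .siz 5,
   .spl,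
   .cs 8 0x87643210 129,
   .siz 8,
   .cs 8 0x87643210 130,
   .siz 9,
   .siz 4,
   .siz 5,
   .spl,
   .siz 6,
   .cs 8 0x87643210 131,
   .cs 8 0x87643210 132,
   .siz 9,
   .siz 4,
   .siz 5,
   .siz 9,
   .siz 4,
   .siz 5,
   .siz 9,
   .spl,
   .spl,
   .cs 8 0x87543210 106,
   .siz 7,
   .siz 5,
   .cs 8 0x87543210 105,
   .siz 6,
   .siz 4,
   .apx 7 8 2 4 6,
   .siz 5,
   .spl,
   .cs 8 0x87543210 106,
   .cs 8 0x87543210 125,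
   .siz 5,
   .siz 9,
   .siz 6,
   .siz 4,
   .siz 6,
   .siz 4,
   .c8 133,
   .c8 134,
   .c8 135,
   .c8 136],
  [.c7 0,
   .c7 1,
   .c7 2,
   .c7 3],
  [.spl,
   .thr,
   .siz 7,
   .spl,
   .spl,
   .siz 7,
   .siz 9,
   .siz 8,
   .siz 6,
   .cs 8 0x87643210 137,
   .siz 5,
   .siz 9,
   .siz 8,
   .spl,
   .siz 6,
   .siz 9,
   .siz 8,
   .siz 7,
   .cs 8 0x87643210 138,
   .siz 5,
   .spl,
   .cs 8 0x87643210 139,
   .siz 9,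
   .siz 8,
   .cs 8 0x87643210 140,
   .siz 4,
   .siz 5,
   .siz 5,
   .spl,
   .siz 6,
   .spl,
   .siz 6,
   .siz 9,
   .siz 8,
   .siz 7,
   .cs 8 0x87643210 141,
   .siz 5,
   .cs 8 0x86543210 94,
   .siz 7,
   .spl,
   .siz 6,
   .cs 8 0x87643210 142,
   .cs 8 0x87643210 143,
   .siz 7,
   .siz 4,
   .siz 5,
   .siz 5,
   .siz 9,
   .spl,
   .spl,
   .cs 8 0x87643210 144,
   .cs 8 0x87643210 145,
   .siz 6,
   .siz 7,
   .siz 4,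
   .siz 5,
   .spl,
   .cs 8 0x87643210 146,
   .siz 9,
   .siz 6,
   .cs 8 0x87543210 147,
   .siz 4,
   .siz 5,
   .siz 6,
   .spl,
   .siz 7,
   .cs 8 0x87643210 148,
   .siz 6,
   .cs 8 0x87543210 147,
   .siz 4,
   .siz 5,
   .siz 4,
   .siz 5,
   .spl,
   .siz 7,
   .apx 5 8 1 4 6,
   .siz 6,
   .spl,
   .siz 7,
   .siz 8,
   .siz 6,
   .siz 9,
   .cs 8 0x87643210 149,
   .siz 5,
   .spl,
   .siz 7,
   .cs 8 0x87643210 150,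
   .siz 6,
   .cs 8 0x87643210 151,
   .siz 4,
   .siz 5,
   .siz 5,
   .spl,
   .spl,
   .siz 8,
   .siz 9,
   .cs 8 0x87643210 152,
   .cs 8 0x87643210 153,
   .siz 4,
   .siz 5,
   .siz 9,
   .spl,
   .cs 8 0x87643210 154,
   .siz 9,
   .cs 8 0x87643210 155,
   .siz 6,
   .siz 4,
   .siz 5,
   .spl,
   .cs 8 0x87643210 156,
   .siz 9,
   .siz 6,
   .cs 8 0x87643210 157,
   .siz 4,
   .siz 5,
   .siz 4,
   .siz 5,
   .thr,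
   .siz 7,
   .siz 9,
   .spl,
   .spl,
   .siz 6,
   .siz 9,
   .siz 8,
   .siz 7,
   .apx 5 7 3 6 8,
   .siz 5,
   .siz 9,
   .siz 8,
   .siz 7,
   .spl,
   .cs 8 0x87643210 158,
   .siz 9,
   .siz 8,
   .siz 7,
   .siz 4,
   .cs 8 0x87643210 159,
   .spl,
   .siz 5,
   .siz 9,
   .siz 8,
   .siz 7,
   .apx 5 7 3 6 8,
   .siz 6,
   .siz 9,
   .spl,
   .spl,
   .apx 5 7 3 6 8,
   .siz 9,
   .siz 6,
   .cs 8 0x87543210 147,
   .siz 4,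
   .siz 5,
   .siz 9,
   .spl,
   .siz 6,
   .siz 9,
   .cs 8 0x87643210 160,
   .cs 8 0x87543210 147,
   .siz 4,
   .siz 5,
   .spl,
   .apx 5 7 3 6 8,
   .siz 9,
   .cs 8 0x87643210 161,
   .siz 8,
   .siz 4,
   .siz 5,
   .siz 4,
   .siz 5,
   .spl,
   .spl,
   .siz 7,
   .siz 9,
   .siz 6,
   .siz 8,
   .cs 8 0x87643210 162,
   .siz 5,
   .siz 9,
   .spl,
   .siz 6,
   .siz 9,
   .siz 7,
   .siz 8,
   .cs 8 0x87643210 163,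
   .siz 5,
   .siz 8,
   .spl,
   .cs 8 0x87643210 164,
   .siz 9,
   .cs 8 0x87643210 165,
   .siz 8,
   .siz 4,
   .siz 5,
   .siz 5,
   .siz 9,
   .thr,
   .siz 7,
   .siz 8,
   .spl,
   .spl,
   .siz 6,
   .siz 8,
   .siz 9,
   .siz 7,
   .cs 8 0x87643210 166,
   .siz 5,
   .siz 8,
   .siz 9,
   .siz 7,
   .spl,
   .cs 8 0x87643210 167,
   .siz 8,
   .siz 9,
   .siz 7,
   .siz 4,
   .cs 8 0x87643210 168,
   .spl,
   .siz 5,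
   .siz 8,
   .siz 9,
   .siz 7,
   .cs 8 0x87643210 169,
   .siz 6,
   .siz 9,
   .spl,
   .siz 6,
   .spl,
   .siz 6,
   .siz 9,
   .apx 2 8 4 6 7,
   .cs 8 0x87543210 147,
   .siz 4,
   .siz 5,
   .deg 6 1 3 7 8,
   .spl,
   .siz 6,
   .cs 8 0x87643210 170,
   .siz 7,
   .cs 8 0x87543210 147,
   .siz 4,
   .siz 5,
   .siz 4,
   .siz 5,
   .spl,
   .siz 6,
   .apx 5 8 1 4 6,
   .siz 7,
   .spl,
   .siz 6,
   .siz 8,
   .siz 7,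
   .siz 9,
   .cs 8 0x87643210 171,
   .siz 5,
   .spl,
   .siz 6,
   .cs 8 0x87643210 172,
   .siz 7,
   .cs 8 0x87643210 173,
   .siz 4,
   .siz 5,
   .siz 5,
   .spl,
   .spl,
   .apx 3 7 5 6 8,
   .siz 9,
   .cs 8 0x87643210 174,
   .siz 6,
   .siz 4,
   .siz 5,
   .siz 9,
   .deg 6 1 3 7 8,
   .spl,
   .siz 6,
   .siz 9,
   .cs 8 0x87643210 175,
   .cs 8 0x87643210 176,
   .siz 4,
   .siz 5,
   .siz 4,
   .siz 5,
   .thr,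
   .siz 7,
   .spl,
   .spl,
   .siz 6,
   .siz 9,
   .siz 8,
   .siz 7,
   .cs 8 0x87643210 177,
   .siz 5,
   .siz 9,
   .siz 8,
   .siz 7,
   .spl,
   .cs 8 0x87643210 178,
   .siz 9,
   .siz 8,
   .siz 7,
   .siz 4,
   .cs 8 0x87643210 179,
   .spl,
   .siz 5,
   .siz 9,
   .siz 8,
   .siz 7,
   .cs 8 0x87643210 180,
   .siz 6,
   .siz 7,
   .siz 9,
   .spl,
   .spl,
   .siz 7,
   .cs 8 0x87643210 181,
   .siz 6,
   .cs 8 0x87543210 147,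
   .siz 4,
   .siz 5,
   .spl,
   .cs 8 0x87643210 182,
   .siz 9,
   .apx 2 8 4 6 7,
   .siz 8,
   .siz 4,
   .siz 5,
   .spl,
   .siz 6,
   .cs 8 0x87643210 183,
   .siz 7,
   .cs 8 0x87543210 147,
   .siz 4,
   .siz 5,
   .spl,
   .cs 8 0x87643210 184,
   .siz 8,
   .cs 8 0x87643210 185,
   .siz 9,
   .siz 4,
   .siz 5,
   .siz 4,
   .siz 5,
   .spl,
   .spl,
   .siz 7,
   .siz 8,
   .siz 6,
   .siz 9,
   .cs 8 0x87643210 186,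
   .siz 5,
   .siz 8,
   .spl,
   .siz 6,
   .siz 8,
   .siz 7,
   .siz 9,
   .cs 8 0x87643210 187,
   .siz 5,
   .siz 9,
   .spl,
   .cs 8 0x87643210 188,
   .siz 8,
   .cs 8 0x87643210 189,
   .siz 9,
   .siz 4,
   .siz 5,
   .siz 5,
   .spl,
   .spl,
   .cs 8 0x87643210 190,
   .siz 9,
   .siz 6,
   .cs 8 0x87643210 191,
   .siz 4,
   .siz 5,
   .siz 9,
   .spl,
   .siz 6,
   .siz 9,
   .cs 8 0x87643210 192,
   .cs 8 0x87643210 193,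
   .siz 4,
   .siz 5,
   .spl,
   .cs 8 0x87643210 194,
   .siz 9,
   .cs 8 0x87643210 195,
   .siz 8,
   .siz 4,
   .siz 5,
   .siz 4,
   .siz 5,
   .thr,
   .siz 7,
   .spl,
   .spl,
   .cs 8 0x87643210 196,
   .siz 9,
   .siz 8,
   .cs 8 0x87643210 197,
   .siz 4,
   .siz 5,
   .siz 9,
   .siz 8,
   .spl,
   .cs 8 0x87643210 198,
   .siz 9,
   .siz 8,
   .siz 7,
   .siz 4,
   .cs 8 0x87643210 199,
   .siz 4,
   .spl,
   .siz 5,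
   .siz 9,
   .siz 8,
   .cs 8 0x87643210 200,
   .siz 4,
   .cs 8 0x87643210 201,
   .spl,
   .spl,
   .siz 6,
   .cs 8 0x87643210 202,
   .cs 8 0x87653210 203,
   .siz 7,
   .siz 4,
   .siz 5,
   .spl,
   .cs 8 0x87643210 204,
   .siz 9,
   .siz 8,
   .siz 7,
   .siz 4,
   .cs 8 0x87643210 205,
   .cs 8 0x86543210 94,
   .siz 7,
   .siz 4,
   .spl,
   .siz 5,
   .cs 8 0x87643210 206,
   .cs 8 0x87653210 207,
   .siz 7,
   .siz 4,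
   .siz 6,
   .siz 9,
   .siz 4,
   .spl,
   .spl,
   .siz 7,
   .cs 8 0x87643210 208,
   .siz 6,
   .cs 8 0x87643210 209,
   .siz 4,
   .siz 5,
   .apx 5 8 1 4 6,
   .spl,
   .siz 6,
   .apx 1 8 4 6 7,
   .siz 7,
   .cs 8 0x87643210 210,
   .siz 4,
   .siz 5,
   .spl,
   .cs 8 0x87643210 211,
   .siz 8,
   .cs 8 0x87643210 212,
   .siz 9,
   .siz 4,
   .siz 5,
   .siz 4,
   .siz 5,
   .siz 4,
   .thr,
   .siz 7,
   .spl,
   .siz 5,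
   .siz 9,
   .siz 8,
   .spl,
   .siz 5,
   .siz 9,
   .siz 8,
   .siz 7,
   .cs 8 0x87643210 213,
   .siz 6,
   .apx 3 6 1 7 8,
   .spl,
   .siz 5,
   .siz 9,
   .siz 8,
   .siz 6,
   .cs 8 0x87643210 214,
   .siz 7,
   .spl,
   .siz 5,
   .spl,
   .siz 5,
   .siz 9,
   .siz 8,
   .siz 7,
   .cs 8 0x87643210 215,
   .siz 6,
   .apx 3 6 1 7 8,
   .siz 7,
   .apx 5 6 2 7 8,
   .siz 6,
   .siz 9,
   .siz 5,
   .siz 5,
   .siz 5],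
  [.spl,
   .thr,
   .siz 7,
   .spl,
   .siz 6,
   .siz 7,
   .cs 8 0x86543210 126,
   .spl,
   .siz 6,
   .siz 7,
   .siz 8,
   .siz 9,
   .cs 8 0x87643210 216,
   .siz 5,
   .spl,
   .siz 6,
   .siz 7,
   .cs 8 0x87643210 217,
   .cs 8 0x87643210 218,
   .siz 4,
   .siz 5,
   .siz 5,
   .spl,
   .spl,
   .siz 7,
   .siz 6,
   .siz 8,
   .siz 9,
   .cs 8 0x87643210 219,
   .siz 5,
   .spl,
   .siz 6,
   .siz 7,
   .siz 8,
   .siz 9,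
   .cs 8 0x87643210 220,
   .siz 5,
   .siz 8,
   .siz 9,
   .spl,
   .cs 8 0x87643210 221,
   .cs 8 0x87643210 222,
   .siz 8,
   .siz 9,
   .siz 4,
   .siz 5,
   .siz 5,
   .spl,
   .siz 7,
   .spl,
   .siz 7,
   .siz 9,
   .siz 6,
   .siz 8,
   .cs 8 0x87643210 223,
   .siz 5,
   .siz 6,
   .apx 3 8 0 4 6,
   .spl,
   .siz 7,
   .cs 8 0x87643210 224,
   .siz 6,
   .cs 8 0x87643210 225,
   .siz 4,
   .siz 5,
   .siz 5,
   .spl,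
   .spl,
   .siz 8,
   .cs 8 0x87643210 226,
   .cs 8 0x87643210 227,
   .siz 9,
   .siz 4,
   .siz 5,
   .spl,
   .cs 8 0x87643210 228,
   .cs 8 0x87643210 229,
   .siz 6,
   .siz 9,
   .siz 4,
   .siz 5,
   .spl,
   .cs 8 0x87643210 230,
   .siz 6,
   .cs 8 0x87643210 231,
   .siz 9,
   .siz 4,
   .siz 5,
   .siz 9,
   .siz 4,
   .siz 5,
   .siz 9,
   .spl,
   .spl,
   .cs 8 0x87643210 232,
   .siz 7,
   .siz 6,
   .cs 8 0x87643210 233,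
   .siz 4,
   .siz 5,
   .spl,
   .siz 7,
   .cs 8 0x87543210 234,
   .siz 6,
   .cs 8 0x87643210 235,
   .siz 4,
   .siz 5,
   .siz 6,
   .spl,
   .cs 8 0x87643210 236,
   .cs 8 0x87543210 234,
   .siz 6,
   .siz 9,
   .siz 4,
   .siz 5,
   .siz 4,
   .siz 5,
   .thr,
   .siz 7,
   .siz 7,
   .spl,
   .spl,
   .siz 6,
   .siz 7,
   .siz 8,
   .siz 9,
   .cs 8 0x87643210 237,
   .siz 5,
   .siz 7,
   .siz 8,
   .siz 9,
   .spl,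
   .cs 8 0x87643210 238,
   .siz 7,
   .siz 8,
   .siz 9,
   .siz 4,
   .cs 8 0x87643210 239,
   .spl,
   .siz 5,
   .siz 7,
   .siz 8,
   .siz 9,
   .cs 8 0x87643210 240,
   .siz 6,
   .spl,
   .spl,
   .siz 7,
   .siz 9,
   .siz 6,
   .siz 8,
   .cs 8 0x87643210 241,
   .siz 5,
   .siz 9,
   .spl,
   .siz 6,
   .siz 9,
   .siz 7,
   .siz 8,
   .cs 8 0x87643210 242,
   .siz 5,
   .siz 8,
   .spl,
   .cs 8 0x87643210 243,
   .siz 9,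
   .cs 8 0x87643210 244,
   .siz 8,
   .siz 4,
   .siz 5,
   .siz 5,
   .spl,
   .spl,
   .cs 8 0x87643210 245,
   .cs 8 0x87643210 246,
   .siz 6,
   .siz 9,
   .siz 4,
   .siz 5,
   .spl,
   .cs 8 0x87643210 247,
   .siz 8,
   .cs 8 0x87643210 248,
   .siz 9,
   .siz 4,
   .siz 5,
   .spl,
   .siz 6,
   .cs 8 0x87643210 249,
   .cs 8 0x87643210 250,
   .siz 9,
   .siz 4,
   .siz 5,
   .siz 9,
   .siz 4,
   .siz 5,
   .siz 9,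
   .spl,
   .spl,
   .siz 7,
   .cs 8 0x87543210 234,
   .siz 6,
   .cs 8 0x87643210 251,
   .siz 4,
   .siz 5,
   .spl,
   .cs 8 0x87643210 252,
   .siz 9,
   .cs 8 0x87643210 253,
   .siz 8,
   .siz 4,
   .siz 5,
   .spl,
   .siz 6,
   .cs 8 0x87543210 234,
   .siz 7,
   .cs 8 0x87643210 254,
   .siz 4,
   .siz 5,
   .spl,
   .cs 8 0x87643210 255,
   .siz 8,
   .apx 2 8 4 6 7,
   .siz 9,
   .siz 4,
   .siz 5,
   .siz 4,
   .siz 5,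
   .thr,
   .siz 7,
   .spl,
   .spl,
   .siz 6,
   .siz 7,
   .siz 9,
   .siz 8,
   .cs 8 0x87643210 256,
   .siz 5,
   .siz 7,
   .siz 9,
   .siz 8,
   .spl,
   .cs 8 0x87643210 257,
   .siz 7,
   .siz 9,
   .siz 8,
   .siz 4,
   .cs 8 0x87643210 258,
   .spl,
   .siz 5,
   .siz 7,
   .siz 9,
   .siz 8,
   .cs 8 0x87643210 259,
   .siz 6,
   .siz 8,
   .spl,
   .siz 6,
   .spl,
   .siz 6,
   .siz 9,
   .siz 7,
   .siz 8,
   .cs 8 0x87643210 260,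
   .siz 5,
   .siz 7,
   .apx 3 8 0 4 6,
   .spl,
   .siz 6,
   .cs 8 0x87643210 261,
   .siz 7,
   .cs 8 0x87643210 262,
   .siz 4,
   .siz 5,
   .siz 5,
   .spl,
   .spl,
   .apx 5 7 3 6 8,
   .siz 6,
   .cs 8 0x87643210 263,
   .siz 9,
   .siz 4,
   .siz 5,
   .spl,
   .siz 6,
   .cs 8 0x87643210 264,
   .cs 8 0x87643210 265,
   .siz 9,
   .siz 4,
   .siz 5,
   .deg 6 0 5 7 8,
   .siz 9,
   .siz 4,
   .siz 5,
   .siz 9,
   .spl,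
   .siz 6,
   .spl,
   .siz 6,
   .cs 8 0x87543210 234,
   .siz 7,
   .cs 8 0x87643210 266,
   .siz 4,
   .siz 5,
   .deg 6 0 5 7 8,
   .spl,
   .siz 6,
   .cs 8 0x87543210 234,
   .apx 2 8 4 6 7,
   .siz 9,
   .siz 4,
   .siz 5,
   .siz 4,
   .siz 5,
   .thr,
   .siz 7,
   .spl,
   .spl,
   .siz 6,
   .siz 7,
   .siz 8,
   .siz 9,
   .apx 3 7 5 6 8,
   .siz 5,
   .siz 7,
   .siz 8,
   .siz 9,
   .spl,
   .cs 8 0x87643210 267,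
   .siz 7,
   .siz 8,
   .siz 9,
   .siz 4,
   .cs 8 0x87643210 268,
   .spl,
   .siz 5,
   .siz 7,
   .siz 8,
   .siz 9,
   .apx 3 7 5 6 8,
   .siz 6,
   .siz 9,
   .spl,
   .spl,
   .siz 7,
   .siz 8,
   .siz 6,
   .siz 9,
   .cs 8 0x87643210 269,
   .siz 5,
   .siz 8,
   .spl,
   .siz 6,
   .siz 8,
   .siz 7,
   .siz 9,
   .cs 8 0x87643210 270,
   .siz 5,
   .siz 9,
   .spl,
   .cs 8 0x87643210 271,
   .siz 8,
   .cs 8 0x87643210 272,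
   .siz 9,
   .siz 4,
   .siz 5,
   .siz 5,
   .siz 9,
   .siz 9,
   .spl,
   .spl,
   .apx 3 7 5 6 8,
   .cs 8 0x87543210 234,
   .siz 6,
   .siz 9,
   .siz 4,
   .siz 5,
   .spl,
   .apx 3 7 5 6 8,
   .siz 8,
   .cs 8 0x87643210 273,
   .siz 9,
   .siz 4,
   .siz 5,
   .spl,
   .siz 6,
   .cs 8 0x87543210 234,
   .cs 8 0x87643210 274,
   .siz 9,
   .siz 4,
   .siz 5,
   .siz 9,
   .siz 4,
   .siz 5,
   .thr,
   .siz 7,
   .spl,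
   .spl,
   .siz 6,
   .siz 7,
   .cs 8 0x87643210 275,
   .cs 8 0x87643210 276,
   .siz 4,
   .siz 5,
   .siz 7,
   .cs 8 0x86543210 126,
   .spl,
   .cs 8 0x87643210 277,
   .siz 7,
   .siz 8,
   .siz 9,
   .siz 4,
   .cs 8 0x87643210 278,
   .siz 4,
   .spl,
   .siz 5,
   .siz 7,
   .cs 8 0x87643210 279,
   .cs 8 0x87643210 280,
   .siz 4,
   .siz 6,
   .spl,
   .spl,
   .cs 8 0x87643210 281,
   .cs 8 0x87643210 282,
   .siz 8,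
   .siz 9,
   .siz 4,
   .siz 5,
   .spl,
   .cs 8 0x87643210 283,
   .siz 7,
   .siz 8,
   .siz 9,
   .siz 4,
   .cs 8 0x87643210 284,
   .siz 8,
   .siz 9,
   .siz 4,
   .spl,
   .siz 5,
   .cs 8 0x87643210 285,
   .siz 8,
   .siz 9,
   .siz 4,
   .cs 8 0x87643210 286,
   .spl,
   .spl,
   .siz 7,
   .cs 8 0x87643210 287,
   .siz 6,
   .cs 8 0x87643210 288,
   .siz 4,
   .siz 5,
   .spl,
   .cs 8 0x87643210 289,
   .siz 9,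
   .cs 8 0x87643210 290,
   .siz 8,
   .siz 4,
   .siz 5,
   .spl,
   .siz 6,
   .cs 8 0x87643210 291,
   .siz 7,
   .apx 0 8 4 6 7,
   .siz 4,
   .siz 5,
   .apx 3 8 0 4 6,
   .siz 4,
   .siz 5,
   .siz 4,
   .siz 9,
   .siz 4,
   .thr,
   .siz 7,
   .spl,
   .siz 5,
   .siz 7,
   .apx 5 6 0 7 8,
   .spl,
   .siz 5,
   .siz 7,
   .siz 8,
   .siz 9,
   .cs 8 0x87643210 292,
   .siz 6,
   .apx 3 6 2 7 8,
   .siz 6,
   .spl,
   .siz 5,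
   .spl,
   .siz 5,
   .siz 7,
   .siz 8,
   .siz 9,
   .cs 8 0x87643210 293,
   .siz 6,
   .siz 8,
   .siz 9,
   .apx 5 6 0 7 8,
   .spl,
   .siz 5,
   .siz 6,
   .siz 8,
   .siz 9,
   .cs 8 0x87643210 294,
   .siz 7,
   .siz 5,
   .siz 5,
   .siz 9,
   .siz 5],
  [.spl,
   .c8 295,
   .thr,
   .siz 9,
   .siz 7,
   .siz 9,
   .siz 4,
   .spl,
   .siz 5,
   .cs 8 0x86543210 25,
   .apx 5 8 1 4 6,
   .cs 8 0x86543210 24,
   .siz 4,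
   .cs 8 0x86543210 23,
   .siz 4,
   .c8 296,
   .c8 297,
   .c8 298,
   .c8 299,
   .spl,
   .c8 300,
   .c8 301,
   .c8 302,
   .thr,
   .siz 7,
   .siz 9,
   .spl,
   .siz 5,
   .cs 8 0x86543210 67,
   .apx 3 8 0 4 6,
   .cs 8 0x86543210 68,
   .siz 4,
   .cs 8 0x86543210 66,
   .siz 4,
   .siz 9,
   .siz 4,
   .c8 303,
   .c8 304],
  [.spl,
   .c8 305,
   .thr,
   .siz 9,
   .spl,
   .spl,
   .siz 7,
   .siz 9,
   .siz 6,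
   .siz 8,
   .cs 8 0x87643210 306,
   .siz 5,
   .siz 9,
   .spl,
   .siz 6,
   .siz 9,
   .siz 7,
   .siz 8,
   .cs 8 0x87643210 307,
   .siz 5,
   .siz 8,
   .spl,
   .cs 8 0x87643210 308,
   .siz 9,
   .cs 8 0x87643210 309,
   .siz 8,
   .siz 4,
   .siz 5,
   .siz 5,
   .siz 9,
   .spl,
   .siz 5,
   .siz 9,
   .apx 3 6 0 4 8,
   .cs 8 0x86543210 310,
   .siz 4,
   .cs 8 0x86543210 311,
   .spl,
   .apx 3 6 0 4 8,
   .siz 9,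
   .cs 8 0x86543210 312,
   .siz 8,
   .cs 8 0x86543210 313,
   .cs 8 0x86543210 314,
   .siz 9,
   .c8 315,
   .c8 316,
   .c8 317,
   .apx 3 6 0 4 7,
   .spl,
   .c8 318,
   .c8 319,
   .c8 320,
   .c8 321,
   .c8 322,
   .c8 323],
  [.spl,
   .c8 324,
   .apx 5 7 1 4 6,
   .c8 325,
   .c8 326,
   .c8 327,
   .c8 328,
   .spl,
   .thr,
   .siz 6,
   .spl,
   .spl,
   .siz 8,
   .siz 9,
   .siz 7,
   .cs 8 0x87543210 329,
   .cs 8 0x87543210 330,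
   .siz 4,
   .siz 9,
   .spl,
   .siz 7,
   .siz 9,
   .siz 8,
   .cs 8 0x87543210 329,
   .cs 8 0x87543210 330,
   .siz 4,
   .spl,
   .cs 8 0x87543210 331,
   .siz 9,
   .cs 8 0x87543210 332,
   .siz 6,
   .siz 5,
   .siz 4,
   .apx 3 6 1 7 8,
   .siz 4,
   .spl,
   .spl,
   .apx 6 8 1 3 7,
   .cs 8 0x87543210 333,
   .siz 7,
   .siz 6,
   .siz 5,
   .siz 4,
   .spl,
   .apx 6 8 1 3 7,
   .siz 9,
   .cs 8 0x87543210 334,
   .siz 6,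
   .siz 5,
   .siz 4,
   .apx 3 6 1 7 8,
   .siz 6,
   .siz 5,
   .siz 4,
   .siz 9,
   .spl,
   .apx 7 8 2 4 6,
   .spl,
   .siz 8,
   .siz 9,
   .siz 5,
   .cs 8 0x87543210 335,
   .apx 2 8 4 6 7,
   .siz 4,
   .siz 5,
   .spl,
   .cs 8 0x87543210 336,
   .cs 8 0x87543210 337,
   .siz 5,
   .siz 7,
   .siz 6,
   .siz 4,
   .spl,
   .cs 8 0x87543210 336,
   .cs 8 0x87543210 337,
   .siz 5,
   .siz 6,
   .siz 7,
   .siz 4,
   .siz 4,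
   .spl,
   .spl,
   .siz 8,
   .siz 9,
   .cs 8 0x87643210 338,
   .cs 8 0x87643210 339,
   .siz 4,
   .siz 5,
   .siz 9,
   .spl,
   .apx 3 8 5 6 7,
   .siz 9,
   .cs 8 0x87643210 340,
   .siz 6,
   .siz 4,
   .siz 5,
   .spl,
   .cs 8 0x87643210 341,
   .siz 9,
   .siz 6,
   .cs 8 0x87643210 342,
   .siz 4,
   .siz 5,
   .siz 4,
   .siz 5,
   .c8 343,
   .c8 344,
   .thr,
   .siz 6,
   .spl,
   .spl,
   .cs 8 0x87543210 331,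
   .siz 9,
   .cs 8 0x87543210 332,
   .siz 6,
   .siz 5,
   .siz 4,
   .siz 9,
   .spl,
   .cs 8 0x87543210 331,
   .siz 9,
   .siz 8,
   .cs 8 0x87543210 329,
   .siz 5,
   .siz 4,
   .spl,
   .siz 6,
   .siz 9,
   .cs 8 0x87543210 332,
   .cs 8 0x87543210 329,
   .siz 5,
   .siz 4,
   .siz 5,
   .siz 4,
   .spl,
   .siz 6,
   .spl,
   .siz 6,
   .siz 9,
   .cs 8 0x87543210 334,
   .apx 6 8 1 3 7,
   .siz 5,
   .siz 4,
   .cs 8 0x86543210 94,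
   .spl,
   .siz 6,
   .cs 8 0x87543210 333,
   .siz 7,
   .apx 6 8 1 3 7,
   .siz 5,
   .siz 4,
   .siz 5,
   .siz 4,
   .siz 9,
   .spl,
   .spl,
   .cs 8 0x87543210 336,
   .cs 8 0x87543210 337,
   .siz 5,
   .siz 7,
   .siz 6,
   .siz 4,
   .spl,
   .cs 8 0x87543210 336,
   .siz 9,
   .siz 5,
   .cs 8 0x87543210 335,
   .siz 6,
   .siz 4,
   .siz 5,
   .apx 7 8 2 4 6,
   .siz 6,
   .siz 4,
   .spl,
   .spl,
   .cs 8 0x87643210 345,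
   .siz 9,
   .siz 6,
   .cs 8 0x87643210 346,
   .siz 4,
   .siz 5,
   .siz 9,
   .spl,
   .siz 6,
   .siz 9,
   .cs 8 0x87643210 347,
   .cs 8 0x87643210 348,
   .siz 4,
   .siz 5,
   .spl,
   .cs 8 0x87643210 349,
   .siz 9,
   .cs 8 0x87643210 350,
   .siz 8,
   .siz 4,
   .siz 5,
   .siz 4,
   .siz 5,
   .c8 351,
   .thr,
   .siz 6,
   .siz 4,
   .siz 4,
   .siz 9,
   .siz 4,
   .siz 5],
  [.spl,
   .c8 352,
   .c8 353,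
   .apx 5 7 1 4 6,
   .siz 9,
   .c8 354,
   .c8 355,
   .spl,
   .c8 356,
   .c8 357,
   .c8 358,
   .thr,
   .siz 6,
   .spl,
   .siz 6,
   .spl,
   .siz 6,
   .cs 8 0x87543210 359,
   .siz 7,
   .apx 6 8 0 5 7,
   .siz 5,
   .siz 4,
   .cs 8 0x86543210 126,
   .deg 6 2 3 7 8,
   .siz 5,
   .siz 4,
   .spl,
   .spl,
   .cs 8 0x87543210 360,
   .siz 6,
   .cs 8 0x87543210 334,
   .siz 9,
   .siz 5,
   .siz 4,
   .spl,
   .siz 6,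
   .cs 8 0x87543210 333,
   .cs 8 0x87543210 334,
   .siz 9,
   .siz 5,
   .siz 4,
   .spl,
   .cs 8 0x87543210 360,
   .cs 8 0x87543210 333,
   .siz 8,
   .siz 9,
   .siz 5,
   .siz 4,
   .siz 9,
   .siz 5,
   .siz 4,
   .spl,
   .siz 7,
   .spl,
   .siz 7,
   .siz 9,
   .cs 8 0x87643210 361,
   .siz 8,
   .cs 8 0x87643210 362,
   .siz 4,
   .spl,
   .siz 7,
   .cs 8 0x87643210 363,
   .siz 6,
   .cs 8 0x87643210 364,
   .siz 5,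
   .siz 4,
   .deg 6 2 3 7 8,
   .spl,
   .siz 7,
   .cs 8 0x87643210 365,
   .siz 5,
   .cs 8 0x87643210 366,
   .siz 6,
   .siz 4,
   .siz 4,
   .spl,
   .spl,
   .siz 8,
   .cs 8 0x87543210 337,
   .siz 5,
   .siz 9,
   .apx 2 7 4 6 8,
   .siz 4,
   .spl,
   .cs 8 0x87543210 336,
   .cs 8 0x87543210 337,
   .siz 5,
   .siz 9,
   .siz 6,
   .siz 4,
   .siz 5,
   .siz 9,
   .spl,
   .cs 8 0x87543210 336,
   .siz 6,
   .siz 5,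
   .siz 9,
   .deg 8 2 4 6 7,
   .siz 4,
   .siz 4,
   .spl,
   .spl,
   .cs 8 0x87643210 367,
   .cs 8 0x87543210 368,
   .siz 6,
   .siz 9,
   .siz 4,
   .siz 5,
   .spl,
   .cs 8 0x87643210 369,
   .siz 8,
   .apx 2 7 4 6 8,
   .siz 9,
   .siz 4,
   .siz 5,
   .spl,
   .siz 6,
   .cs 8 0x87543210 368,
   .apx 2 7 4 6 8,
   .siz 9,
   .siz 4,
   .siz 5,
   .siz 9,
   .siz 4,
   .siz 5,
   .c8 370,
   .c8 371],
  [.c7 4,
   .c7 5,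
   .c7 6,
   .c7 7],
  [.spl,
   .apx 3 6 0 4 7,
   .c8 372,
   .c8 373,
   .c8 374,
   .c8 375,
   .c8 376,
   .spl,
   .apx 3 6 0 4 7,
   .c8 377,
   .c8 378,
   .c8 379,
   .c8 380,
   .c8 381,
   .spl,
   .apx 5 7 1 4 6,
   .c8 382,
   .c8 383,
   .c8 384,
   .c8 385,
   .c8 386,
   .spl,
   .c8 387,
   .c8 388,
   .c8 389,
   .c8 390,
   .c8 391,
   .c8 392],
  [.spl,
   .c8 393,
   .c8 394,
   .c8 395,
   .thr,
   .spl,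
   .spl,
   .siz 7,
   .siz 8,
   .siz 6,
   .siz 9,
   .cs 8 0x87643210 396,
   .siz 5,
   .siz 8,
   .spl,
   .siz 6,
   .siz 8,
   .siz 7,
   .siz 9,
   .cs 8 0x87643210 397,
   .siz 5,
   .siz 9,
   .spl,
   .cs 8 0x87643210 398,
   .siz 8,
   .cs 8 0x87643210 399,
   .siz 9,
   .siz 4,
   .siz 5,
   .siz 5,
   .siz 9,
   .spl,
   .siz 5,
   .spl,
   .siz 5,
   .siz 8,
   .apx 5 7 1 4 8,
   .siz 9,
   .siz 4,
   .cs 8 0x87543210 400,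
   .spl,
   .siz 5,
   .cs 8 0x87543210 401,
   .deg 8 0 5 6 7,
   .siz 9,
   .siz 4,
   .siz 6,
   .siz 9,
   .siz 4,
   .spl,
   .siz 5,
   .cs 8 0x87543210 401,
   .siz 6,
   .siz 9,
   .siz 4,
   .cs 8 0x87543210 400,
   .siz 9,
   .spl,
   .spl,
   .siz 7,
   .siz 8,
   .cs 8 0x87543210 402,
   .siz 9,
   .cs 8 0x87543210 403,
   .siz 6,
   .siz 8,
   .spl,
   .apx 3 8 0 4 7,
   .siz 8,
   .siz 5,
   .siz 9,
   .siz 4,
   .cs 8 0x87543210 404,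
   .siz 9,
   .spl,
   .apx 3 8 0 4 7,
   .siz 8,
   .siz 4,
   .siz 9,
   .siz 5,
   .cs 8 0x87543210 404,
   .apx 3 8 0 4 6,
   .siz 9,
   .c8 405,
   .apx 5 7 1 4 6,
   .spl,
   .c8 406,
   .c8 407,
   .c8 408,
   .c8 409,
   .c8 410,
   .c8 411]] = true := by
  decide +kernel

end D9

end CR
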