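import Pool.Agent.Lib.MP_6f5d36_co.FDefs
import Pool.Agent.Lib.MP_6f5d36_co.D9.T00
import Pool.Agent.Lib.MP_6f5d36_co.D9.T01
import Pool.Agent.Lib.MP_6f5d36_co.D9.T02
import Pool.Agent.Lib.MP_6f5d36_co.D9.T03
import Pool.Agent.Lib.MP_6f5d36_co.D9.T04
import Pool.Agent.Lib.MP_6f5d36_co.D9.T05
import Pool.Agent.Lib.MP_6f5d36_co.D9.T06

/-!
# MP_6f5d36_co : levels 8 and 9, the patterns which are not killed before (generated)
-/

set_option autoImplicit false
set_option linter.all false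

namespace CR

namespace D9

open L9

theorem k4439 (h8 : Sound8) : Kill9 0xa0508651040 (wl [[20550], [], [], [], [58178], [211537]]) :=
  kill9_of_chk (okd_sound h8 g8_0_ok) (okd_sound h8 g7_0_ok) c4439

theorem k4440 (h8 : Sound8) : Kill9 0x1088e30d1040 (wl [[39622], [], [22956], [40133], [], []]) :=
  kill9_of_chk (okd_sound h8 g8_0_ok) (okd_sound h8 g7_0_ok) c4440

theorem k4441 (h8 : Sound8) : Kill9 0x108859451040 (wl [[], [84595], [119178], [], [], [217922]]) :=
  kill9_of_chk (okd_sound h8 g8_0_ok) (okd_sound h8 g7_0_ok) c4441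

theorem k4442 (h8 : Sound8) : Kill9 0x1174425a040 (wl [[98838], [4723], [], [15370], [], []]) :=
  kill9_of_chk (okd_sound h8 g8_0_ok) (okd_sound h8 g7_0_ok) c4442

theorem k4444 (h8 : Sound8) : Kill9 0x15171a45a040 (wl [[70174], [8819], [], [23562], [], []]) :=
  kill9_of_chk (okd_sound h8 g8_0_ok) (okd_sound h8 g7_0_ok) c4444

theorem k4452 (h8 : Sound8) : Kill9 0x10c25a049000 (wl [[], [118898], [14252], [142603], [], []]) :=
  kill9_of_chk (okd_sound h8 g8_0_ok) (okd_sound h8 g7_0_ok) c4452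

theorem k4454 (h8 : Sound8) : Kill9 0x1084e3091040 (wl [[], [165425], [], [], [24773], [218629]]) :=
  kill9_of_chk (okd_sound h8 g8_0_ok) (okd_sound h8 g7_0_ok) c4454

theorem k4456 (h8 : Sound8) : Kill9 0x10c4c8691040 (wl [[22286], [], [], [], [24773], [202281]]) :=
  kill9_of_chk (okd_sound h8 g8_0_ok) (okd_sound h8 g7_0_ok) c4456

theorem k4462 (h8 : Sound8) : Kill9 0xea9194d1040 (wl [[], [], [], [36133], [59586], [214786]]) :=
  kill9_of_chk (okd_sound h8 g8_0_ok) (okd_sound h8 g7_0_ok) c4462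

theorem k4464 (h8 : Sound8) : Kill9 0x10ab0245a040 (wl [[8230], [5300], [], [], [91170], []]) :=
  kill9_of_chk (okd_sound h8 g8_0_ok) (okd_sound h8 g7_0_ok) c4464

theorem k4466 (h8 : Sound8) : Kill9 0x12028a45a040 (wl [[], [100913], [], [], [59715], [217417]]) :=
  kill9_of_chk (okd_sound h8 g8_0_ok) (okd_sound h8 g7_0_ok) c4466

theorem k4467 (h8 : Sound8) : Kill9 0x8970445a040 (wl [[], [170355], [8619], [], [], [211474]]) :=
  kill9_of_chk (okd_sound h8 g8_0_ok) (okd_sound h8 g7_0_ok) c4467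

theorem k4468 (h8 : Sound8) : Kill9 0xe8b22650240 (wl [[], [35701], [], [], [57571], [209604]]) :=
  kill9_of_chk (okd_sound h8 g8_0_ok) (okd_sound h8 g7_0_ok) c4468

theorem k4471 (h8 : Sound8) : Kill9 0xe1520651040 (wl [[], [109364], [180642], [], [], [215810]]) :=
  kill9_of_chk (okd_sound h8 g8_0_ok) (okd_sound h8 g7_0_ok) c4471

theorem k4473 (h8 : Sound8) : Kill9 0x11b0225a040 (wl [[], [4725], [], [15370], [], [217929]]) :=
  kill9_of_chk (okd_sound h8 g8_0_ok) (okd_sound h8 g7_0_ok) c4473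

theorem k4476 (h8 : Sound8) : Kill9 0x108119091040 (wl [[54558], [], [], [], [27217], [209745]]) :=
  kill9_of_chk (okd_sound h8 g8_0_ok) (okd_sound h8 g7_0_ok) c4476

theorem k4478 (h8 : Sound8) : Kill9 0x16454d31a040 (wl [[17518], [], [46508], [76834], [], []]) :=
  kill9_of_chk (okd_sound h8 g8_0_ok) (okd_sound h8 g7_0_ok) c4478

theorem k4479 (h8 : Sound8) : Kill9 0x149b188d0240 (wl [[39054], [], [], [113933], [189029], []]) :=
  kill9_of_chk (okd_sound h8 g8_0_ok) (okd_sound h8 g7_0_ok) c4479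

theorem k4480 (h8 : Sound8) : Kill9 0x8b70445a040 (wl [[], [80243], [], [], [191235], [211474]]) :=
  kill9_of_chk (okd_sound h8 g8_0_ok) (okd_sound h8 g7_0_ok) c4480

theorem k4484 (h8 : Sound8) : Kill9 0x15214445a040 (wl [[53510], [], [140188], [], [], [209426]]) :=
  kill9_of_chk (okd_sound h8 g8_0_ok) (okd_sound h8 g7_0_ok) c4484

theorem k4486 (h8 : Sound8) : Kill9 0x6c920651000 (wl [[2190], [21681], [67970], [], [], []]) :=
  kill9_of_chk (okd_sound h8 g8_0_ok) (okd_sound h8 g7_0_ok) c4486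

theorem k4488 (h8 : Sound8) : Kill9 0x1044d80d1240 (wl [[], [119025], [18333], [], [25386], []]) :=
  kill9_of_chk (okd_sound h8 g8_0_ok) (okd_sound h8 g7_0_ok) c4488

theorem k4489 (h8 : Sound8) : Kill9 0x9c744691200 (wl [[145710], [131313], [], [], [], [215715]]) :=
  kill9_of_chk (okd_sound h8 g8_0_ok) (okd_sound h8 g7_0_ok) c4489

theorem k4493 (h8 : Sound8) : Kill9 0x14d92211a040 (wl [[], [], [103827], [175265], [], [202466]]) :=
  kill9_of_chk (okd_sound h8 g8_0_ok) (okd_sound h8 g7_0_ok) c4493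

theorem k4498 (h8 : Sound8) : Kill9 0x8374c690240 (wl [[101006], [50928], [], [], [], [210708]]) :=
  kill9_of_chk (okd_sound h8 g8_0_ok) (okd_sound h8 g7_0_ok) c4498

theorem k4499 (h8 : Sound8) : Kill9 0x556e3091040 (wl [[2262], [], [], [72868], [], [211028]]) :=
  kill9_of_chk (okd_sound h8 g8_0_ok) (okd_sound h8 g7_0_ok) c4499

theorem k4501 (h8 : Sound8) : Kill9 0xdc50c690240 (wl [[172254], [], [103844], [], [60138], []]) :=
  kill9_of_chk (okd_sound h8 g8_0_ok) (okd_sound h8 g7_0_ok) c4501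

theorem k4505 (h8 : Sound8) : Kill9 0x10b4e3091040 (wl [[], [177713], [], [], [24773], [218629]]) :=
  kill9_of_chk (okd_sound h8 g8_0_ok) (okd_sound h8 g7_0_ok) c4505

theorem k4507 (h8 : Sound8) : Kill9 0x1502e3450240 (wl [[], [152757], [168856], [], [], [205123]]) :=
  kill9_of_chk (okd_sound h8 g8_0_ok) (okd_sound h8 g7_0_ok) c4507

theorem k4509 (h8 : Sound8) : Kill9 0x16275c651000 (wl [[172390], [79732], [], [134378], [], []]) :=
  kill9_of_chk (okd_sound h8 g8_0_ok) (okd_sound h8 g7_0_ok) c4509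

theorem k4512 (h8 : Sound8) : Kill9 0x45684651200 (wl [[], [55092], [], [], [124044], [213770]]) :=
  kill9_of_chk (okd_sound h8 g8_0_ok) (okd_sound h8 g7_0_ok) c4512

theorem k4516 (h8 : Sound8) : Kill9 0xb96211a040 (wl [[120086], [], [5523], [11425], [], []]) :=
  kill9_of_chk (okd_sound h8 g8_0_ok) (okd_sound h8 g7_0_ok) c4516

theorem k4518 (h8 : Sound8) : Kill9 0xaaaec690240 (wl [[], [], [42900], [72941], [58457], []]) :=
  kill9_of_chk (okd_sound h8 g8_0_ok) (okd_sound h8 g7_0_ok) c4518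

theorem k4519 (h8 : Sound8) : Kill9 0x1458ec650240 (wl [[], [], [], [48474], [125259], [211484]]) :=
  kill9_of_chk (okd_sound h8 g8_0_ok) (okd_sound h8 g7_0_ok) c4519

theorem k4521 (h8 : Sound8) : Kill9 0x2a954651200 (wl [[2382], [152753], [], [73044], [], []]) :=
  kill9_of_chk (okd_sound h8 g8_0_ok) (okd_sound h8 g7_0_ok) c4521

theorem k4522 (h8 : Sound8) : Kill9 0x2296c651200 (wl [[1358], [88756], [], [73002], [], []]) :=
  kill9_of_chk (okd_sound h8 g8_0_ok) (okd_sound h8 g7_0_ok) c4522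

theorem k4524 (h8 : Sound8) : Kill9 0x2a954651000 (wl [[2382], [152753], [], [73044], [], []]) :=
  kill9_of_chk (okd_sound h8 g8_0_ok) (okd_sound h8 g7_0_ok) c4524

theorem k4525 (h8 : Sound8) : Kill9 0xd58cc8d1000 (wl [[165214], [], [], [], [157201], [214594]]) :=
  kill9_of_chk (okd_sound h8 g8_0_ok) (okd_sound h8 g7_0_ok) c4525

theorem k4527 (h8 : Sound8) : Kill9 0x22adc651200 (wl [[], [137457], [916], [40035], [], []]) :=
  kill9_of_chk (okd_sound h8 g8_0_ok) (okd_sound h8 g7_0_ok) c4527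

theorem k4529 (h8 : Sound8) : Kill9 0x6aae3448000 (wl [[], [], [], [44116], [191066], [217946]]) :=
  kill9_of_chk (okd_sound h8 g8_0_ok) (okd_sound h8 g7_0_ok) c4529

theorem k4531 (h8 : Sound8) : Kill9 0xa9763448000 (wl [[], [], [], [40097], [191115], [218443]]) :=
  kill9_of_chk (okd_sound h8 g8_0_ok) (okd_sound h8 g7_0_ok) c4531

theorem k4533 (h8 : Sound8) : Kill9 0x25312651200 (wl [[43790], [181617], [], [], [189130], []]) :=
  kill9_of_chk (okd_sound h8 g8_0_ok) (okd_sound h8 g7_0_ok) c4533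

theorem k4536 (h8 : Sound8) : Kill9 0x14476069a240 (wl [[34470], [], [], [], [57472], [201744]]) :=
  kill9_of_chk (okd_sound h8 g8_0_ok) (okd_sound h8 g7_0_ok) c4536

theorem k4537 (h8 : Sound8) : Kill9 0x14270489a240 (wl [[], [], [], [146465], [57472], [209665]]) :=
  kill9_of_chk (okd_sound h8 g8_0_ok) (okd_sound h8 g7_0_ok) c4537

theorem k4539 (h8 : Sound8) : Kill9 0x5d50c690240 (wl [[172390], [], [38309], [40075], [], []]) :=
  kill9_of_chk (okd_sound h8 g8_0_ok) (okd_sound h8 g7_0_ok) c4539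

theorem k4540 (h8 : Sound8) : Kill9 0x15969c45a200 (wl [[], [], [22924], [117858], [], [215692]]) :=
  kill9_of_chk (okd_sound h8 g8_0_ok) (okd_sound h8 g7_0_ok) c4540

theorem k4543 (h8 : Sound8) : Kill9 0x161b12651200 (wl [[], [4337], [176538], [], [90826], []]) :=
  kill9_of_chk (okd_sound h8 g8_0_ok) (okd_sound h8 g7_0_ok) c4543

theorem k4544 (h8 : Sound8) : Kill9 0x25312651000 (wl [[43790], [181617], [], [], [189130], []]) :=
  kill9_of_chk (okd_sound h8 g8_0_ok) (okd_sound h8 g7_0_ok) c4544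

theorem k4545 (h8 : Sound8) : Kill9 0x162b12651000 (wl [[11022], [17777], [176538], [], [], []]) :=
  kill9_of_chk (okd_sound h8 g8_0_ok) (okd_sound h8 g7_0_ok) c4545

theorem k4547 (h8 : Sound8) : Kill9 0x14ae3448000 (wl [[], [], [71065], [179434], [125530], []]) :=
  kill9_of_chk (okd_sound h8 g8_0_ok) (okd_sound h8 g7_0_ok) c4547

theorem k4548 (h8 : Sound8) : Kill9 0xe1754651200 (wl [[111758], [], [4513], [48156], [], []]) :=
  kill9_of_chk (okd_sound h8 g8_0_ok) (okd_sound h8 g7_0_ok) c4548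

theorem k4550 (h8 : Sound8) : Kill9 0x10474c4d1000 (wl [[108758], [], [164261], [113820], [], []]) :=
  kill9_of_chk (okd_sound h8 g8_0_ok) (okd_sound h8 g7_0_ok) c4550

theorem k4552 (h8 : Sound8) : Kill9 0xe1754651000 (wl [[111750], [], [4513], [15388], [], []]) :=
  kill9_of_chk (okd_sound h8 g8_0_ok) (okd_sound h8 g7_0_ok) c4552

theorem k4554 (h8 : Sound8) : Kill9 0x11c54c691200 (wl [[135470], [8434], [], [52483], [], []]) :=
  kill9_of_chk (okd_sound h8 g8_0_ok) (okd_sound h8 g7_0_ok) c4554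

theorem k4555 (h8 : Sound8) : Kill9 0x1044ec651000 (wl [[8390], [], [], [68948], [157482], []]) :=
  kill9_of_chk (okd_sound h8 g8_0_ok) (okd_sound h8 g7_0_ok) c4555

theorem k4556 (h8 : Sound8) : Kill9 0xa332c651000 (wl [[], [], [], [76899], [191042], [215569]]) :=
  kill9_of_chk (okd_sound h8 g8_0_ok) (okd_sound h8 g7_0_ok) c4556

theorem k4558 (h8 : Sound8) : Kill9 0x10a44425a040 (wl [[], [], [140202, 72101], [76908], [], [207619]]) :=
  kill9_of_chk (okd_sound h8 g8_0_ok) (okd_sound h8 g7_0_ok) c4558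

theorem k4561 (h8 : Sound8) : Kill9 0xcd70345a040 (wl [[103622], [], [12683], [], [], [205507]]) :=
  kill9_of_chk (okd_sound h8 g8_0_ok) (okd_sound h8 g7_0_ok) c4561

theorem k4563 (h8 : Sound8) : Kill9 0x44519091040 (wl [[174694], [], [], [7300], [], [209745]]) :=
  kill9_of_chk (okd_sound h8 g8_0_ok) (okd_sound h8 g7_0_ok) c4563

theorem k4567 (h8 : Sound8) : Kill9 0x10c099451040 (wl [[170022], [118897], [52107], [], [], []]) :=
  kill9_of_chk (okd_sound h8 g8_0_ok) (okd_sound h8 g7_0_ok) c4567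

theorem k4569 (h8 : Sound8) : Kill9 0x158163091040 (wl [[], [], [], [11347], [26707, 91165], [213779]]) :=
  kill9_of_chk (okd_sound h8 g8_0_ok) (okd_sound h8 g7_0_ok) c4569

theorem k4570 (h8 : Sound8) : Kill9 0x10311a091040 (wl [[], [], [86428], [], [25427], [207443]]) :=
  kill9_of_chk (okd_sound h8 g8_0_ok) (okd_sound h8 g7_0_ok) c4570

theorem k4572 (h8 : Sound8) : Kill9 0x10c4e3091040 (wl [[], [181809], [], [138588], [188649], []]) :=
  kill9_of_chk (okd_sound h8 g8_0_ok) (okd_sound h8 g7_0_ok) c4572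

theorem k4573 (h8 : Sound8) : Kill9 0x618e0691040 (wl [[70470], [153201], [], [], [], [206987, 218629]]) :=
  kill9_of_chk (okd_sound h8 g8_0_ok) (okd_sound h8 g7_0_ok) c4573

theorem k4574 (h8 : Sound8) : Kill9 0xa22e0691040 (wl [[], [136753], [51074], [], [], [214242]]) :=
  kill9_of_chk (okd_sound h8 g8_0_ok) (okd_sound h8 g7_0_ok) c4574

theorem k4575 (h8 : Sound8) : Kill9 0x5c71211a240 (wl [[], [146035], [], [], [156000], [218898]]) :=
  kill9_of_chk (okd_sound h8 g8_0_ok) (okd_sound h8 g7_0_ok) c4575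

theorem k4576 (h8 : Sound8) : Kill9 0x1138a0691040 (wl [[], [], [182146], [154898], [], [218629]]) :=
  kill9_of_chk (okd_sound h8 g8_0_ok) (okd_sound h8 g7_0_ok) c4576

theorem k4579 (h8 : Sound8) : Kill9 0x93aec6d0240 (wl [[], [], [42908], [72917], [57997], []]) :=
  kill9_of_chk (okd_sound h8 g8_0_ok) (okd_sound h8 g7_0_ok) c4579

theorem k4580 (h8 : Sound8) : Kill9 0x1455200d1240 (wl [[41166], [141940], [], [], [57864, 25434], []]) :=
  kill9_of_chk (okd_sound h8 g8_0_ok) (okd_sound h8 g7_0_ok) c4580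

theorem k4582 (h8 : Sound8) : Kill9 0x9cb046d1240 (wl [[32982], [4850, 131378], [], [], [], [205505]]) :=
  kill9_of_chk (okd_sound h8 g8_0_ok) (okd_sound h8 g7_0_ok) c4582

theorem k4583 (h8 : Sound8) : Kill9 0x6a96531a040 (wl [[170766, 108334], [38193], [37802], [], [], []]) :=
  kill9_of_chk (okd_sound h8 g8_0_ok) (okd_sound h8 g7_0_ok) c4583

theorem k4584 (h8 : Sound8) : Kill9 0x1622e3451000 (wl [[], [], [], [187482], [157250], [214545]]) :=
  kill9_of_chk (okd_sound h8 g8_0_ok) (okd_sound h8 g7_0_ok) c4584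

theorem k4586 (h8 : Sound8) : Kill9 0x2572069a240 (wl [[], [], [84363], [], [58643], [201744, 202915]]) :=
  kill9_of_chk (okd_sound h8 g8_0_ok) (okd_sound h8 g7_0_ok) c4586

theorem k4587 (h8 : Sound8) : Kill9 0x8d36c65a040 (wl [[116910], [119089, 74547], [], [150787], [], []]) :=
  kill9_of_chk (okd_sound h8 g8_0_ok) (okd_sound h8 g7_0_ok) c4587

theorem k4588 (h8 : Sound8) : Kill9 0x1458dc650240 (wl [[], [], [], [48474, 171371], [125131], [211484]]) :=
  kill9_of_chk (okd_sound h8 g8_0_ok) (okd_sound h8 g7_0_ok) c4588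

theorem k4590 (h8 : Sound8) : Kill9 0x1ab23250240 (wl [[1310], [84147, 69939], [], [], [], [210149]]) :=
  kill9_of_chk (okd_sound h8 g8_0_ok) (okd_sound h8 g7_0_ok) c4590

theorem k4593 (h8 : Sound8) : Kill9 0x12869c45a240 (wl [[], [], [34688], [], [58384, 60075], [209024]]) :=
  kill9_of_chk (okd_sound h8 g8_0_ok) (okd_sound h8 g7_0_ok) c4593

theorem k4594 (h8 : Sound8) : Kill9 0x15a2e3451000 (wl [[], [], [], [187482], [157250], [210449]]) :=
  kill9_of_chk (okd_sound h8 g8_0_ok) (okd_sound h8 g7_0_ok) c4594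

theorem k4596 (h8 : Sound8) : Kill9 0x44698451000 (wl [[], [2931], [], [], [191185], [214149, 213093]]) :=
  kill9_of_chk (okd_sound h8 g8_0_ok) (okd_sound h8 g7_0_ok) c4596

theorem k4598 (h8 : Sound8) : Kill9 0x2275c2d1000 (wl [[107654, 137422], [], [930], [7260], [], []]) :=
  kill9_of_chk (okd_sound h8 g8_0_ok) (okd_sound h8 g7_0_ok) c4598

theorem k4600 (h8 : Sound8) : Kill9 0x6cae2690240 (wl [[38038, 68262], [11124], [], [3305], [], []]) :=
  kill9_of_chk (okd_sound h8 g8_1_ok) (okd_sound h8 g7_1_ok) c4600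

theorem k4601 (h8 : Sound8) : Kill9 0x125ae2688000 (wl [[], [], [], [11490, 167148], [124259], [211612]]) :=
  kill9_of_chk (okd_sound h8 g8_1_ok) (okd_sound h8 g7_1_ok) c4601

theorem k4602 (h8 : Sound8) : Kill9 0x65684652240 (wl [[], [5297, 11124], [], [], [25353], [205409]]) :=
  kill9_of_chk (okd_sound h8 g8_1_ok) (okd_sound h8 g7_1_ok) c4602

theorem k4603 (h8 : Sound8) : Kill9 0x1422e3451000 (wl [[], [], [], [187482], [157250], [198161]]) :=
  kill9_of_chk (okd_sound h8 g8_1_ok) (okd_sound h8 g7_1_ok) c4603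

theorem k4605 (h8 : Sound8) : Kill9 0x16572069a240 (wl [[], [], [84363], [], [58643], [201744, 202915]]) :=
  kill9_of_chk (okd_sound h8 g8_1_ok) (okd_sound h8 g7_1_ok) c4605

theorem k4607 (h8 : Sound8) : Kill9 0x998d4651200 (wl [[76118], [], [], [80924], [25165], []]) :=
  kill9_of_chk (okd_sound h8 g8_1_ok) (okd_sound h8 g7_1_ok) c4607

theorem k4608 (h8 : Sound8) : Kill9 0x6350c691200 (wl [[38510], [], [], [52483], [25741], []]) :=
  kill9_of_chk (okd_sound h8 g8_1_ok) (okd_sound h8 g7_1_ok) c4608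

theorem k4609 (h8 : Sound8) : Kill9 0x998d4651000 (wl [[76118], [], [], [80924], [25101], []]) :=
  kill9_of_chk (okd_sound h8 g8_1_ok) (okd_sound h8 g7_1_ok) c4609

theorem k4610 (h8 : Sound8) : Kill9 0xdd319448000 (wl [[], [], [], [11347, 134236], [58635], [202905]]) :=
  kill9_of_chk (okd_sound h8 g8_1_ok) (okd_sound h8 g7_1_ok) c4610

theorem k4611 (h8 : Sound8) : Kill9 0x123ae1688000 (wl [[], [], [], [11490, 167148], [124259], [211612]]) :=
  kill9_of_chk (okd_sound h8 g8_1_ok) (okd_sound h8 g7_1_ok) c4611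

theorem k4612 (h8 : Sound8) : Kill9 0x25898451000 (wl [[], [], [104833, 105345], [], [58501], [207443]]) :=
  kill9_of_chk (okd_sound h8 g8_1_ok) (okd_sound h8 g7_1_ok) c4612

theorem k4614 (h8 : Sound8) : Kill9 0x14c912651000 (wl [[], [69873], [111002], [], [58946, 189130], []]) :=
  kill9_of_chk (okd_sound h8 g8_1_ok) (okd_sound h8 g7_1_ok) c4614

theorem k4615 (h8 : Sound8) : Kill9 0x2c8e1691200 (wl [[], [38448], [], [146713, 105571], [], [217292]]) :=
  kill9_of_chk (okd_sound h8 g8_1_ok) (okd_sound h8 g7_1_ok) c4615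

theorem k4617 (h8 : Sound8) : Kill9 0x1446d8451000 (wl [[185478], [142131], [], [], [], [210498]]) :=
  kill9_of_chk (okd_sound h8 g8_1_ok) (okd_sound h8 g7_1_ok) c4617

theorem k4618 (h8 : Sound8) : Kill9 0x12cacc6d1000 (wl [[], [], [165292], [], [59409, 191060], [209756]]) :=
  kill9_of_chk (okd_sound h8 g8_1_ok) (okd_sound h8 g7_1_ok) c4618

theorem k4619 (h8 : Sound8) : Kill9 0x154912651000 (wl [[51870], [], [45466], [], [91714], []]) :=
  kill9_of_chk (okd_sound h8 g8_1_ok) (okd_sound h8 g7_1_ok) c4619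

theorem k4620 (h8 : Sound8) : Kill9 0x14d898451000 (wl [[], [], [], [187716], [90394], [213706, 206931]]) :=
  kill9_of_chk (okd_sound h8 g8_1_ok) (okd_sound h8 g7_1_ok) c4620

theorem k4621 (h8 : Sound8) : Kill9 0x144718451000 (wl [[185478], [142131], [], [], [], [210498]]) :=
  kill9_of_chk (okd_sound h8 g8_1_ok) (okd_sound h8 g7_1_ok) c4621

theorem k4622 (h8 : Sound8) : Kill9 0x1416a3448000 (wl [[], [], [103833], [187531, 44116], [91914], []]) :=
  kill9_of_chk (okd_sound h8 g8_1_ok) (okd_sound h8 g7_1_ok) c4622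

theorem k4623 (h8 : Sound8) : Kill9 0x69511688000 (wl [[], [], [13721, 132492], [], [92369], [206602]]) :=
  kill9_of_chk (okd_sound h8 g8_1_ok) (okd_sound h8 g7_1_ok) c4623

theorem k4624 (h8 : Sound8) : Kill9 0x12bb0d8d1000 (wl [[], [], [], [150813], [58897], [218690]]) :=
  kill9_of_chk (okd_sound h8 g8_1_ok) (okd_sound h8 g7_1_ok) c4624

theorem k4625 (h8 : Sound8) : Kill9 0x12b112651000 (wl [[14430, 104678], [41139], [], [], [], [205859]]) :=
  kill9_of_chk (okd_sound h8 g8_1_ok) (okd_sound h8 g7_1_ok) c4625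

theorem k4630 (h8 : Sound8) : Kill9 0xeb503289000 (wl [[32902], [], [], [7499], [], [219777, 210153]]) :=
  kill9_of_chk (okd_sound h8 g8_1_ok) (okd_sound h8 g7_1_ok) c4630

theorem k4631 (h8 : Sound8) : Kill9 0xc429a049000 (wl [[], [], [], [101716], [156953, 190625], [213514]]) :=
  kill9_of_chk (okd_sound h8 g8_1_ok) (okd_sound h8 g7_1_ok) c4631

theorem k4633 (h8 : Sound8) : Kill9 0x11475c4d1000 (wl [[119110], [14003, 184565], [147861], [], [], []]) :=
  kill9_of_chk (okd_sound h8 g8_1_ok) (okd_sound h8 g7_1_ok) c4633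

theorem k4636 (h8 : Sound8) : Kill9 0x16b304651200 (wl [[], [], [], [187491, 146652], [157268], [201889]]) :=
  kill9_of_chk (okd_sound h8 g8_1_ok) (okd_sound h8 g7_1_ok) c4636

theorem k4637 (h8 : Sound8) : Kill9 0xe16ac651200 (wl [[148998], [], [], [19747], [], [201425]]) :=
  kill9_of_chk (okd_sound h8 g8_1_ok) (okd_sound h8 g7_1_ok) c4637

theorem k4638 (h8 : Sound8) : Kill9 0xe2761691200 (wl [[], [169520], [], [], [91275, 190293], [214890]]) :=
  kill9_of_chk (okd_sound h8 g8_1_ok) (okd_sound h8 g7_1_ok) c4638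

theorem k4642 (h8 : Sound8) : Kill9 0x558e0688000 (wl [[], [], [117163, 38804], [142562], [], [211612]]) :=
  kill9_of_chk (okd_sound h8 g8_1_ok) (okd_sound h8 g7_1_ok) c4642

theorem k4643 (h8 : Sound8) : Kill9 0x6a8d4691200 (wl [[183062, 80030], [], [140706], [40148], [], []]) :=
  kill9_of_chk (okd_sound h8 g8_1_ok) (okd_sound h8 g7_1_ok) c4643

theorem k4644 (h8 : Sound8) : Kill9 0xab30c651000 (wl [[50958, 178782], [103153], [], [76899], [], []]) :=
  kill9_of_chk (okd_sound h8 g8_1_ok) (okd_sound h8 g7_1_ok) c4644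

theorem k4645 (h8 : Sound8) : Kill9 0xad8cc65a200 (wl [[], [], [42368], [7457], [], [197714, 213260]]) :=
  kill9_of_chk (okd_sound h8 g8_1_ok) (okd_sound h8 g7_1_ok) c4645

theorem k4646 (h8 : Sound8) : Kill9 0x42c3089000 (wl [[138014], [153393], [], [138525], [157481], []]) :=
  kill9_of_chk (okd_sound h8 g8_1_ok) (okd_sound h8 g7_1_ok) c4646

theorem k4647 (h8 : Sound8) : Kill9 0xc3323449000 (wl [[120038], [], [], [56459, 11603], [], [217612]]) :=
  kill9_of_chk (okd_sound h8 g8_1_ok) (okd_sound h8 g7_1_ok) c4647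

theorem k4650 (h8 : Sound8) : Kill9 0x10829a049000 (wl [[], [], [166804, 22933], [23644], [], [203025]]) :=
  kill9_of_chk (okd_sound h8 g8_1_ok) (okd_sound h8 g7_1_ok) c4650

theorem k4652 (h8 : Sound8) : Kill9 0x55040d1000 (wl [[173926], [170354], [], [175457], [190810], []]) :=
  kill9_of_chk (okd_sound h8 g8_1_ok) (okd_sound h8 g7_1_ok) c4652

theorem k4653 (h8 : Sound8) : Kill9 0xa14da091040 (wl [[119830], [180465], [72604], [], [189993], []]) :=
  kill9_of_chk (okd_sound h8 g8_1_ok) (okd_sound h8 g7_1_ok) c4653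

theorem k4655 (h8 : Sound8) : Kill9 0x12215d89a240 (wl [[2350], [], [15268], [], [60098, 60099], []]) :=
  kill9_of_chk (okd_sound h8 g8_1_ok) (okd_sound h8 g7_1_ok) c4655

theorem k4656 (h8 : Sound8) : Kill9 0x159114651240 (wl [[], [], [], [101393], [59522], [200864]]) :=
  kill9_of_chk (okd_sound h8 g8_1_ok) (okd_sound h8 g7_1_ok) c4656

theorem k4658 (h8 : Sound8) : Kill9 0xca84325a040 (wl [[], [12658], [], [], [190986], [207555]]) :=
  kill9_of_chk (okd_sound h8 g8_1_ok) (okd_sound h8 g7_1_ok) c4658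

theorem k4659 (h8 : Sound8) : Kill9 0x1182c3650240 (wl [[116766], [143667], [177037], [121961], [], []]) :=
  kill9_of_chk (okd_sound h8 g8_1_ok) (okd_sound h8 g7_1_ok) c4659

theorem k4661 (h8 : Sound8) : Kill9 0x1190245a040 (wl [[], [5300], [], [15378], [], [205658, 218243]]) :=
  kill9_of_chk (okd_sound h8 g8_1_ok) (okd_sound h8 g7_1_ok) c4661

theorem k4663 (h8 : Sound8) : Kill9 0x8c68245a040 (wl [[], [79220], [], [183315], [], [211474]]) :=
  kill9_of_chk (okd_sound h8 g8_1_ok) (okd_sound h8 g7_1_ok) c4663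

theorem k4664 (h8 : Sound8) : Kill9 0x1120c245a040 (wl [[], [88178], [], [175330], [58410], [211474]]) :=
  kill9_of_chk (okd_sound h8 g8_1_ok) (okd_sound h8 g7_1_ok) c4664

theorem k4665 (h8 : Sound8) : Kill9 0xc828425a040 (wl [[88670], [], [], [56355], [], [201564]]) :=
  kill9_of_chk (okd_sound h8 g8_1_ok) (okd_sound h8 g7_1_ok) c4665

theorem k4666 (h8 : Sound8) : Kill9 0x1044d8091240 (wl [[41294], [86257], [17821], [], [25386], []]) :=
  kill9_of_chk (okd_sound h8 g8_1_ok) (okd_sound h8 g7_1_ok) c4666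

theorem k4672 (h8 : Sound8) : Kill9 0x940c425a040 (wl [[], [176306], [1933], [], [158362], []]) :=
  kill9_of_chk (okd_sound h8 g8_1_ok) (okd_sound h8 g7_1_ok) c4672

theorem k4673 (h8 : Sound8) : Kill9 0xa40c425a040 (wl [[], [176434], [1933], [], [190498], []]) :=
  kill9_of_chk (okd_sound h8 g8_1_ok) (okd_sound h8 g7_1_ok) c4673

theorem k4674 (h8 : Sound8) : Kill9 0x14a90585a040 (wl [[], [12402], [], [], [91170], [205635]]) :=
  kill9_of_chk (okd_sound h8 g8_1_ok) (okd_sound h8 g7_1_ok) c4674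

theorem k4675 (h8 : Sound8) : Kill9 0xa30c325a040 (wl [[], [176434], [1933], [], [125596], []]) :=
  kill9_of_chk (okd_sound h8 g8_1_ok) (okd_sound h8 g7_1_ok) c4675

theorem k4676 (h8 : Sound8) : Kill9 0x10a2d1650240 (wl [[121358], [176497], [86952], [175173], [], []]) :=
  kill9_of_chk (okd_sound h8 g8_1_ok) (okd_sound h8 g7_1_ok) c4676

theorem k4680 (h8 : Sound8) : Kill9 0xac0c445a040 (wl [[], [143730], [], [], [157853], [213674]]) :=
  kill9_of_chk (okd_sound h8 g8_2_ok) (okd_sound h8 g7_2_ok) c4680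

theorem k4681 (h8 : Sound8) : Kill9 0x14c2e1650240 (wl [[107534], [78001], [], [], [59546], [202003]]) :=
  kill9_of_chk (okd_sound h8 g8_2_ok) (okd_sound h8 g7_2_ok) c4681

theorem k4682 (h8 : Sound8) : Kill9 0xc35200d1240 (wl [[41294], [119089], [14245], [], [25322], []]) :=
  kill9_of_chk (okd_sound h8 g8_2_ok) (okd_sound h8 g7_2_ok) c4682

theorem k4683 (h8 : Sound8) : Kill9 0x10aa8445a040 (wl [[], [], [140693], [89218], [], [207107]]) :=
  kill9_of_chk (okd_sound h8 g8_2_ok) (okd_sound h8 g7_2_ok) c4683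

theorem k4686 (h8 : Sound8) : Kill9 0xac0c465a040 (wl [[], [143730], [], [52418], [157853], [213667]]) :=
  kill9_of_chk (okd_sound h8 g8_2_ok) (okd_sound h8 g7_2_ok) c4686

theorem k4687 (h8 : Sound8) : Kill9 0x1088a265a040 (wl [[], [117364], [151947], [], [], [217923]]) :=
  kill9_of_chk (okd_sound h8 g8_2_ok) (okd_sound h8 g7_2_ok) c4687

theorem k4688 (h8 : Sound8) : Kill9 0xc8d1688000 (wl [[34126], [6961], [75658], [150753], [], []]) :=
  kill9_of_chk (okd_sound h8 g8_2_ok) (okd_sound h8 g7_2_ok) c4688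

theorem k4693 (h8 : Sound8) : Kill9 0x1550e229a240 (wl [[187166], [144241], [13697], [], [], [207384]]) :=
  kill9_of_chk (okd_sound h8 g8_2_ok) (okd_sound h8 g7_2_ok) c4693

theorem k4697 (h8 : Sound8) : Kill9 0x658e169a200 (wl [[], [], [84396], [101739], [], [209056, 213633]]) :=
  kill9_of_chk (okd_sound h8 g8_2_ok) (okd_sound h8 g7_2_ok) c4697

theorem k4698 (h8 : Sound8) : Kill9 0x818e4651000 (wl [[], [], [177564], [72897, 118059], [191001], []]) :=
  kill9_of_chk (okd_sound h8 g8_2_ok) (okd_sound h8 g7_2_ok) c4698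

theorem k4699 (h8 : Sound8) : Kill9 0x21163451000 (wl [[79054, 79566, 80590], [], [], [81100], [], [213338]]) :=
  kill9_of_chk (okd_sound h8 g8_2_ok) (okd_sound h8 g7_2_ok) c4699

theorem k4701 (h8 : Sound8) : Kill9 0x1198d4651000 (wl [[47710], [], [], [118059, 48221], [25101], []]) :=
  kill9_of_chk (okd_sound h8 g8_2_ok) (okd_sound h8 g7_2_ok) c4701

theorem k4702 (h8 : Sound8) : Kill9 0xd18c4651000 (wl [[47198], [], [], [113868], [], [196962]]) :=
  kill9_of_chk (okd_sound h8 g8_2_ok) (okd_sound h8 g7_2_ok) c4702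

theorem k4703 (h8 : Sound8) : Kill9 0x1198d4651200 (wl [[47710], [], [], [118059, 48221], [25165], []]) :=
  kill9_of_chk (okd_sound h8 g8_2_ok) (okd_sound h8 g7_2_ok) c4703

theorem k4704 (h8 : Sound8) : Kill9 0xc176c651000 (wl [[117086], [], [4513], [44131, 52323], [], []]) :=
  kill9_of_chk (okd_sound h8 g8_2_ok) (okd_sound h8 g7_2_ok) c4704

theorem k4706 (h8 : Sound8) : Kill9 0x9d96c31a040 (wl [[170318, 104622, 116526], [76017], [], [76907], [], []]) :=
  kill9_of_chk (okd_sound h8 g8_2_ok) (okd_sound h8 g7_2_ok) c4706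

theorem k4707 (h8 : Sound8) : Kill9 0x1596ac45a200 (wl [[], [], [], [183394], [124555], [215692]]) :=
  kill9_of_chk (okd_sound h8 g8_2_ok) (okd_sound h8 g7_2_ok) c4707

theorem k4708 (h8 : Sound8) : Kill9 0x1138d8451000 (wl [[137446], [], [49562], [], [], [210498, 198749]]) :=
  kill9_of_chk (okd_sound h8 g8_2_ok) (okd_sound h8 g7_2_ok) c4708

theorem k4709 (h8 : Sound8) : Kill9 0x14296469a240 (wl [[115494], [], [], [], [57368], [202432, 202883, 215115]]) :=
  kill9_of_chk (okd_sound h8 g8_2_ok) (okd_sound h8 g7_2_ok) c4709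

theorem k4711 (h8 : Sound8) : Kill9 0x1158d8451000 (wl [[137446], [], [49562], [], [], [210498]]) :=
  kill9_of_chk (okd_sound h8 g8_2_ok) (okd_sound h8 g7_2_ok) c4711

theorem k4712 (h8 : Sound8) : Kill9 0x628e069a240 (wl [[68262], [], [181121], [68773], [], [213825]]) :=
  kill9_of_chk (okd_sound h8 g8_2_ok) (okd_sound h8 g7_2_ok) c4712

theorem k4713 (h8 : Sound8) : Kill9 0x68463051000 (wl [[109158], [], [22426, 22946, 111018], [], [], [217930]]) :=
  kill9_of_chk (okd_sound h8 g8_2_ok) (okd_sound h8 g7_2_ok) c4713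

theorem k4714 (h8 : Sound8) : Kill9 0x6d663051000 (wl [[132694], [], [21907, 22947, 99741], [101533], [], []]) :=
  kill9_of_chk (okd_sound h8 g8_2_ok) (okd_sound h8 g7_2_ok) c4714

theorem k4715 (h8 : Sound8) : Kill9 0x6215d89a240 (wl [[13102], [], [113548], [], [60099], [200936]]) :=
  kill9_of_chk (okd_sound h8 g8_2_ok) (okd_sound h8 g7_2_ok) c4715

theorem k4716 (h8 : Sound8) : Kill9 0x1614d2651200 (wl [[47710], [], [], [], [58881, 58883, 155852], [200929]]) :=
  kill9_of_chk (okd_sound h8 g8_2_ok) (okd_sound h8 g7_2_ok) c4716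

theorem k4717 (h8 : Sound8) : Kill9 0x129a8c65a200 (wl [[], [], [174976], [], [92522, 25811, 188589], [198362]]) :=
  kill9_of_chk (okd_sound h8 g8_2_ok) (okd_sound h8 g7_2_ok) c4717

theorem k4718 (h8 : Sound8) : Kill9 0x108344651000 (wl [[149262, 22182], [], [], [150787, 175203], [], [196962]]) :=
  kill9_of_chk (okd_sound h8 g8_2_ok) (okd_sound h8 g7_2_ok) c4718

theorem k4721 (h8 : Sound8) : Kill9 0xdc899448000 (wl [[], [], [], [7321, 134307], [90906], [217802, 206931]]) :=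
  kill9_of_chk (okd_sound h8 g8_2_ok) (okd_sound h8 g7_2_ok) c4721

theorem k4722 (h8 : Sound8) : Kill9 0x638d2651000 (wl [[67430, 1646], [], [140707], [], [], [214594, 209242]]) :=
  kill9_of_chk (okd_sound h8 g8_2_ok) (okd_sound h8 g7_2_ok) c4722

theorem k4723 (h8 : Sound8) : Kill9 0x169884651200 (wl [[120838, 14430, 79966, 178270], [], [], [23788], [], [211037]]) :=
  kill9_of_chk (okd_sound h8 g8_2_ok) (okd_sound h8 g7_2_ok) c4723

theorem k4724 (h8 : Sound8) : Kill9 0x121ae0688000 (wl [[], [], [101259], [11490, 167148], [124259], [211612]]) :=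
  kill9_of_chk (okd_sound h8 g8_2_ok) (okd_sound h8 g7_2_ok) c4724

theorem k4725 (h8 : Sound8) : Kill9 0x1542d9448000 (wl [[], [], [185242, 46988], [109651], [58058], [202905]]) :=
  kill9_of_chk (okd_sound h8 g8_2_ok) (okd_sound h8 g7_2_ok) c4725

theorem k4726 (h8 : Sound8) : Kill9 0x4d8c8688000 (wl [[], [], [100779], [134369, 11466], [124171], [211097]]) :=
  kill9_of_chk (okd_sound h8 g8_2_ok) (okd_sound h8 g7_2_ok) c4726

theorem k4727 (h8 : Sound8) : Kill9 0x1548e1688000 (wl [[], [], [51089, 186260], [142562], [123667], [211100]]) :=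
  kill9_of_chk (okd_sound h8 g8_2_ok) (okd_sound h8 g7_2_ok) c4727

theorem k4728 (h8 : Sound8) : Kill9 0x14c699448000 (wl [[], [], [185739, 50595], [105625], [90826], [206931]]) :=
  kill9_of_chk (okd_sound h8 g8_2_ok) (okd_sound h8 g7_2_ok) c4728

theorem k4729 (h8 : Sound8) : Kill9 0x1516a3448000 (wl [[], [], [103833], [187531, 44116], [91914], [205459]]) :=
  kill9_of_chk (okd_sound h8 g8_2_ok) (okd_sound h8 g7_2_ok) c4729

theorem k4730 (h8 : Sound8) : Kill9 0x1596a3448000 (wl [[], [], [103833], [187531, 146572], [91914], [205523]]) :=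
  kill9_of_chk (okd_sound h8 g8_2_ok) (okd_sound h8 g7_2_ok) c4730

theorem k4731 (h8 : Sound8) : Kill9 0x148aa265a040 (wl [[], [121460], [151947], [35883], [123241], [209603]]) :=
  kill9_of_chk (okd_sound h8 g8_2_ok) (okd_sound h8 g7_2_ok) c4731

theorem k4732 (h8 : Sound8) : Kill9 0xe215d89a240 (wl [[1838], [], [15260], [], [60099], [200936]]) :=
  kill9_of_chk (okd_sound h8 g8_2_ok) (okd_sound h8 g7_2_ok) c4732

theorem k4733 (h8 : Sound8) : Kill9 0xa40c465a040 (wl [[], [176434, 132468], [1933], [], [190498, 158364], []]) :=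
  kill9_of_chk (okd_sound h8 g8_3_ok) (okd_sound h8 g7_3_ok) c4733

theorem k4734 (h8 : Sound8) : Kill9 0x16088485a040 (wl [[], [], [146316], [118100], [59715], [207619]]) :=
  kill9_of_chk (okd_sound h8 g8_3_ok) (okd_sound h8 g7_3_ok) c4734

theorem k4735 (h8 : Sound8) : Kill9 0x10d70485a040 (wl [[], [145589], [8619], [89123], [], [211490]]) :=
  kill9_of_chk (okd_sound h8 g8_3_ok) (okd_sound h8 g7_3_ok) c4735

theorem k4736 (h8 : Sound8) : Kill9 0xe888485a040 (wl [[], [1139], [139691], [], [157853], []]) :=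
  kill9_of_chk (okd_sound h8 g8_3_ok) (okd_sound h8 g7_3_ok) c4736

theorem k4737 (h8 : Sound8) : Kill9 0x14ab0585a040 (wl [[], [], [174493], [122114], [91170, 124450], []]) :=
  kill9_of_chk (okd_sound h8 g8_3_ok) (okd_sound h8 g7_3_ok) c4737

theorem k4738 (h8 : Sound8) : Kill9 0x8d70445a040 (wl [[], [], [8587, 8619], [], [124675], [209426, 211474]]) :=
  kill9_of_chk (okd_sound h8 g8_3_ok) (okd_sound h8 g7_3_ok) c4738

theorem k4739 (h8 : Sound8) : Kill9 0xe028225a040 (wl [[], [1141], [], [56339], [], [201562]]) :=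
  kill9_of_chk (okd_sound h8 g8_3_ok) (okd_sound h8 g7_3_ok) c4739

theorem k4742 (h8 : Sound8) : Kill9 0x618d1688000 (wl [[], [], [133025, 10122], [], [125067, 189212], [210201, 217747]]) :=
  kill9_of_chk (okd_sound h8 g8_3_ok) (okd_sound h8 g7_3_ok) c4742

theorem k4743 (h8 : Sound8) : Kill9 0xd9884651200 (wl [[112646], [], [], [15580], [189201], [203114, 218252, 211037]]) :=
  kill9_of_chk (okd_sound h8 g8_3_ok) (okd_sound h8 g7_3_ok) c4743

theorem k4744 (h8 : Sound8) : Kill9 0x65a84651200 (wl [[79966, 178270], [], [], [], [25361, 188756], [218252]]) :=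
  kill9_of_chk (okd_sound h8 g8_3_ok) (okd_sound h8 g7_3_ok) c4744

theorem k4746 (h8 : Sound8) : Kill9 0xe1744651200 (wl [[145414, 21070], [], [], [167125, 167133], [], [213770]]) :=
  kill9_of_chk (okd_sound h8 g8_3_ok) (okd_sound h8 g7_3_ok) c4746

theorem k4747 (h8 : Sound8) : Kill9 0xe1744651000 (wl [[32878], [], [], [72937, 105705], [], [213770, 196962]]) :=
  kill9_of_chk (okd_sound h8 g8_3_ok) (okd_sound h8 g7_3_ok) c4747

theorem k4748 (h8 : Sound8) : Kill9 0x19b12651000 (wl [[116230], [8371, 9907], [], [48221], [], [209178]]) :=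
  kill9_of_chk (okd_sound h8 g8_3_ok) (okd_sound h8 g7_3_ok) c4748

theorem k4751 (h8 : Sound8) : Kill9 0x61699448000 (wl [[], [], [152971, 181667], [36003, 122012], [157908, 125596], []]) :=
  kill9_of_chk (okd_sound h8 g8_3_ok) (okd_sound h8 g7_3_ok) c4751

theorem k4752 (h8 : Sound8) : Kill9 0xcb6a3448000 (wl [[], [], [181643, 152972], [171169, 15500], [], [203425, 215138]]) :=
  kill9_of_chk (okd_sound h8 g8_3_ok) (okd_sound h8 g7_3_ok) c4752

theorem k4753 (h8 : Sound8) : Kill9 0x1246e14d1000 (wl [[165382, 43222], [], [105372], [15691], [], [206353, 215269]]) :=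
  kill9_of_chk (okd_sound h8 g8_3_ok) (okd_sound h8 g7_3_ok) c4753

theorem k4754 (h8 : Sound8) : Kill9 0x1247614d1000 (wl [[43222], [], [22421], [175340], [], [206353]]) :=
  kill9_of_chk (okd_sound h8 g8_3_ok) (okd_sound h8 g7_3_ok) c4754

theorem k4755 (h8 : Sound8) : Kill9 0x1558c969a200 (wl [[], [141042], [], [187716], [123171], [201812, 201813]]) :=
  kill9_of_chk (okd_sound h8 g8_3_ok) (okd_sound h8 g7_3_ok) c4755

theorem k4756 (h8 : Sound8) : Kill9 0x1228e1688000 (wl [[], [72372], [18321, 173962], [56529, 171220], [], [206666]]) :=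
  kill9_of_chk (okd_sound h8 g8_3_ok) (okd_sound h8 g7_3_ok) c4756

theorem k4757 (h8 : Sound8) : Kill9 0x1c892651200 (wl [[180430], [37105, 2355], [], [72930, 142499], [], [217802]]) :=
  kill9_of_chk (okd_sound h8 g8_3_ok) (okd_sound h8 g7_3_ok) c4757

theorem k4758 (h8 : Sound8) : Kill9 0x1552e169a200 (wl [[], [75506, 108274, 173810], [], [167273, 187396], [90397], []]) :=
  kill9_of_chk (okd_sound h8 g8_3_ok) (okd_sound h8 g7_3_ok) c4758

theorem k4759 (h8 : Sound8) : Kill9 0xaa8e2688000 (wl [[51286], [], [], [68844, 138469], [191261, 157925], []]) :=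
  kill9_of_chk (okd_sound h8 g8_3_ok) (okd_sound h8 g7_3_ok) c4759

theorem k4760 (h8 : Sound8) : Kill9 0x10b298451000 (wl [[165982], [54067], [105345, 148899], [], [], []]) :=
  kill9_of_chk (okd_sound h8 g8_3_ok) (okd_sound h8 g7_3_ok) c4760

theorem k4761 (h8 : Sound8) : Kill9 0x458cc69a200 (wl [[55302, 170334, 174430], [], [], [35948], [156753], []]) :=
  kill9_of_chk (okd_sound h8 g8_3_ok) (okd_sound h8 g7_3_ok) c4761

theorem k4762 (h8 : Sound8) : Kill9 0x2d8d2651200 (wl [[], [69873], [], [109739], [], [218625, 213706, 218627, 218629]]) :=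
  kill9_of_chk (okd_sound h8 g8_3_ok) (okd_sound h8 g7_3_ok) c4762

theorem k4763 (h8 : Sound8) : Kill9 0x25892651200 (wl [[53534], [], [], [3331], [123669], [213706, 217802]]) :=
  kill9_of_chk (okd_sound h8 g8_4_ok) (okd_sound h8 g7_4_ok) c4763

theorem k4766 (h8 : Sound8) : Kill9 0x5884651000 (wl [[], [119985], [119690], [], [90858], [201961]]) :=
  kill9_of_chk (okd_sound h8 g8_4_ok) (okd_sound h8 g7_4_ok) c4766

theorem k4771 (h8 : Sound8) : Kill9 0x1214d2651000 (wl [[47198], [], [], [109739], [], [200937, 209242]]) :=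
  kill9_of_chk (okd_sound h8 g8_4_ok) (okd_sound h8 g7_4_ok) c4771

theorem k4772 (h8 : Sound8) : Kill9 0xab8a2688000 (wl [[], [], [], [85290, 101580, 48284, 134309], [90922, 156771], [209564]]) :=
  kill9_of_chk (okd_sound h8 g8_4_ok) (okd_sound h8 g7_4_ok) c4772

theorem k4773 (h8 : Sound8) : Kill9 0xd58e1688000 (wl [[], [], [79257, 117163, 112532], [142562], [123667], [211612]]) :=
  kill9_of_chk (okd_sound h8 g8_4_ok) (okd_sound h8 g7_4_ok) c4773

theorem k4775 (h8 : Sound8) : Kill9 0xa38a1688000 (wl [[], [], [13721, 152995, 18859], [179356, 101612], [], [206410, 211612]]) :=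
  kill9_of_chk (okd_sound h8 g8_4_ok) (okd_sound h8 g7_4_ok) c4775

theorem k4776 (h8 : Sound8) : Kill9 0xa14d9448000 (wl [[], [], [120203, 14221], [171161, 101539], [124235], [203417]]) :=
  kill9_of_chk (okd_sound h8 g8_4_ok) (okd_sound h8 g7_4_ok) c4776

theorem k4777 (h8 : Sound8) : Kill9 0x62659448000 (wl [[], [], [119706, 178060], [56545, 175187, 68779, 101468], [60129, 123738], []]) :=
  kill9_of_chk (okd_sound h8 g8_4_ok) (okd_sound h8 g7_4_ok) c4777

theorem k4778 (h8 : Sound8) : Kill9 0xab8a0688000 (wl [[], [], [166801, 136611, 51605, 182677], [85290, 48284, 134309], [90922], []]) :=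
  kill9_of_chk (okd_sound h8 g8_4_ok) (okd_sound h8 g7_4_ok) c4778

theorem k4780 (h8 : Sound8) : Kill9 0xe9712651200 (wl [[182998, 34406, 113006], [], [], [56403, 134380, 118045], [], [200929, 217802]]) :=
  kill9_of_chk (okd_sound h8 g8_4_ok) (okd_sound h8 g7_4_ok) c4780

theorem k4781 (h8 : Sound8) : Kill9 0x8a4e3448000 (wl [[], [], [169369, 54178], [7329, 121995, 15565], [125579], [202073, 207444]]) :=
  kill9_of_chk (okd_sound h8 g8_4_ok) (okd_sound h8 g7_4_ok) c4781

theorem k4782 (h8 : Sound8) : Kill9 0x8b4e3448000 (wl [[], [], [169369, 33693], [7329, 121995, 15565], [], [202073, 206932]]) :=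
  kill9_of_chk (okd_sound h8 g8_4_ok) (okd_sound h8 g7_4_ok) c4782

theorem k4783 (h8 : Sound8) : Kill9 0xc4692651200 (wl [[116230, 181766], [4337], [], [109731, 175267], [90826], []]) :=
  kill9_of_chk (okd_sound h8 g8_4_ok) (okd_sound h8 g7_4_ok) c4783

theorem k4784 (h8 : Sound8) : Kill9 0x10b292651000 (wl [[112854, 121046, 112734, 178270], [], [], [], [189955], [218627]]) :=
  kill9_of_chk (okd_sound h8 g8_4_ok) (okd_sound h8 g7_4_ok) c4784

theorem k4785 (h8 : Sound8) : Kill9 0x55663448000 (wl [[], [], [87436, 99229], [11348, 146637], [122970], [205331]]) :=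
  kill9_of_chk (okd_sound h8 g8_5_ok) (okd_sound h8 g7_5_ok) c4785

theorem k4786 (h8 : Sound8) : Kill9 0x43852651000 (wl [[132710], [], [12698], [179292, 101612], [123594], [218627]]) :=
  kill9_of_chk (okd_sound h8 g8_5_ok) (okd_sound h8 g7_5_ok) c4786

theorem k4787 (h8 : Sound8) : Kill9 0x884e3448000 (wl [[], [], [169369, 54178, 18858, 33693], [7329], [125579], [207444]]) :=
  kill9_of_chk (okd_sound h8 g8_5_ok) (okd_sound h8 g7_5_ok) c4787

theorem k4790 (h8 : Sound8) : Kill9 0xe968c65a200 (wl [[33878], [67314], [88458, 152979], [7521, 19755], [191115], [209244, 213261]]) :=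
  kill9_of_chk (okd_sound h8 g8_6_ok) (okd_sound h8 g7_6_ok) c4790

end D9

end CR
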