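import Pool.Agent.Lib.MP_6f5d36_co.D9.All
import Pool.Agent.Lib.MP_6f5d36_co.Cert
import Pool.Agent.Lib.MP_6f5d36_co.Tab
import Pool.Agent.Lib.MP_6f5d36_co.WTab

/-!
# MP_6f5d36_co : levels 8 and 9, the final theorem (generated)

`CR.D9.kill9_all` : for every processed rank `k` the levels 8 and 9 are finished.
-/

set_option autoImplicit false
set_option linter.all false

namespace CR

namespace D9

open L9

theorem sound8 : Sound8 := fun _ _ _ h => cert8_sound h

theorem wl_eq : ∀ (L : List (List ℕ)) (s : ℕ), L.getD s [] = wl L s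
  | [], _ => rfl
  | _ :: _, 0 => rfl
  | _ :: L, n + 1 => wl_eq L n

theorem link {k R : ℕ} {L : List (List ℕ)} (h : Kill9 R (wl L)) (hR : Tab.reps k = R)
    (hL : Tab.WT k = L) : Kill9 (Tab.reps k) (Tab.W k) := by
  have hW : Tab.W k = wl L := by
    funext s
    rw [Tab.W, hL, wl_eq]
  rw [hR, hW]
  exact h

/-- all members of the list have the property -/
def AllK (P : ℕ → Prop) : List ℕ → Prop
  | [] => True
  | k :: L => P k ∧ AllK P L

theorem AllK.mem {P : ℕ → Prop} : ∀ (L : List ℕ), AllK P L → ∀ k ∈ L, P k
  | [], _, k, h => by simp at h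
  | a :: L, h, k, hk => by
    rcases List.mem_cons.1 hk with rfl | h1
    · exact h.1
    · exact AllK.mem L h.2 k h1

theorem m4439 : Kill9 (Tab.reps 4439) (Tab.W 4439) :=
  link (k4439 sound8) (by decide +kernel) (by decide +kernel)

theorem m4440 : Kill9 (Tab.reps 4440) (Tab.W 4440) :=
  link (k4440 sound8) (by decide +kernel) (by decide +kernel)

theorem m4441 : Kill9 (Tab.reps 4441) (Tab.W 4441) :=
  link (k4441 sound8) (by decide +kernel) (by decide +kernel)

theorem m4442 : Kill9 (Tab.reps 4442) (Tab.W 4442) :=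
  link (k4442 sound8) (by decide +kernel) (by decide +kernel)

theorem m4444 : Kill9 (Tab.reps 4444) (Tab.W 4444) :=
  link (k4444 sound8) (by decide +kernel) (by decide +kernel)

theorem m4452 : Kill9 (Tab.reps 4452) (Tab.W 4452) :=
  link (k4452 sound8) (by decide +kernel) (by decide +kernel)

theorem m4454 : Kill9 (Tab.reps 4454) (Tab.W 4454) :=
  link (k4454 sound8) (by decide +kernel) (by decide +kernel)

theorem m4456 : Kill9 (Tab.reps 4456) (Tab.W 4456) :=
  link (k4456 sound8) (by decide +kernel) (by decide +kernel)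

theorem m4462 : Kill9 (Tab.reps 4462) (Tab.W 4462) :=
  link (k4462 sound8) (by decide +kernel) (by decide +kernel)

theorem m4464 : Kill9 (Tab.reps 4464) (Tab.W 4464) :=
  link (k4464 sound8) (by decide +kernel) (by decide +kernel)

theorem m4466 : Kill9 (Tab.reps 4466) (Tab.W 4466) :=
  link (k4466 sound8) (by decide +kernel) (by decide +kernel)

theorem m4467 : Kill9 (Tab.reps 4467) (Tab.W 4467) :=
  link (k4467 sound8) (by decide +kernel) (by decide +kernel)

theorem m4468 : Kill9 (Tab.reps 4468) (Tab.W 4468) :=
  link (k4468 sound8) (by decide +kernel) (by decide +kernel)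

theorem m4471 : Kill9 (Tab.reps 4471) (Tab.W 4471) :=
  link (k4471 sound8) (by decide +kernel) (by decide +kernel)

theorem m4473 : Kill9 (Tab.reps 4473) (Tab.W 4473) :=
  link (k4473 sound8) (by decide +kernel) (by decide +kernel)

theorem m4476 : Kill9 (Tab.reps 4476) (Tab.W 4476) :=
  link (k4476 sound8) (by decide +kernel) (by decide +kernel)

theorem m4478 : Kill9 (Tab.reps 4478) (Tab.W 4478) :=
  link (k4478 sound8) (by decide +kernel) (by decide +kernel)

theorem m4479 : Kill9 (Tab.reps 4479) (Tab.W 4479) :=
  link (k4479 sound8) (by decide +kernel) (by decide +kernel)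

theorem m4480 : Kill9 (Tab.reps 4480) (Tab.W 4480) :=
  link (k4480 sound8) (by decide +kernel) (by decide +kernel)

theorem m4484 : Kill9 (Tab.reps 4484) (Tab.W 4484) :=
  link (k4484 sound8) (by decide +kernel) (by decide +kernel)

theorem m4486 : Kill9 (Tab.reps 4486) (Tab.W 4486) :=
  link (k4486 sound8) (by decide +kernel) (by decide +kernel)

theorem m4488 : Kill9 (Tab.reps 4488) (Tab.W 4488) :=
  link (k4488 sound8) (by decide +kernel) (by decide +kernel)

theorem m4489 : Kill9 (Tab.reps 4489) (Tab.W 4489) :=
  link (k4489 sound8) (by decide +kernel) (by decide +kernel)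

theorem m4493 : Kill9 (Tab.reps 4493) (Tab.W 4493) :=
  link (k4493 sound8) (by decide +kernel) (by decide +kernel)

theorem m4498 : Kill9 (Tab.reps 4498) (Tab.W 4498) :=
  link (k4498 sound8) (by decide +kernel) (by decide +kernel)

theorem m4499 : Kill9 (Tab.reps 4499) (Tab.W 4499) :=
  link (k4499 sound8) (by decide +kernel) (by decide +kernel)

theorem m4501 : Kill9 (Tab.reps 4501) (Tab.W 4501) :=
  link (k4501 sound8) (by decide +kernel) (by decide +kernel)

theorem m4505 : Kill9 (Tab.reps 4505) (Tab.W 4505) :=
  link (k4505 sound8) (by decide +kernel) (by decide +kernel)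

theorem m4507 : Kill9 (Tab.reps 4507) (Tab.W 4507) :=
  link (k4507 sound8) (by decide +kernel) (by decide +kernel)

theorem m4509 : Kill9 (Tab.reps 4509) (Tab.W 4509) :=
  link (k4509 sound8) (by decide +kernel) (by decide +kernel)

theorem m4512 : Kill9 (Tab.reps 4512) (Tab.W 4512) :=
  link (k4512 sound8) (by decide +kernel) (by decide +kernel)

theorem m4516 : Kill9 (Tab.reps 4516) (Tab.W 4516) :=
  link (k4516 sound8) (by decide +kernel) (by decide +kernel)

theorem m4518 : Kill9 (Tab.reps 4518) (Tab.W 4518) :=
  link (k4518 sound8) (by decide +kernel) (by decide +kernel)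

theorem m4519 : Kill9 (Tab.reps 4519) (Tab.W 4519) :=
  link (k4519 sound8) (by decide +kernel) (by decide +kernel)

theorem m4521 : Kill9 (Tab.reps 4521) (Tab.W 4521) :=
  link (k4521 sound8) (by decide +kernel) (by decide +kernel)

theorem m4522 : Kill9 (Tab.reps 4522) (Tab.W 4522) :=
  link (k4522 sound8) (by decide +kernel) (by decide +kernel)

theorem m4524 : Kill9 (Tab.reps 4524) (Tab.W 4524) :=
  link (k4524 sound8) (by decide +kernel) (by decide +kernel)

theorem m4525 : Kill9 (Tab.reps 4525) (Tab.W 4525) :=
  link (k4525 sound8) (by decide +kernel) (by decide +kernel)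

theorem m4527 : Kill9 (Tab.reps 4527) (Tab.W 4527) :=
  link (k4527 sound8) (by decide +kernel) (by decide +kernel)

theorem m4529 : Kill9 (Tab.reps 4529) (Tab.W 4529) :=
  link (k4529 sound8) (by decide +kernel) (by decide +kernel)

theorem m4531 : Kill9 (Tab.reps 4531) (Tab.W 4531) :=
  link (k4531 sound8) (by decide +kernel) (by decide +kernel)

theorem m4533 : Kill9 (Tab.reps 4533) (Tab.W 4533) :=
  link (k4533 sound8) (by decide +kernel) (by decide +kernel)

theorem m4536 : Kill9 (Tab.reps 4536) (Tab.W 4536) :=
  link (k4536 sound8) (by decide +kernel) (by decide +kernel)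

theorem m4537 : Kill9 (Tab.reps 4537) (Tab.W 4537) :=
  link (k4537 sound8) (by decide +kernel) (by decide +kernel)

theorem m4539 : Kill9 (Tab.reps 4539) (Tab.W 4539) :=
  link (k4539 sound8) (by decide +kernel) (by decide +kernel)

theorem m4540 : Kill9 (Tab.reps 4540) (Tab.W 4540) :=
  link (k4540 sound8) (by decide +kernel) (by decide +kernel)

theorem m4543 : Kill9 (Tab.reps 4543) (Tab.W 4543) :=
  link (k4543 sound8) (by decide +kernel) (by decide +kernel)

theorem m4544 : Kill9 (Tab.reps 4544) (Tab.W 4544) :=
  link (k4544 sound8) (by decide +kernel) (by decide +kernel)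

theorem m4545 : Kill9 (Tab.reps 4545) (Tab.W 4545) :=
  link (k4545 sound8) (by decide +kernel) (by decide +kernel)

theorem m4547 : Kill9 (Tab.reps 4547) (Tab.W 4547) :=
  link (k4547 sound8) (by decide +kernel) (by decide +kernel)

theorem m4548 : Kill9 (Tab.reps 4548) (Tab.W 4548) :=
  link (k4548 sound8) (by decide +kernel) (by decide +kernel)

theorem m4550 : Kill9 (Tab.reps 4550) (Tab.W 4550) :=
  link (k4550 sound8) (by decide +kernel) (by decide +kernel)

theorem m4552 : Kill9 (Tab.reps 4552) (Tab.W 4552) :=
  link (k4552 sound8) (by decide +kernel) (by decide +kernel)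

theorem m4554 : Kill9 (Tab.reps 4554) (Tab.W 4554) :=
  link (k4554 sound8) (by decide +kernel) (by decide +kernel)

theorem m4555 : Kill9 (Tab.reps 4555) (Tab.W 4555) :=
  link (k4555 sound8) (by decide +kernel) (by decide +kernel)

theorem m4556 : Kill9 (Tab.reps 4556) (Tab.W 4556) :=
  link (k4556 sound8) (by decide +kernel) (by decide +kernel)

theorem m4558 : Kill9 (Tab.reps 4558) (Tab.W 4558) :=
  link (k4558 sound8) (by decide +kernel) (by decide +kernel)

theorem m4561 : Kill9 (Tab.reps 4561) (Tab.W 4561) :=
  link (k4561 sound8) (by decide +kernel) (by decide +kernel)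

theorem m4563 : Kill9 (Tab.reps 4563) (Tab.W 4563) :=
  link (k4563 sound8) (by decide +kernel) (by decide +kernel)

theorem m4567 : Kill9 (Tab.reps 4567) (Tab.W 4567) :=
  link (k4567 sound8) (by decide +kernel) (by decide +kernel)

theorem m4569 : Kill9 (Tab.reps 4569) (Tab.W 4569) :=
  link (k4569 sound8) (by decide +kernel) (by decide +kernel)

theorem m4570 : Kill9 (Tab.reps 4570) (Tab.W 4570) :=
  link (k4570 sound8) (by decide +kernel) (by decide +kernel)

theorem m4572 : Kill9 (Tab.reps 4572) (Tab.W 4572) :=
  link (k4572 sound8) (by decide +kernel) (by decide +kernel)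

theorem m4573 : Kill9 (Tab.reps 4573) (Tab.W 4573) :=
  link (k4573 sound8) (by decide +kernel) (by decide +kernel)

theorem m4574 : Kill9 (Tab.reps 4574) (Tab.W 4574) :=
  link (k4574 sound8) (by decide +kernel) (by decide +kernel)

theorem m4575 : Kill9 (Tab.reps 4575) (Tab.W 4575) :=
  link (k4575 sound8) (by decide +kernel) (by decide +kernel)

theorem m4576 : Kill9 (Tab.reps 4576) (Tab.W 4576) :=
  link (k4576 sound8) (by decide +kernel) (by decide +kernel)

theorem m4579 : Kill9 (Tab.reps 4579) (Tab.W 4579) :=
  link (k4579 sound8) (by decide +kernel) (by decide +kernel)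

theorem m4580 : Kill9 (Tab.reps 4580) (Tab.W 4580) :=
  link (k4580 sound8) (by decide +kernel) (by decide +kernel)

theorem m4582 : Kill9 (Tab.reps 4582) (Tab.W 4582) :=
  link (k4582 sound8) (by decide +kernel) (by decide +kernel)

theorem m4583 : Kill9 (Tab.reps 4583) (Tab.W 4583) :=
  link (k4583 sound8) (by decide +kernel) (by decide +kernel)

theorem m4584 : Kill9 (Tab.reps 4584) (Tab.W 4584) :=
  link (k4584 sound8) (by decide +kernel) (by decide +kernel)

theorem m4586 : Kill9 (Tab.reps 4586) (Tab.W 4586) :=
  link (k4586 sound8) (by decide +kernel) (by decide +kernel)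

theorem m4587 : Kill9 (Tab.reps 4587) (Tab.W 4587) :=
  link (k4587 sound8) (by decide +kernel) (by decide +kernel)

theorem m4588 : Kill9 (Tab.reps 4588) (Tab.W 4588) :=
  link (k4588 sound8) (by decide +kernel) (by decide +kernel)

theorem m4590 : Kill9 (Tab.reps 4590) (Tab.W 4590) :=
  link (k4590 sound8) (by decide +kernel) (by decide +kernel)

theorem m4593 : Kill9 (Tab.reps 4593) (Tab.W 4593) :=
  link (k4593 sound8) (by decide +kernel) (by decide +kernel)

theorem m4594 : Kill9 (Tab.reps 4594) (Tab.W 4594) :=
  link (k4594 sound8) (by decide +kernel) (by decide +kernel)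

theorem m4596 : Kill9 (Tab.reps 4596) (Tab.W 4596) :=
  link (k4596 sound8) (by decide +kernel) (by decide +kernel)

theorem m4598 : Kill9 (Tab.reps 4598) (Tab.W 4598) :=
  link (k4598 sound8) (by decide +kernel) (by decide +kernel)

theorem m4600 : Kill9 (Tab.reps 4600) (Tab.W 4600) :=
  link (k4600 sound8) (by decide +kernel) (by decide +kernel)

theorem m4601 : Kill9 (Tab.reps 4601) (Tab.W 4601) :=
  link (k4601 sound8) (by decide +kernel) (by decide +kernel)

theorem m4602 : Kill9 (Tab.reps 4602) (Tab.W 4602) :=
  link (k4602 sound8) (by decide +kernel) (by decide +kernel)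

theorem m4603 : Kill9 (Tab.reps 4603) (Tab.W 4603) :=
  link (k4603 sound8) (by decide +kernel) (by decide +kernel)

theorem m4605 : Kill9 (Tab.reps 4605) (Tab.W 4605) :=
  link (k4605 sound8) (by decide +kernel) (by decide +kernel)

theorem m4607 : Kill9 (Tab.reps 4607) (Tab.W 4607) :=
  link (k4607 sound8) (by decide +kernel) (by decide +kernel)

theorem m4608 : Kill9 (Tab.reps 4608) (Tab.W 4608) :=
  link (k4608 sound8) (by decide +kernel) (by decide +kernel)

theorem m4609 : Kill9 (Tab.reps 4609) (Tab.W 4609) :=
  link (k4609 sound8) (by decide +kernel) (by decide +kernel)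

theorem m4610 : Kill9 (Tab.reps 4610) (Tab.W 4610) :=
  link (k4610 sound8) (by decide +kernel) (by decide +kernel)

theorem m4611 : Kill9 (Tab.reps 4611) (Tab.W 4611) :=
  link (k4611 sound8) (by decide +kernel) (by decide +kernel)

theorem m4612 : Kill9 (Tab.reps 4612) (Tab.W 4612) :=
  link (k4612 sound8) (by decide +kernel) (by decide +kernel)

theorem m4614 : Kill9 (Tab.reps 4614) (Tab.W 4614) :=
  link (k4614 sound8) (by decide +kernel) (by decide +kernel)

theorem m4615 : Kill9 (Tab.reps 4615) (Tab.W 4615) :=
  link (k4615 sound8) (by decide +kernel) (by decide +kernel)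

theorem m4617 : Kill9 (Tab.reps 4617) (Tab.W 4617) :=
  link (k4617 sound8) (by decide +kernel) (by decide +kernel)

theorem m4618 : Kill9 (Tab.reps 4618) (Tab.W 4618) :=
  link (k4618 sound8) (by decide +kernel) (by decide +kernel)

theorem m4619 : Kill9 (Tab.reps 4619) (Tab.W 4619) :=
  link (k4619 sound8) (by decide +kernel) (by decide +kernel)

theorem m4620 : Kill9 (Tab.reps 4620) (Tab.W 4620) :=
  link (k4620 sound8) (by decide +kernel) (by decide +kernel)

theorem m4621 : Kill9 (Tab.reps 4621) (Tab.W 4621) :=
  link (k4621 sound8) (by decide +kernel) (by decide +kernel)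

theorem m4622 : Kill9 (Tab.reps 4622) (Tab.W 4622) :=
  link (k4622 sound8) (by decide +kernel) (by decide +kernel)

theorem m4623 : Kill9 (Tab.reps 4623) (Tab.W 4623) :=
  link (k4623 sound8) (by decide +kernel) (by decide +kernel)

theorem m4624 : Kill9 (Tab.reps 4624) (Tab.W 4624) :=
  link (k4624 sound8) (by decide +kernel) (by decide +kernel)

theorem m4625 : Kill9 (Tab.reps 4625) (Tab.W 4625) :=
  link (k4625 sound8) (by decide +kernel) (by decide +kernel)

theorem m4630 : Kill9 (Tab.reps 4630) (Tab.W 4630) :=
  link (k4630 sound8) (by decide +kernel) (by decide +kernel)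

theorem m4631 : Kill9 (Tab.reps 4631) (Tab.W 4631) :=
  link (k4631 sound8) (by decide +kernel) (by decide +kernel)

theorem m4633 : Kill9 (Tab.reps 4633) (Tab.W 4633) :=
  link (k4633 sound8) (by decide +kernel) (by decide +kernel)

theorem m4636 : Kill9 (Tab.reps 4636) (Tab.W 4636) :=
  link (k4636 sound8) (by decide +kernel) (by decide +kernel)

theorem m4637 : Kill9 (Tab.reps 4637) (Tab.W 4637) :=
  link (k4637 sound8) (by decide +kernel) (by decide +kernel)

theorem m4638 : Kill9 (Tab.reps 4638) (Tab.W 4638) :=
  link (k4638 sound8) (by decide +kernel) (by decide +kernel)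

theorem m4642 : Kill9 (Tab.reps 4642) (Tab.W 4642) :=
  link (k4642 sound8) (by decide +kernel) (by decide +kernel)

theorem m4643 : Kill9 (Tab.reps 4643) (Tab.W 4643) :=
  link (k4643 sound8) (by decide +kernel) (by decide +kernel)

theorem m4644 : Kill9 (Tab.reps 4644) (Tab.W 4644) :=
  link (k4644 sound8) (by decide +kernel) (by decide +kernel)

theorem m4645 : Kill9 (Tab.reps 4645) (Tab.W 4645) :=
  link (k4645 sound8) (by decide +kernel) (by decide +kernel)

theorem m4646 : Kill9 (Tab.reps 4646) (Tab.W 4646) :=
  link (k4646 sound8) (by decide +kernel) (by decide +kernel)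

theorem m4647 : Kill9 (Tab.reps 4647) (Tab.W 4647) :=
  link (k4647 sound8) (by decide +kernel) (by decide +kernel)

theorem m4650 : Kill9 (Tab.reps 4650) (Tab.W 4650) :=
  link (k4650 sound8) (by decide +kernel) (by decide +kernel)

theorem m4652 : Kill9 (Tab.reps 4652) (Tab.W 4652) :=
  link (k4652 sound8) (by decide +kernel) (by decide +kernel)

theorem m4653 : Kill9 (Tab.reps 4653) (Tab.W 4653) :=
  link (k4653 sound8) (by decide +kernel) (by decide +kernel)

theorem m4655 : Kill9 (Tab.reps 4655) (Tab.W 4655) :=
  link (k4655 sound8) (by decide +kernel) (by decide +kernel)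

theorem m4656 : Kill9 (Tab.reps 4656) (Tab.W 4656) :=
  link (k4656 sound8) (by decide +kernel) (by decide +kernel)

theorem m4658 : Kill9 (Tab.reps 4658) (Tab.W 4658) :=
  link (k4658 sound8) (by decide +kernel) (by decide +kernel)

theorem m4659 : Kill9 (Tab.reps 4659) (Tab.W 4659) :=
  link (k4659 sound8) (by decide +kernel) (by decide +kernel)

theorem m4661 : Kill9 (Tab.reps 4661) (Tab.W 4661) :=
  link (k4661 sound8) (by decide +kernel) (by decide +kernel)

theorem m4663 : Kill9 (Tab.reps 4663) (Tab.W 4663) :=
  link (k4663 sound8) (by decide +kernel) (by decide +kernel)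

theorem m4664 : Kill9 (Tab.reps 4664) (Tab.W 4664) :=
  link (k4664 sound8) (by decide +kernel) (by decide +kernel)

theorem m4665 : Kill9 (Tab.reps 4665) (Tab.W 4665) :=
  link (k4665 sound8) (by decide +kernel) (by decide +kernel)

theorem m4666 : Kill9 (Tab.reps 4666) (Tab.W 4666) :=
  link (k4666 sound8) (by decide +kernel) (by decide +kernel)

theorem m4672 : Kill9 (Tab.reps 4672) (Tab.W 4672) :=
  link (k4672 sound8) (by decide +kernel) (by decide +kernel)

theorem m4673 : Kill9 (Tab.reps 4673) (Tab.W 4673) :=
  link (k4673 sound8) (by decide +kernel) (by decide +kernel)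

theorem m4674 : Kill9 (Tab.reps 4674) (Tab.W 4674) :=
  link (k4674 sound8) (by decide +kernel) (by decide +kernel)

theorem m4675 : Kill9 (Tab.reps 4675) (Tab.W 4675) :=
  link (k4675 sound8) (by decide +kernel) (by decide +kernel)

theorem m4676 : Kill9 (Tab.reps 4676) (Tab.W 4676) :=
  link (k4676 sound8) (by decide +kernel) (by decide +kernel)

theorem m4680 : Kill9 (Tab.reps 4680) (Tab.W 4680) :=
  link (k4680 sound8) (by decide +kernel) (by decide +kernel)

theorem m4681 : Kill9 (Tab.reps 4681) (Tab.W 4681) :=
  link (k4681 sound8) (by decide +kernel) (by decide +kernel)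

theorem m4682 : Kill9 (Tab.reps 4682) (Tab.W 4682) :=
  link (k4682 sound8) (by decide +kernel) (by decide +kernel)

theorem m4683 : Kill9 (Tab.reps 4683) (Tab.W 4683) :=
  link (k4683 sound8) (by decide +kernel) (by decide +kernel)

theorem m4686 : Kill9 (Tab.reps 4686) (Tab.W 4686) :=
  link (k4686 sound8) (by decide +kernel) (by decide +kernel)

theorem m4687 : Kill9 (Tab.reps 4687) (Tab.W 4687) :=
  link (k4687 sound8) (by decide +kernel) (by decide +kernel)

theorem m4688 : Kill9 (Tab.reps 4688) (Tab.W 4688) :=
  link (k4688 sound8) (by decide +kernel) (by decide +kernel)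

theorem m4693 : Kill9 (Tab.reps 4693) (Tab.W 4693) :=
  link (k4693 sound8) (by decide +kernel) (by decide +kernel)

theorem m4697 : Kill9 (Tab.reps 4697) (Tab.W 4697) :=
  link (k4697 sound8) (by decide +kernel) (by decide +kernel)

theorem m4698 : Kill9 (Tab.reps 4698) (Tab.W 4698) :=
  link (k4698 sound8) (by decide +kernel) (by decide +kernel)

theorem m4699 : Kill9 (Tab.reps 4699) (Tab.W 4699) :=
  link (k4699 sound8) (by decide +kernel) (by decide +kernel)

theorem m4701 : Kill9 (Tab.reps 4701) (Tab.W 4701) :=
  link (k4701 sound8) (by decide +kernel) (by decide +kernel)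

theorem m4702 : Kill9 (Tab.reps 4702) (Tab.W 4702) :=
  link (k4702 sound8) (by decide +kernel) (by decide +kernel)

theorem m4703 : Kill9 (Tab.reps 4703) (Tab.W 4703) :=
  link (k4703 sound8) (by decide +kernel) (by decide +kernel)

theorem m4704 : Kill9 (Tab.reps 4704) (Tab.W 4704) :=
  link (k4704 sound8) (by decide +kernel) (by decide +kernel)

theorem m4706 : Kill9 (Tab.reps 4706) (Tab.W 4706) :=
  link (k4706 sound8) (by decide +kernel) (by decide +kernel)

theorem m4707 : Kill9 (Tab.reps 4707) (Tab.W 4707) :=
  link (k4707 sound8) (by decide +kernel) (by decide +kernel)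

theorem m4708 : Kill9 (Tab.reps 4708) (Tab.W 4708) :=
  link (k4708 sound8) (by decide +kernel) (by decide +kernel)

theorem m4709 : Kill9 (Tab.reps 4709) (Tab.W 4709) :=
  link (k4709 sound8) (by decide +kernel) (by decide +kernel)

theorem m4711 : Kill9 (Tab.reps 4711) (Tab.W 4711) :=
  link (k4711 sound8) (by decide +kernel) (by decide +kernel)

theorem m4712 : Kill9 (Tab.reps 4712) (Tab.W 4712) :=
  link (k4712 sound8) (by decide +kernel) (by decide +kernel)

theorem m4713 : Kill9 (Tab.reps 4713) (Tab.W 4713) :=
  link (k4713 sound8) (by decide +kernel) (by decide +kernel)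

theorem m4714 : Kill9 (Tab.reps 4714) (Tab.W 4714) :=
  link (k4714 sound8) (by decide +kernel) (by decide +kernel)

theorem m4715 : Kill9 (Tab.reps 4715) (Tab.W 4715) :=
  link (k4715 sound8) (by decide +kernel) (by decide +kernel)

theorem m4716 : Kill9 (Tab.reps 4716) (Tab.W 4716) :=
  link (k4716 sound8) (by decide +kernel) (by decide +kernel)

theorem m4717 : Kill9 (Tab.reps 4717) (Tab.W 4717) :=
  link (k4717 sound8) (by decide +kernel) (by decide +kernel)

theorem m4718 : Kill9 (Tab.reps 4718) (Tab.W 4718) :=
  link (k4718 sound8) (by decide +kernel) (by decide +kernel)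

theorem m4721 : Kill9 (Tab.reps 4721) (Tab.W 4721) :=
  link (k4721 sound8) (by decide +kernel) (by decide +kernel)

theorem m4722 : Kill9 (Tab.reps 4722) (Tab.W 4722) :=
  link (k4722 sound8) (by decide +kernel) (by decide +kernel)

theorem m4723 : Kill9 (Tab.reps 4723) (Tab.W 4723) :=
  link (k4723 sound8) (by decide +kernel) (by decide +kernel)

theorem m4724 : Kill9 (Tab.reps 4724) (Tab.W 4724) :=
  link (k4724 sound8) (by decide +kernel) (by decide +kernel)

theorem m4725 : Kill9 (Tab.reps 4725) (Tab.W 4725) :=
  link (k4725 sound8) (by decide +kernel) (by decide +kernel)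

theorem m4726 : Kill9 (Tab.reps 4726) (Tab.W 4726) :=
  link (k4726 sound8) (by decide +kernel) (by decide +kernel)

theorem m4727 : Kill9 (Tab.reps 4727) (Tab.W 4727) :=
  link (k4727 sound8) (by decide +kernel) (by decide +kernel)

theorem m4728 : Kill9 (Tab.reps 4728) (Tab.W 4728) :=
  link (k4728 sound8) (by decide +kernel) (by decide +kernel)

theorem m4729 : Kill9 (Tab.reps 4729) (Tab.W 4729) :=
  link (k4729 sound8) (by decide +kernel) (by decide +kernel)

theorem m4730 : Kill9 (Tab.reps 4730) (Tab.W 4730) :=
  link (k4730 sound8) (by decide +kernel) (by decide +kernel)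

theorem m4731 : Kill9 (Tab.reps 4731) (Tab.W 4731) :=
  link (k4731 sound8) (by decide +kernel) (by decide +kernel)

theorem m4732 : Kill9 (Tab.reps 4732) (Tab.W 4732) :=
  link (k4732 sound8) (by decide +kernel) (by decide +kernel)

theorem m4733 : Kill9 (Tab.reps 4733) (Tab.W 4733) :=
  link (k4733 sound8) (by decide +kernel) (by decide +kernel)

theorem m4734 : Kill9 (Tab.reps 4734) (Tab.W 4734) :=
  link (k4734 sound8) (by decide +kernel) (by decide +kernel)

theorem m4735 : Kill9 (Tab.reps 4735) (Tab.W 4735) :=
  link (k4735 sound8) (by decide +kernel) (by decide +kernel)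

theorem m4736 : Kill9 (Tab.reps 4736) (Tab.W 4736) :=
  link (k4736 sound8) (by decide +kernel) (by decide +kernel)

theorem m4737 : Kill9 (Tab.reps 4737) (Tab.W 4737) :=
  link (k4737 sound8) (by decide +kernel) (by decide +kernel)

theorem m4738 : Kill9 (Tab.reps 4738) (Tab.W 4738) :=
  link (k4738 sound8) (by decide +kernel) (by decide +kernel)

theorem m4739 : Kill9 (Tab.reps 4739) (Tab.W 4739) :=
  link (k4739 sound8) (by decide +kernel) (by decide +kernel)

theorem m4742 : Kill9 (Tab.reps 4742) (Tab.W 4742) :=
  link (k4742 sound8) (by decide +kernel) (by decide +kernel)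

theorem m4743 : Kill9 (Tab.reps 4743) (Tab.W 4743) :=
  link (k4743 sound8) (by decide +kernel) (by decide +kernel)

theorem m4744 : Kill9 (Tab.reps 4744) (Tab.W 4744) :=
  link (k4744 sound8) (by decide +kernel) (by decide +kernel)

theorem m4746 : Kill9 (Tab.reps 4746) (Tab.W 4746) :=
  link (k4746 sound8) (by decide +kernel) (by decide +kernel)

theorem m4747 : Kill9 (Tab.reps 4747) (Tab.W 4747) :=
  link (k4747 sound8) (by decide +kernel) (by decide +kernel)

theorem m4748 : Kill9 (Tab.reps 4748) (Tab.W 4748) :=
  link (k4748 sound8) (by decide +kernel) (by decide +kernel)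

theorem m4751 : Kill9 (Tab.reps 4751) (Tab.W 4751) :=
  link (k4751 sound8) (by decide +kernel) (by decide +kernel)

theorem m4752 : Kill9 (Tab.reps 4752) (Tab.W 4752) :=
  link (k4752 sound8) (by decide +kernel) (by decide +kernel)

theorem m4753 : Kill9 (Tab.reps 4753) (Tab.W 4753) :=
  link (k4753 sound8) (by decide +kernel) (by decide +kernel)

theorem m4754 : Kill9 (Tab.reps 4754) (Tab.W 4754) :=
  link (k4754 sound8) (by decide +kernel) (by decide +kernel)

theorem m4755 : Kill9 (Tab.reps 4755) (Tab.W 4755) :=
  link (k4755 sound8) (by decide +kernel) (by decide +kernel)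

theorem m4756 : Kill9 (Tab.reps 4756) (Tab.W 4756) :=
  link (k4756 sound8) (by decide +kernel) (by decide +kernel)

theorem m4757 : Kill9 (Tab.reps 4757) (Tab.W 4757) :=
  link (k4757 sound8) (by decide +kernel) (by decide +kernel)

theorem m4758 : Kill9 (Tab.reps 4758) (Tab.W 4758) :=
  link (k4758 sound8) (by decide +kernel) (by decide +kernel)

theorem m4759 : Kill9 (Tab.reps 4759) (Tab.W 4759) :=
  link (k4759 sound8) (by decide +kernel) (by decide +kernel)

theorem m4760 : Kill9 (Tab.reps 4760) (Tab.W 4760) :=
  link (k4760 sound8) (by decide +kernel) (by decide +kernel)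

theorem m4761 : Kill9 (Tab.reps 4761) (Tab.W 4761) :=
  link (k4761 sound8) (by decide +kernel) (by decide +kernel)

theorem m4762 : Kill9 (Tab.reps 4762) (Tab.W 4762) :=
  link (k4762 sound8) (by decide +kernel) (by decide +kernel)

theorem m4763 : Kill9 (Tab.reps 4763) (Tab.W 4763) :=
  link (k4763 sound8) (by decide +kernel) (by decide +kernel)

theorem m4766 : Kill9 (Tab.reps 4766) (Tab.W 4766) :=
  link (k4766 sound8) (by decide +kernel) (by decide +kernel)

theorem m4771 : Kill9 (Tab.reps 4771) (Tab.W 4771) :=
  link (k4771 sound8) (by decide +kernel) (by decide +kernel)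

theorem m4772 : Kill9 (Tab.reps 4772) (Tab.W 4772) :=
  link (k4772 sound8) (by decide +kernel) (by decide +kernel)

theorem m4773 : Kill9 (Tab.reps 4773) (Tab.W 4773) :=
  link (k4773 sound8) (by decide +kernel) (by decide +kernel)

theorem m4775 : Kill9 (Tab.reps 4775) (Tab.W 4775) :=
  link (k4775 sound8) (by decide +kernel) (by decide +kernel)

theorem m4776 : Kill9 (Tab.reps 4776) (Tab.W 4776) :=
  link (k4776 sound8) (by decide +kernel) (by decide +kernel)

theorem m4777 : Kill9 (Tab.reps 4777) (Tab.W 4777) :=
  link (k4777 sound8) (by decide +kernel) (by decide +kernel)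

theorem m4778 : Kill9 (Tab.reps 4778) (Tab.W 4778) :=
  link (k4778 sound8) (by decide +kernel) (by decide +kernel)

theorem m4780 : Kill9 (Tab.reps 4780) (Tab.W 4780) :=
  link (k4780 sound8) (by decide +kernel) (by decide +kernel)

theorem m4781 : Kill9 (Tab.reps 4781) (Tab.W 4781) :=
  link (k4781 sound8) (by decide +kernel) (by decide +kernel)

theorem m4782 : Kill9 (Tab.reps 4782) (Tab.W 4782) :=
  link (k4782 sound8) (by decide +kernel) (by decide +kernel)

theorem m4783 : Kill9 (Tab.reps 4783) (Tab.W 4783) :=
  link (k4783 sound8) (by decide +kernel) (by decide +kernel)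

theorem m4784 : Kill9 (Tab.reps 4784) (Tab.W 4784) :=
  link (k4784 sound8) (by decide +kernel) (by decide +kernel)

theorem m4785 : Kill9 (Tab.reps 4785) (Tab.W 4785) :=
  link (k4785 sound8) (by decide +kernel) (by decide +kernel)

theorem m4786 : Kill9 (Tab.reps 4786) (Tab.W 4786) :=
  link (k4786 sound8) (by decide +kernel) (by decide +kernel)

theorem m4787 : Kill9 (Tab.reps 4787) (Tab.W 4787) :=
  link (k4787 sound8) (by decide +kernel) (by decide +kernel)

theorem m4790 : Kill9 (Tab.reps 4790) (Tab.W 4790) :=
  link (k4790 sound8) (by decide +kernel) (by decide +kernel)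

theorem all9 : AllK (fun k => Kill9 (Tab.reps k) (Tab.W k)) Tab.PR :=
  ⟨m4439, m4440, m4441, m4442, m4444, m4452, m4454, m4456, m4462, m4464, m4466, m4467, m4468,
    m4471, m4473, m4476, m4478, m4479, m4480, m4484, m4486, m4488, m4489, m4493, m4498, m4499,
    m4501, m4505, m4507, m4509, m4512, m4516, m4518, m4519, m4521, m4522, m4524, m4525, m4527,
    m4529, m4531, m4533, m4536, m4537, m4539, m4540, m4543, m4544, m4545, m4547, m4548, m4550,
    m4552, m4554, m4555, m4556, m4558, m4561, m4563, m4567, m4569, m4570, m4572, m4573, m4574,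
    m4575, m4576, m4579, m4580, m4582, m4583, m4584, m4586, m4587, m4588, m4590, m4593, m4594,
    m4596, m4598, m4600, m4601, m4602, m4603, m4605, m4607, m4608, m4609, m4610, m4611, m4612,
    m4614, m4615, m4617, m4618, m4619, m4620, m4621, m4622, m4623, m4624, m4625, m4630, m4631,
    m4633, m4636, m4637, m4638, m4642, m4643, m4644, m4645, m4646, m4647, m4650, m4652, m4653,
    m4655, m4656, m4658, m4659, m4661, m4663, m4664, m4665, m4666, m4672, m4673, m4674, m4675,
    m4676, m4680, m4681, m4682, m4683, m4686, m4687, m4688, m4693, m4697, m4698, m4699, m4701,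
    m4702, m4703, m4704, m4706, m4707, m4708, m4709, m4711, m4712, m4713, m4714, m4715, m4716,
    m4717, m4718, m4721, m4722, m4723, m4724, m4725, m4726, m4727, m4728, m4729, m4730, m4731,
    m4732, m4733, m4734, m4735, m4736, m4737, m4738, m4739, m4742, m4743, m4744, m4746, m4747,
    m4748, m4751, m4752, m4753, m4754, m4755, m4756, m4757, m4758, m4759, m4760, m4761, m4762,
    m4763, m4766, m4771, m4772, m4773, m4775, m4776, m4777, m4778, m4780, m4781, m4782, m4783,
    m4784, m4785, m4786, m4787, m4790, trivial⟩

/-- levels 8 and 9: every processed rank is finished -/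
theorem kill9_all : ∀ k ∈ Tab.PR, Kill9 (Tab.reps k) (Tab.W k) := AllK.mem Tab.PR all9

end D9

end CR
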